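import Pool.Agent.R534.MF.Strat
import Pool.Agent.H442R3.MPar.Main

/-!
# The algorithm

A clause is a list of literals `(v, b)`.  All the functions work on lists.
-/

namespace Pool.Agent.R534.MF

/-- clauses -/
abbrev Cla := List (ℕ × Bool)

/-- the literals of a clause -/
def cl0 (C : Cla) : Finset (ℕ × Bool) := C.toFinset

/-! ### Satisfiability test -/

/-- the instance of hypergraphic matroid matching which describes the bipartite graph between the
clauses `G` and the variables `W` -/
def prs (G : List Cla) (W : List ℕ) : List (List ℕ × List ℕ) :=
  G.zipIdx.map (fun q => (0 :: (q.1.filter (fun l => decide (l.1 ∈ W))).map (fun l => 2 * l.1 + 1),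
    [0, 2 * q.2 + 2]))

/-- all the clauses can be matched into the variables -/
def sat0 (G : List Cla) (W : List ℕ) : Bool :=
  decide (H442R3.MPar.nuF (prs G W) = G.length)

/-- the clauses without the literal `l` -/
def fil (G : List Cla) (l : ℕ × Bool) : List Cla := G.filter (fun C => !decide (l ∈ C))

/-- the variables without `v` -/
def rmv (W : List ℕ) (v : ℕ) : List ℕ := W.filter (fun w => !decide (w = v))

/-- satisfiability test: assign at most `k` variables, then match the remaining clauses -/
def satT : ℕ → List Cla → List ℕ → Bool
  | 0, G, W => sat0 G W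
  | k + 1, G, W => satT k G W || W.any (fun v =>
      satT k (fil G (v, true)) (rmv W v) || satT k (fil G (v, false)) (rmv W v))

/-- a minimal unsatisfiable subfamily -/
def core (k : ℕ) (G : List Cla) (W : List ℕ) : List Cla :=
  G.foldl (fun K C => if satT k (K.filter (fun D => !decide (D = C))) W = true then K
    else K.filter (fun D => !decide (D = C))) G

/-- the variables of `W` which occur in `K` -/
def ocL (W : List ℕ) (K : List Cla) : List ℕ :=
  W.filter (fun v => K.any (fun C => C.any (fun l => decide (l.1 = v))))

/-! ### Trees in postfix notation -/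

/-- instructions: `none` joins the two last tables; `some none` is the empty leaf; the other
instructions are leaves labelled by clauses or by variables -/
abbrev Ins := Option (Option (Cla ⊕ ℕ))

/-- the join instruction -/
def jn : Ins := none
/-- the empty leaf -/
def nl : Ins := some none
/-- a clause leaf -/
def lc (C : Cla) : Ins := some (some (Sum.inl C))
/-- a variable leaf -/
def lv (v : ℕ) : Ins := some (some (Sum.inr v))

/-- the clause of a clause leaf -/
def insC (i : Ins) : List Cla :=
  i.elim [] (fun o => o.elim [] (fun s => Sum.elim (fun C => [C]) (fun _ => []) s))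
/-- the variable of a variable leaf -/
def insV (i : Ins) : List ℕ :=
  i.elim [] (fun o => o.elim [] (fun s => Sum.elim (fun _ => []) (fun v => [v]) s))

/-- the clauses of a program -/
def clsI (l : List Ins) : List Cla := l.flatMap insC
/-- the variables of a program -/
def vrsI (l : List Ins) : List ℕ := l.flatMap insV

/-- clusters: a program, and the literals of the remaining variables in its clauses -/
abbrev Clu := List Ins × List (ℕ × Bool)

/-- `w` occurs exactly once with each sign in the clusters -/
def gd (L : List Clu) (w : ℕ) : Bool :=
  decide ((L.filter (fun c => decide ((w, true) ∈ c.2))).length = 1) &&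
  (decide ((L.filter (fun c => decide ((w, false) ∈ c.2))).length = 1) &&
    L.all (fun c => !(decide ((w, true) ∈ c.2) && decide ((w, false) ∈ c.2))))

/-- merge the two clusters in which `w` occurs -/
def mrg (L : List Clu) (w : ℕ) : List Clu :=
  ((L.filter (fun c => decide ((w, true) ∈ c.2))).flatMap (fun c => c.1) ++
      ((L.filter (fun c => decide ((w, false) ∈ c.2))).flatMap (fun c => c.1) ++ [jn, lv w, jn]),
    ((L.filter (fun c => decide ((w, true) ∈ c.2))).flatMap (fun c => c.2) ++
      (L.filter (fun c => decide ((w, false) ∈ c.2))).flatMap (fun c => c.2)).filter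
        (fun l => !decide (l.1 = w))) ::
  L.filter (fun c => !(decide ((w, true) ∈ c.2) || decide ((w, false) ∈ c.2)))

/-- one merging step -/
def mstep (W : List ℕ) (L : List Clu) : List Clu :=
  ((W.filter (fun w => gd L w)).head?).elim L (fun w => mrg L w)

/-- the initial clusters -/
def minit (K : List Cla) (W : List ℕ) : List Clu :=
  K.map (fun C => ([lc C], C.filter (fun l => decide (l.1 ∈ W))))

/-- the program of a minimal unsatisfiable family of deficiency one -/
def mtree (K : List Cla) (W : List ℕ) : List Ins :=
  ((mstep W)^[W.length] (minit K W)).flatMap (fun c => c.1)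

/-- the core of `K[v = b]` -/
def cr (k : ℕ) (K : List Cla) (W : List ℕ) (l : ℕ × Bool) : List Cla :=
  core k (fil K l) (rmv W l.1)

/-- the variables of the core of `K[v = b]` -/
def crW (k : ℕ) (K : List Cla) (W : List ℕ) (l : ℕ × Bool) : List ℕ :=
  ocL (rmv W l.1) (cr k K W l)

/-- the cores of `K[v = b]` have smaller deficiency than `K` -/
def gdv (k : ℕ) (K : List Cla) (W : List ℕ) (v : ℕ) : Bool :=
  decide ((cr k K W (v, false)).length + W.length < (crW k K W (v, false)).length + K.length) &&
  decide ((cr k K W (v, true)).length + W.length < (crW k K W (v, true)).length + K.length)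

/-- the programs for a minimal unsatisfiable family of deficiency at most `j + 1` -/
def items (k : ℕ) : ℕ → List Cla → List ℕ → List (List Ins)
  | 0, K, W => [mtree K W]
  | j + 1, K, W => if K.length ≤ W.length + 1 then [mtree K W] else
      ((W.filter (fun v => gdv k K W v)).head?).elim [] (fun v => [lv v] ::
        (items k j (cr k K W (v, false)) (crW k K W (v, false)) ++
          items k j (cr k K W (v, true)) (crW k K W (v, true))))

/-- the programs for the successive cores -/
def layers (k : ℕ) : ℕ → List Cla → List ℕ → List (List Ins)
  | 0, _, _ => []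
  | i + 1, G, W => if satT k G W = true then [] else
      items k k (core k G W) (ocL W (core k G W)) ++
        layers k i (G.filter (fun C => !decide (C ∈ core k G W)))
          (W.filter (fun v => !decide (v ∈ ocL W (core k G W))))

/-- the final program: the join of all the programs, every leaf being kept only in the last program
where it occurs -/
def fin (ts : List (List Ins)) : List Ins :=
  (ts.foldr (fun (t : List Ins) (s : List Ins × List Ins) => (t ++ s.1,
    t.map (fun i => if (!decide (i = jn) && s.1.any (fun j => decide (j = i))) = true then nl
      else i) ++ (s.2 ++ [jn]))) ([], [nl])).2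

/-! ### Dynamic programming -/

/-- tokens: in the branch `β` the clause `C` is satisfied by the literal `l` -/
abbrev Tok := List (ℕ × Bool) × (ℕ × Bool) × Cla

/-- all the tokens -/
def master (B : List (List (ℕ × Bool))) (K : List Cla) : List Tok :=
  B.flatMap (fun β => K.flatMap (fun C => C.map (fun l => (β, l, C))))

/-- the lists of at most `c` elements of `M` -/
def cands (M : List Tok) : ℕ → List (List Tok)
  | 0 => [[]]
  | c + 1 => [] :: M.flatMap (fun a => (cands M c).map (fun Z => a :: Z))

/-- `y` comes before `e` in the prefix -/
def befB (p : List (Bool × ℕ)) (y e : ℕ) : Bool :=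
  p.foldr (fun a r => !decide (a.2 = e) && (decide (a.2 = y) || r)) false

/-- two branches are in conflict before `e` -/
def confB (p : List (Bool × ℕ)) (e : ℕ) (β β' : List (ℕ × Bool)) : Bool :=
  β.any (fun l => decide ((l.1, !l.2) ∈ β') && befB p l.1 e)

/-- the table of a clause leaf -/
def leafC (B : List (List (ℕ × Bool))) (CD : List (List Tok)) (C : Cla) : List (List Tok) :=
  CD.filter (fun Z => Z.all (fun s => decide (s.2.2 = C) && decide (s.2.1 ∈ C)) &&
    B.all (fun β => β.any (fun l => decide (l ∈ C)) || Z.any (fun s => decide (s.1 = β))))

/-- the table of a variable leaf -/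
def leafV (p : List (Bool × ℕ)) (CD : List (List Tok)) (e : ℕ) : List (List Tok) :=
  CD.filter (fun Z => Z.all (fun s => decide (s.2.1.1 = e) && Z.all (fun s' =>
    confB p e s.1 s'.1 || decide (s.2.1.2 = s'.2.1.2))))

/-- `Z` is the symmetric difference of `X` and `Y` -/
def sd (X Y Z : List Tok) : Bool :=
  (X ++ (Y ++ Z)).all (fun s => !((decide (s ∈ X) ^^ decide (s ∈ Y)) ^^ decide (s ∈ Z)))

/-- the table of a join -/
def joinT (CD : List (List Tok)) (a b : List (List Tok)) : List (List Tok) :=
  CD.filter (fun Z => a.any (fun X => b.any (fun Y => sd X Y Z)))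

/-- the table of a leaf instruction -/
def leafT (B : List (List (ℕ × Bool))) (p : List (Bool × ℕ)) (CD : List (List Tok))
    (o : Option (Cla ⊕ ℕ)) : List (List Tok) :=
  o.elim [[]] (fun s => Sum.elim (fun C => leafC B CD C) (fun e => leafV p CD e) s)

/-- one step of the stack machine -/
def stepT (B : List (List (ℕ × Bool))) (p : List (Bool × ℕ)) (CD : List (List Tok))
    (st : List (List (List Tok))) (i : Ins) : List (List (List Tok)) :=
  i.elim (match st with
    | [] => []
    | b :: st' => match st' with
      | [] => [b]
      | a :: st'' => joinT CD a b :: st'') (fun o => leafT B p CD o :: st)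

/-- run a program -/
def runT (B : List (List (ℕ × Bool))) (p : List (Bool × ℕ)) (CD : List (List Tok))
    (l : List Ins) : List (List (List Tok)) :=
  l.foldl (fun st i => stepT B p CD st i) []

/-- the program accepts -/
def acc (c : ℕ) (p : List (Bool × ℕ)) (l : List Ins) (B : List (List (ℕ × Bool))) : Bool :=
  decide ((runT B p (cands (master B (clsI l)) c) l).length = 1) &&
    (runT B p (cands (master B (clsI l)) c) l).all (fun tab => decide (([] : List Tok) ∈ tab))

/-- the branch sets of the decision trees of depth at most `d` -/
def trees (U : List ℕ) : ℕ → List (List (List (ℕ × Bool)))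
  | 0 => [[[]]]
  | d + 1 => [[]] :: U.flatMap (fun y => (trees U d).flatMap (fun B₀ => (trees U d).map (fun B₁ =>
      B₀.map (fun β => (y, false) :: β) ++ B₁.map (fun β => (y, true) :: β))))

/-- the existential variables -/
def exL (p : List (Bool × ℕ)) : List ℕ := (p.filter (fun a => a.1)).map (fun a => a.2)
/-- the universal variables -/
def unL (p : List (Bool × ℕ)) : List ℕ := (p.filter (fun a => !a.1)).map (fun a => a.2)

/-- no element occurs twice -/
def ndp {α : Type} [DecidableEq α] (l : List α) : Bool :=
  l.all (fun a => decide ((l.filter (fun b => decide (b = a))).length = 1))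

/-- the test for a given program -/
def tst (k c : ℕ) (p : List (Bool × ℕ)) (F : List Cla) (l : List Ins) : Bool :=
  ((ndp (clsI l) && ndp (vrsI l)) && (vrsI l).all (fun v => decide (v ∈ exL p))) &&
  (satT k (F.filter (fun C => !decide (C ∈ clsI l)))
    ((exL p).filter (fun v => !decide (v ∈ vrsI l))) &&
  (trees (unL p) k).any (fun B => acc c p l B))

/-- the truth test -/
def truthT (k c : ℕ) (p : List (Bool × ℕ)) (F : List Cla) : Bool :=
  tst k c p F (fin (layers k k F (exL p)))

end Pool.Agent.R534.MF
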