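import Pool.Agent.R534.MF.Alg

/-!
# Correctness of the dynamic programming
-/

set_option linter.unusedSectionVars false
set_option linter.unusedSimpArgs false

namespace Pool.Agent.R534.MF

open Finset

/-- trees -/
inductive PT : Type
  | nil : PT
  | cl (C : Cla) : PT
  | vr (v : ℕ) : PT
  | join (a b : PT) : PT

namespace PT

/-- postfix notation -/
def post : PT → List Ins
  | nil => [nl]
  | cl C => [lc C]
  | vr v => [lv v]
  | join a b => a.post ++ (b.post ++ [jn])

/-- the clauses -/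
def cls : PT → List Cla
  | nil => []
  | cl C => [C]
  | vr _ => []
  | join a b => a.cls ++ b.cls

/-- the variables -/
def vrs : PT → List ℕ
  | nil => []
  | cl _ => []
  | vr v => [v]
  | join a b => a.vrs ++ b.vrs

/-- `P` holds for all the subtrees -/
def All (P : PT → Prop) : PT → Prop
  | nil => P nil
  | cl C => P (cl C)
  | vr v => P (vr v)
  | join a b => P (join a b) ∧ a.All P ∧ b.All P

theorem All.mono {P Q : PT → Prop} (h : ∀ t, P t → Q t) : ∀ {t : PT}, t.All P → t.All Q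
  | nil, h1 => h _ h1
  | cl _, h1 => h _ h1
  | vr _, h1 => h _ h1
  | join _ _, h1 => ⟨h _ h1.1, All.mono h h1.2.1, All.mono h h1.2.2⟩

theorem All.self {P : PT → Prop} : ∀ {t : PT}, t.All P → P t
  | nil, h1 => h1
  | cl _, h1 => h1
  | vr _, h1 => h1
  | join _ _, h1 => h1.1

theorem All.and {P Q : PT → Prop} : ∀ {t : PT}, t.All P → t.All Q → t.All (fun t => P t ∧ Q t)
  | nil, h1, h2 => ⟨h1, h2⟩
  | cl _, h1, h2 => ⟨h1, h2⟩
  | vr _, h1, h2 => ⟨h1, h2⟩
  | join _ _, h1, h2 => ⟨⟨h1.1, h2.1⟩, All.and h1.2.1 h2.2.1, All.and h1.2.2 h2.2.2⟩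

theorem clsI_post : ∀ t : PT, clsI t.post = t.cls
  | nil => rfl
  | cl _ => rfl
  | vr _ => rfl
  | join a b => by
    have h1 := clsI_post a
    have h2 := clsI_post b
    unfold clsI at *
    rw [post, List.flatMap_append, List.flatMap_append, h1, h2]
    simp [cls, jn, insC]

theorem vrsI_post : ∀ t : PT, vrsI t.post = t.vrs
  | nil => rfl
  | cl _ => rfl
  | vr _ => rfl
  | join a b => by
    have h1 := vrsI_post a
    have h2 := vrsI_post b
    unfold vrsI at *
    rw [post, List.flatMap_append, List.flatMap_append, h1, h2]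
    simp [vrs, jn, insV]

end PT

/-- the tree of a leaf -/
def leafP (o : Option (Cla ⊕ ℕ)) : PT := o.elim PT.nil (fun s => Sum.elim PT.cl PT.vr s)

/-- the stack machine on trees -/
def stepP (st : List PT) (i : Ins) : List PT :=
  i.elim (match st with
    | [] => []
    | b :: st' => match st' with
      | [] => [b]
      | a :: st'' => PT.join a b :: st'') (fun o => leafP o :: st)

section

variable (B : List (List (ℕ × Bool))) (p : List (Bool × ℕ)) (CD : List (List Tok))

/-- the table of a tree -/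
def tabL : PT → List (List Tok)
  | PT.nil => [[]]
  | PT.cl C => leafC B CD C
  | PT.vr v => leafV p CD v
  | PT.join a b => joinT CD (tabL a) (tabL b)

theorem tabL_leaf (o : Option (Cla ⊕ ℕ)) : tabL B p CD (leafP o) = leafT B p CD o := by
  rcases o with _ | C | v <;> rfl

theorem stepT_eq (st : List PT) (i : Ins) :
    stepT B p CD (st.map (tabL B p CD)) i = (stepP st i).map (tabL B p CD) := by
  unfold stepT stepP
  cases i with
  | none =>
    rcases st with _ | ⟨b, _ | ⟨a, st⟩⟩ <;> rfl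
  | some o =>
    simp only [Option.elim, List.map_cons, tabL_leaf]

theorem foldl_stepT (l : List Ins) : ∀ st : List PT,
    l.foldl (fun st i => stepT B p CD st i) (st.map (tabL B p CD)) =
      (l.foldl stepP st).map (tabL B p CD) := by
  induction l with
  | nil => intro st; rfl
  | cons i l ih =>
    intro st
    rw [List.foldl_cons, List.foldl_cons, stepT_eq, ih]

theorem runT_eq (l : List Ins) : runT B p CD l = (l.foldl stepP []).map (tabL B p CD) :=
  foldl_stepT B p CD l []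

end

theorem foldl_stepP_post : ∀ (t : PT) (l : List Ins) (st : List PT),
    (t.post ++ l).foldl stepP st = l.foldl stepP (t :: st)
  | PT.nil, l, st => rfl
  | PT.cl C, l, st => rfl
  | PT.vr v, l, st => rfl
  | PT.join a b, l, st => by
    rw [PT.post, List.append_assoc, foldl_stepP_post a, List.append_assoc, foldl_stepP_post b]
    rfl

theorem leafP_cls (o : Option (Cla ⊕ ℕ)) : (leafP o).cls = insC (some o) := by
  rcases o with _ | C | v <;> rfl

theorem leafP_vrs (o : Option (Cla ⊕ ℕ)) : (leafP o).vrs = insV (some o) := by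
  rcases o with _ | C | v <;> rfl

theorem stepP_cls (st : List PT) (i : Ins) :
    ((stepP st i).flatMap PT.cls).Perm (insC i ++ st.flatMap PT.cls) := by
  unfold stepP
  cases i with
  | none =>
    rcases st with _ | ⟨b, _ | ⟨a, st⟩⟩
    · simp [insC]
    · simp [insC]
    · simp only [Option.elim, List.flatMap_cons, PT.cls, insC, List.nil_append, List.append_assoc]
      rw [← List.append_assoc, ← List.append_assoc]
      exact (List.perm_append_comm).append_right _
  | some o =>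
    simp only [Option.elim, List.flatMap_cons, leafP_cls]
    exact List.Perm.refl _

theorem stepP_vrs (st : List PT) (i : Ins) :
    ((stepP st i).flatMap PT.vrs).Perm (insV i ++ st.flatMap PT.vrs) := by
  unfold stepP
  cases i with
  | none =>
    rcases st with _ | ⟨b, _ | ⟨a, st⟩⟩
    · simp [insV]
    · simp [insV]
    · simp only [Option.elim, List.flatMap_cons, PT.vrs, insV, List.nil_append, List.append_assoc]
      rw [← List.append_assoc, ← List.append_assoc]
      exact (List.perm_append_comm).append_right _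
  | some o =>
    simp only [Option.elim, List.flatMap_cons, leafP_vrs]
    exact List.Perm.refl _

theorem foldl_cls (l : List Ins) : ∀ st : List PT,
    ((l.foldl stepP st).flatMap PT.cls).Perm (clsI l ++ st.flatMap PT.cls) := by
  induction l with
  | nil => intro st; exact List.Perm.refl _
  | cons i l ih =>
    intro st
    rw [List.foldl_cons]
    refine (ih _).trans (((stepP_cls st i).append_left _).trans ?_)
    unfold clsI
    rw [List.flatMap_cons, List.append_assoc (insC i)]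
    exact List.perm_append_comm_assoc _ _ _

theorem foldl_vrs (l : List Ins) : ∀ st : List PT,
    ((l.foldl stepP st).flatMap PT.vrs).Perm (vrsI l ++ st.flatMap PT.vrs) := by
  induction l with
  | nil => intro st; exact List.Perm.refl _
  | cons i l ih =>
    intro st
    rw [List.foldl_cons]
    refine (ih _).trans (((stepP_vrs st i).append_left _).trans ?_)
    unfold vrsI
    rw [List.flatMap_cons, List.append_assoc (insV i)]
    exact List.perm_append_comm_assoc _ _ _

/-! ### Basic specifications -/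

theorem befB_iff (p : List (Bool × ℕ)) (y e : ℕ) : befB p y e = true ↔ bef p y e := by
  induction p with
  | nil => simp [befB, bef]
  | cons a p ih =>
    unfold befB at ih ⊢
    rw [List.foldr_cons, Bool.and_eq_true, Bool.or_eq_true, ih, bef]
    simp

theorem confB_iff (p : List (Bool × ℕ)) (e : ℕ) (β β' : List (ℕ × Bool)) :
    confB p e β β' = true ↔ Conf p e β β' := by
  unfold confB Conf
  rw [List.any_eq_true]
  constructor
  · rintro ⟨⟨y, b⟩, h1, h2⟩
    rw [Bool.and_eq_true, decide_eq_true_iff, befB_iff] at h2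
    exact ⟨y, b, h1, h2.1, h2.2⟩
  · rintro ⟨y, b, h1, h2, h3⟩
    refine ⟨(y, b), h1, ?_⟩
    rw [Bool.and_eq_true, decide_eq_true_iff, befB_iff]
    exact ⟨h2, h3⟩

theorem sd_iff (X Y Z : List Tok) : sd X Y Z = true ↔ ∀ s, s ∈ Z ↔ Xor (s ∈ X) (s ∈ Y) := by
  unfold sd
  rw [List.all_eq_true]
  constructor
  · intro h s
    by_cases hX : s ∈ X <;> by_cases hY : s ∈ Y <;> by_cases hZ : s ∈ Z <;>
      simp only [hX, hY, hZ, Xor, not_true_eq_false, not_false_eq_true, and_self, and_true,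
        and_false, or_false, false_or, or_true, or_self, iff_true, iff_false]
    all_goals
      first
        | trivial
        | (exfalso
           have := h s (by simp [hX, hY, hZ])
           simp [hX, hY, hZ] at this)
  · intro h s _
    have := h s
    by_cases hX : s ∈ X <;> by_cases hY : s ∈ Y <;> by_cases hZ : s ∈ Z <;>
      simp_all [Xor]

theorem mem_joinT {CD a b : List (List Tok)} {Z : List Tok} : Z ∈ joinT CD a b ↔
    Z ∈ CD ∧ ∃ X ∈ a, ∃ Y ∈ b, ∀ s, s ∈ Z ↔ Xor (s ∈ X) (s ∈ Y) := by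
  unfold joinT
  rw [List.mem_filter, List.any_eq_true]
  simp only [List.any_eq_true, sd_iff]

/-- specification of the tables of clause leaves -/
def LC (B : List (List (ℕ × Bool))) (C : Cla) (z : Tok → Prop) : Prop :=
  (∀ s, z s → s.2.2 = C ∧ s.2.1 ∈ C) ∧ ∀ β ∈ B, (∃ l ∈ β, l ∈ C) ∨ ∃ s, z s ∧ s.1 = β

/-- specification of the tables of variable leaves -/
def LV (p : List (Bool × ℕ)) (e : ℕ) (z : Tok → Prop) : Prop :=
  ∀ s s', z s → z s' → s.2.1.1 = e ∧ (¬ Conf p e s.1 s'.1 → s.2.1.2 = s'.2.1.2)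

theorem mem_leafC {B : List (List (ℕ × Bool))} {CD : List (List Tok)} {C : Cla} {Z : List Tok} :
    Z ∈ leafC B CD C ↔ Z ∈ CD ∧ LC B C (fun s => s ∈ Z) := by
  unfold leafC LC
  simp only [List.mem_filter, Bool.and_eq_true, List.all_eq_true, decide_eq_true_eq,
    Bool.or_eq_true, List.any_eq_true]

theorem mem_leafV {p : List (Bool × ℕ)} {CD : List (List Tok)} {e : ℕ} {Z : List Tok} :
    Z ∈ leafV p CD e ↔ Z ∈ CD ∧ LV p e (fun s => s ∈ Z) := by
  unfold leafV LV
  simp only [List.mem_filter, Bool.and_eq_true, List.all_eq_true, decide_eq_true_eq,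
    Bool.or_eq_true, confB_iff]
  constructor
  · rintro ⟨h1, h2⟩
    refine ⟨h1, fun s s' hs hs' => ⟨(h2 s hs).1, fun hc => ?_⟩⟩
    exact ((h2 s hs).2 s' hs').resolve_left hc
  · rintro ⟨h1, h2⟩
    refine ⟨h1, fun s hs => ⟨(h2 s s hs hs).1, fun s' hs' => ?_⟩⟩
    by_cases hc : Conf p e s.1 s'.1
    · exact Or.inl hc
    · exact Or.inr ((h2 s s' hs hs').2 hc)

theorem xor_combine {A V A' V' : Prop} (h1 : ¬ (A ∧ A')) (h2 : ¬ (V ∧ V')) :
    Xor (Xor A V) (Xor A' V') ↔ Xor (A ∨ A') (V ∨ V') := by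
  unfold Xor
  by_cases hA : A <;> by_cases hA' : A' <;> by_cases hV : V <;> by_cases hV' : V' <;> simp_all

/-! ### Soundness -/

theorem tab_sound {B : List (List (ℕ × Bool))} {p : List (Bool × ℕ)} {CD : List (List Tok)} :
    ∀ (t : PT), t.cls.Nodup → t.vrs.Nodup → ∀ Z ∈ tabL B p CD t,
    ∃ (zc : Cla → Tok → Prop) (ze : ℕ → Tok → Prop), (∀ C ∈ t.cls, LC B C (zc C)) ∧
      (∀ e ∈ t.vrs, LV p e (ze e)) ∧
      ∀ s, s ∈ Z ↔ Xor (s.2.2 ∈ t.cls ∧ zc s.2.2 s) (s.2.1.1 ∈ t.vrs ∧ ze s.2.1.1 s) := by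
  intro t
  induction t with
  | nil =>
    intro _ _ Z hZ
    rw [tabL, List.mem_singleton] at hZ
    subst hZ
    exact ⟨fun _ _ => False, fun _ _ => False, by simp [PT.cls], by simp [PT.vrs], by simp [Xor]⟩
  | cl C =>
    intro _ _ Z hZ
    rw [tabL, mem_leafC] at hZ
    refine ⟨fun _ s => s ∈ Z, fun _ _ => False, ?_, by simp [PT.vrs], ?_⟩
    · intro D hD
      rw [PT.cls, List.mem_singleton] at hD
      subst hD
      exact hZ.2
    · intro s
      simp only [PT.cls, PT.vrs, List.mem_singleton, List.not_mem_nil, and_false, Xor, not_false_eq_true,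
        and_true, false_and, or_false]
      exact ⟨fun h => ⟨(hZ.2.1 s h).1, h⟩, fun h => h.2⟩
  | vr v =>
    intro _ _ Z hZ
    rw [tabL, mem_leafV] at hZ
    refine ⟨fun _ _ => False, fun _ s => s ∈ Z, by simp [PT.cls], ?_, ?_⟩
    · intro D hD
      rw [PT.vrs, List.mem_singleton] at hD
      subst hD
      exact hZ.2
    · intro s
      simp only [PT.cls, PT.vrs, List.mem_singleton, List.not_mem_nil, and_false, Xor, not_false_eq_true,
        and_true, false_and, false_or]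
      exact ⟨fun h => ⟨(hZ.2 s s h h).1, h⟩, fun h => h.2⟩
  | join a b iha ihb =>
    intro hc hv Z hZ
    rw [PT.cls, List.nodup_append] at hc
    rw [PT.vrs, List.nodup_append] at hv
    rw [tabL, mem_joinT] at hZ
    obtain ⟨_, X, hX, Y, hY, hXY⟩ := hZ
    obtain ⟨zc1, ze1, h1, h2, h3⟩ := iha hc.1 hv.1 X hX
    obtain ⟨zc2, ze2, h4, h5, h6⟩ := ihb hc.2.1 hv.2.1 Y hY
    refine ⟨fun C s => if C ∈ a.cls then zc1 C s else zc2 C s,
      fun e s => if e ∈ a.vrs then ze1 e s else ze2 e s, ?_, ?_, ?_⟩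
    · intro C hC
      rw [PT.cls, List.mem_append] at hC
      by_cases hCa : C ∈ a.cls
      · simp only [if_pos hCa]
        exact h1 C hCa
      · simp only [if_neg hCa]
        exact h4 C (hC.resolve_left hCa)
    · intro e he
      rw [PT.vrs, List.mem_append] at he
      by_cases hea : e ∈ a.vrs
      · simp only [if_pos hea]
        exact h2 e hea
      · simp only [if_neg hea]
        exact h5 e (he.resolve_left hea)
    · intro s
      rw [hXY s, h3 s, h6 s, xor_combine]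
      · have e1 : ((s.2.2 ∈ a.cls ∧ zc1 s.2.2 s) ∨ (s.2.2 ∈ b.cls ∧ zc2 s.2.2 s)) ↔
            (s.2.2 ∈ (PT.join a b).cls ∧ if s.2.2 ∈ a.cls then zc1 s.2.2 s else zc2 s.2.2 s) := by
          rw [PT.cls, List.mem_append]
          by_cases ha : s.2.2 ∈ a.cls
          · have hb : s.2.2 ∉ b.cls := fun hb => hc.2.2 _ ha _ hb rfl
            simp [ha, hb]
          · simp [ha]
        have e2 : ((s.2.1.1 ∈ a.vrs ∧ ze1 s.2.1.1 s) ∨ (s.2.1.1 ∈ b.vrs ∧ ze2 s.2.1.1 s)) ↔
            (s.2.1.1 ∈ (PT.join a b).vrs ∧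
              if s.2.1.1 ∈ a.vrs then ze1 s.2.1.1 s else ze2 s.2.1.1 s) := by
          rw [PT.vrs, List.mem_append]
          by_cases ha : s.2.1.1 ∈ a.vrs
          · have hb : s.2.1.1 ∉ b.vrs := fun hb => hv.2.2 _ ha _ hb rfl
            simp [ha, hb]
          · simp [ha]
        rw [e1, e2]
      · rintro ⟨⟨h7, _⟩, ⟨h8, _⟩⟩
        exact hc.2.2 _ h7 _ h8 rfl
      · rintro ⟨⟨h7, _⟩, ⟨h8, _⟩⟩
        exact hv.2.2 _ h7 _ h8 rfl

theorem acc_sound {c : ℕ} {p : List (Bool × ℕ)} {l : List Ins} {B : List (List (ℕ × Bool))}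
    (h : acc c p l B = true) (hc : (clsI l).Nodup) (hv : (vrsI l).Nodup) :
    ∃ R : ℕ → List (ℕ × Bool) → Bool → Prop, (∀ e β b, R e β b → e ∈ vrsI l) ∧
      (∀ e β β' b b', R e β b → R e β' b' → ¬ Conf p e β β' → b = b') ∧
      ∀ C ∈ clsI l, ∀ β ∈ B, (∃ l ∈ β, l ∈ C) ∨ ∃ e b, R e β b ∧ (e, b) ∈ C := by
  unfold acc at h
  rw [Bool.and_eq_true, decide_eq_true_iff, List.all_eq_true, runT_eq, List.length_map] at h
  obtain ⟨h1, h2⟩ := h
  obtain ⟨t, ht⟩ := List.length_eq_one_iff.1 h1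
  have h3 := foldl_cls l []
  have h4 := foldl_vrs l []
  rw [ht] at h2 h3 h4
  simp only [List.flatMap_cons, List.flatMap_nil, List.append_nil] at h3 h4
  have h5 := h2 _ (by rw [List.map_cons]; exact List.mem_cons_self)
  rw [decide_eq_true_iff] at h5
  obtain ⟨zc, ze, h6, h7, h8⟩ := tab_sound t (h3.nodup_iff.2 hc) (h4.nodup_iff.2 hv) [] h5
  refine ⟨fun e β b => e ∈ t.vrs ∧ ∃ s, ze e s ∧ s.1 = β ∧ s.2.1 = (e, b), ?_, ?_, ?_⟩
  · rintro e β b ⟨he, _⟩
    exact h4.mem_iff.1 he
  · rintro e β β' b b' ⟨he, s, hs, rfl, hs2⟩ ⟨_, s', hs', rfl, hs2'⟩ hconf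
    have := (h7 e he s s' hs hs').2 hconf
    rw [hs2, hs2'] at this
    exact this
  · intro C hC β hβ
    have hCt := h3.mem_iff.2 hC
    obtain ⟨h9, h10⟩ := h6 C hCt
    rcases h10 β hβ with h11 | ⟨s, hs, hsβ⟩
    · exact Or.inl h11
    · right
      obtain ⟨h12, h13⟩ := h9 s hs
      have h14 := h8 s
      have h15 : s.2.2 ∈ t.cls ∧ zc s.2.2 s := by
        rw [h12]
        exact ⟨hCt, hs⟩
      have h16 : s.2.1.1 ∈ t.vrs ∧ ze s.2.1.1 s := by
        by_contra hno
        have h17 := h14.2 (Or.inl ⟨h15, hno⟩)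
        simp at h17
      exact ⟨s.2.1.1, s.2.1.2, ⟨h16.1, s, h16.2, hsβ, rfl⟩, h13⟩

/-! ### Completeness -/

/-- the tokens which cross the boundary of `t` -/
noncomputable def bd (Zt : Finset Tok) (t : PT) : Finset Tok := by
  classical
  exact Zt.filter (fun s => Xor (s.2.2 ∈ t.cls) (s.2.1.1 ∈ t.vrs))

theorem mem_bd {Zt : Finset Tok} {t : PT} {s : Tok} :
    s ∈ bd Zt t ↔ s ∈ Zt ∧ Xor (s.2.2 ∈ t.cls) (s.2.1.1 ∈ t.vrs) := by
  unfold bd
  rw [mem_filter]

theorem bd_subset {Zt : Finset Tok} {t : PT} : bd Zt t ⊆ Zt := fun _ hs => (mem_bd.1 hs).1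

theorem tab_complete {B : List (List (ℕ × Bool))} {p : List (Bool × ℕ)} {CD : List (List Tok)}
    {Zt : Finset Tok} {c : ℕ} {FT : Cla → Prop} (h1 : ∀ s ∈ Zt, s.2.1 ∈ s.2.2)
    (h2 : ∀ s ∈ Zt, ∀ s' ∈ Zt, s.2.1.1 = s'.2.1.1 → ¬ Conf p s.2.1.1 s.1 s'.1 →
      s.2.1.2 = s'.2.1.2)
    (h3 : ∀ C, FT C → ∀ β ∈ B, (∃ l ∈ β, l ∈ C) ∨ ∃ s ∈ Zt, s.1 = β ∧ s.2.2 = C)
    (hCD : ∀ Z ⊆ Zt, Z.card ≤ c → ∃ Z' ∈ CD, Z'.toFinset = Z) :
    ∀ t : PT, t.cls.Nodup → t.vrs.Nodup → (∀ C ∈ t.cls, FT C) →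
      t.All (fun t' => (bd Zt t').card ≤ c) → ∀ Z ∈ CD, Z.toFinset = bd Zt t →
      Z ∈ tabL B p CD t := by
  intro t
  induction t with
  | nil =>
    intro _ _ _ _ Z _ hZ
    have : bd Zt PT.nil = ∅ := by
      ext s
      simp [mem_bd, PT.cls, PT.vrs, Xor]
    rw [this, List.toFinset_eq_empty_iff] at hZ
    rw [tabL, List.mem_singleton]
    exact hZ
  | cl C =>
    intro _ _ hFT _ Z hZC hZ
    rw [tabL, mem_leafC]
    have hm : ∀ s, s ∈ Z ↔ s ∈ Zt ∧ s.2.2 = C := by
      intro s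
      rw [← List.mem_toFinset, hZ, mem_bd]
      simp [PT.cls, PT.vrs, Xor]
    refine ⟨hZC, ?_, ?_⟩
    · intro s hs
      rw [hm] at hs
      refine ⟨hs.2, ?_⟩
      have := h1 s hs.1
      rwa [hs.2] at this
    · intro β hβ
      rcases h3 C (hFT C (by simp [PT.cls])) β hβ with h | ⟨s, hs, hs1, hs2⟩
      · exact Or.inl h
      · exact Or.inr ⟨s, (hm s).2 ⟨hs, hs2⟩, hs1⟩
  | vr v =>
    intro _ _ _ _ Z hZC hZ
    rw [tabL, mem_leafV]
    have hm : ∀ s, s ∈ Z ↔ s ∈ Zt ∧ s.2.1.1 = v := by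
      intro s
      rw [← List.mem_toFinset, hZ, mem_bd]
      simp [PT.cls, PT.vrs, Xor]
    refine ⟨hZC, ?_⟩
    intro s s' hs hs'
    rw [hm] at hs hs'
    refine ⟨hs.2, fun hconf => ?_⟩
    refine h2 s hs.1 s' hs'.1 (by rw [hs.2, hs'.2]) ?_
    rwa [hs.2]
  | join a b iha ihb =>
    intro hc hv hFT hAll Z hZC hZ
    rw [PT.cls, List.nodup_append] at hc
    rw [PT.vrs, List.nodup_append] at hv
    obtain ⟨hj, hAa, hAb⟩ := hAll
    obtain ⟨X, hX, hX'⟩ := hCD (bd Zt a) bd_subset hAa.self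
    obtain ⟨Y, hY, hY'⟩ := hCD (bd Zt b) bd_subset hAb.self
    have hXt := iha hc.1 hv.1 (fun C hC => hFT C (by
      rw [PT.cls]; exact List.mem_append_left _ hC)) hAa X hX hX'
    have hYt := ihb hc.2.1 hv.2.1 (fun C hC => hFT C (by
      rw [PT.cls]; exact List.mem_append_right _ hC)) hAb Y hY hY'
    rw [tabL, mem_joinT]
    refine ⟨hZC, X, hXt, Y, hYt, fun s => ?_⟩
    have e1 : s ∈ Z ↔ s ∈ bd Zt (PT.join a b) := by rw [← hZ, List.mem_toFinset]
    have e2 : s ∈ X ↔ s ∈ bd Zt a := by rw [← hX', List.mem_toFinset]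
    have e3 : s ∈ Y ↔ s ∈ bd Zt b := by rw [← hY', List.mem_toFinset]
    rw [e1, e2, e3, mem_bd, mem_bd, mem_bd]
    by_cases hs : s ∈ Zt
    · simp only [hs, true_and]
      rw [xor_combine]
      · rw [PT.cls, PT.vrs, List.mem_append, List.mem_append]
      · rintro ⟨h7, h8⟩
        exact hc.2.2 _ h7 _ h8 rfl
      · rintro ⟨h7, h8⟩
        exact hv.2.2 _ h7 _ h8 rfl
    · simp [hs, Xor]

theorem mem_cands {M : List Tok} : ∀ {c : ℕ} {Z : List Tok}, (∀ s ∈ Z, s ∈ M) → Z.length ≤ c →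
    Z ∈ cands M c := by
  intro c
  induction c with
  | zero =>
    intro Z _ h
    have : Z = [] := List.length_eq_zero_iff.1 (by omega)
    rw [this, cands]
    exact List.mem_singleton_self _
  | succ c ih =>
    intro Z hM h
    cases Z with
    | nil => rw [cands]; exact List.mem_cons_self
    | cons a Z =>
      rw [cands]
      refine List.mem_cons_of_mem _ (List.mem_flatMap.2 ⟨a, hM a List.mem_cons_self, ?_⟩)
      refine List.mem_map.2 ⟨Z, ih (fun s hs => hM s (List.mem_cons_of_mem _ hs)) ?_, rfl⟩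
      simpa using h

theorem acc_complete {c : ℕ} {p : List (Bool × ℕ)} {B : List (List (ℕ × Bool))} {t : PT}
    {Zt : Finset Tok} (h0 : ∀ s ∈ Zt, s.1 ∈ B ∧ s.2.2 ∈ t.cls ∧ s.2.1.1 ∈ t.vrs)
    (h1 : ∀ s ∈ Zt, s.2.1 ∈ s.2.2)
    (h2 : ∀ s ∈ Zt, ∀ s' ∈ Zt, s.2.1.1 = s'.2.1.1 → ¬ Conf p s.2.1.1 s.1 s'.1 →
      s.2.1.2 = s'.2.1.2)
    (h3 : ∀ C ∈ t.cls, ∀ β ∈ B, (∃ l ∈ β, l ∈ C) ∨ ∃ s ∈ Zt, s.1 = β ∧ s.2.2 = C)
    (hc : t.cls.Nodup) (hv : t.vrs.Nodup) (hAll : t.All (fun t' => (bd Zt t').card ≤ c)) :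
    acc c p t.post B = true := by
  unfold acc
  have hrun : (t.post).foldl stepP [] = [t] := by
    have := foldl_stepP_post t [] []
    rw [List.append_nil] at this
    rw [this]
    rfl
  rw [runT_eq, hrun, Bool.and_eq_true, decide_eq_true_iff, List.all_eq_true]
  refine ⟨rfl, ?_⟩
  intro tab htab
  rw [List.map_cons, List.map_nil, List.mem_singleton] at htab
  subst htab
  rw [decide_eq_true_iff]
  refine tab_complete (FT := fun C => C ∈ t.cls) h1 h2 h3 ?_ t hc hv (fun C hC => hC) hAll [] ?_ ?_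
  · intro Z hZ hZc
    refine ⟨Z.toList, mem_cands ?_ ?_, Finset.toList_toFinset Z⟩
    · intro s hs
      rw [Finset.mem_toList] at hs
      obtain ⟨h4, h5, h6⟩ := h0 s (hZ hs)
      unfold master
      rw [List.mem_flatMap]
      refine ⟨s.1, h4, List.mem_flatMap.2 ⟨s.2.2, ?_, List.mem_map.2 ⟨s.2.1, h1 s (hZ hs), rfl⟩⟩⟩
      rw [PT.clsI_post]
      exact h5
    · rw [Finset.length_toList]
      exact hZc
  · exact mem_cands (by simp) (by simp)
  · symm
    rw [List.toFinset_nil, Finset.eq_empty_iff_forall_notMem]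
    intro s hs
    rw [mem_bd] at hs
    obtain ⟨h4, h5, h6⟩ := h0 s hs.1
    rcases hs.2 with h | h
    · exact h.2 h6
    · exact h.2 h5

/-! ### Branch sets -/

theorem trees_paths {U : List ℕ} : ∀ {d : ℕ} {T : BT ℕ}, T.depth ≤ d → T.lab U.toFinset →
    T.paths ∈ trees U d := by
  intro d
  induction d with
  | zero =>
    intro T hT _
    cases T with
    | leaf => simp [trees, BT.paths]
    | node y l r => simp [BT.depth] at hT
  | succ d ih =>
    intro T hT hl
    cases T with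
    | leaf => simp [trees, BT.paths]
    | node y l r =>
      rw [BT.depth] at hT
      obtain ⟨h1, h2, h3⟩ := hl
      rw [trees]
      refine List.mem_cons_of_mem _ (List.mem_flatMap.2 ⟨y, List.mem_toFinset.1 h1,
        List.mem_flatMap.2 ⟨l.paths, ih (by omega) h2, List.mem_map.2 ⟨r.paths, ih (by omega) h3,
          rfl⟩⟩⟩)

theorem trees_sound {U : List ℕ} : ∀ {d : ℕ} {B : List (List (ℕ × Bool))}, B ∈ trees U d →
    ∃ T : BT ℕ, B = T.paths := by
  intro d
  induction d with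
  | zero =>
    intro B hB
    rw [trees, List.mem_singleton] at hB
    exact ⟨BT.leaf, hB⟩
  | succ d ih =>
    intro B hB
    rw [trees, List.mem_cons] at hB
    rcases hB with hB | hB
    · exact ⟨BT.leaf, hB⟩
    · rw [List.mem_flatMap] at hB
      obtain ⟨y, _, hB⟩ := hB
      rw [List.mem_flatMap] at hB
      obtain ⟨B0, hB0, hB⟩ := hB
      rw [List.mem_map] at hB
      obtain ⟨B1, hB1, rfl⟩ := hB
      obtain ⟨l, rfl⟩ := ih hB0
      obtain ⟨r, rfl⟩ := ih hB1
      exact ⟨BT.node y l r, rfl⟩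

theorem paths_length : ∀ (T : BT ℕ), T.paths.length ≤ 2 ^ T.depth
  | BT.leaf => by simp [BT.paths, BT.depth]
  | BT.node y l r => by
    have h1 := paths_length l
    have h2 := paths_length r
    rw [BT.paths, BT.depth, List.length_append, List.length_map, List.length_map, pow_succ]
    have h3 : 2 ^ l.depth ≤ 2 ^ max l.depth r.depth :=
      Nat.pow_le_pow_right (by norm_num) (le_max_left _ _)
    have h4 : 2 ^ r.depth ≤ 2 ^ max l.depth r.depth :=
      Nat.pow_le_pow_right (by norm_num) (le_max_right _ _)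
    omega

end Pool.Agent.R534.MF
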