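import Pool.Agent.R534.MF.Alg

/-!
# The algorithm runs in polynomial time
-/

set_option linter.unusedSectionVars false
set_option linter.unusedSimpArgs false

namespace Pool.Agent.R534.MF

open Pool.Agent.NPC Polynomial

theorem sz_sublist {α : Type} [TEnc α] {l l' : List α} (h : l.Sublist l') : sz l ≤ sz l' := by
  induction h with
  | slnil => exact le_rfl
  | cons a _ ih => rw [sz_list_cons]; omega
  | cons_cons a _ ih => rw [sz_list_cons, sz_list_cons]; omega

section

variable {α β : Type} [TEnc α] [TEnc β]

theorem poly_prs {G : α → List Cla} {W : α → List ℕ} (hG : Poly G) (hW : Poly W) :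
    Poly (fun a => prs (G a) (W a)) := by
  unfold prs
  fun_prop

attribute [fun_prop] poly_prs H442R3.MPar.poly_nuF

theorem poly_sat0 {G : α → List Cla} {W : α → List ℕ} (hG : Poly G) (hW : Poly W) :
    Poly (fun a => sat0 (G a) (W a)) := by
  unfold sat0
  fun_prop

theorem poly_fil {G : α → List Cla} {l : α → ℕ × Bool} (hG : Poly G) (hl : Poly l) :
    Poly (fun a => fil (G a) (l a)) := by
  unfold fil
  fun_prop

theorem poly_rmv {W : α → List ℕ} {v : α → ℕ} (hW : Poly W) (hv : Poly v) :
    Poly (fun a => rmv (W a) (v a)) := by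
  unfold rmv
  fun_prop

attribute [fun_prop] poly_sat0 poly_fil poly_rmv

end

theorem poly_satT (k : ℕ) : ∀ {α : Type} [TEnc α] {G : α → List Cla} {W : α → List ℕ},
    Poly G → Poly W → Poly (fun a => satT k (G a) (W a)) := by
  induction k with
  | zero => intro α _ G W hG hW; exact poly_sat0 hG hW
  | succ k ih =>
    intro α _ G W hG hW
    simp only [satT]
    refine NPC.Poly.or (ih hG hW) (NPC.Poly.any (l := W) (p := fun a v =>
      satT k (fil (G a) (v, true)) (rmv (W a) v) || satT k (fil (G a) (v, false)) (rmv (W a) v))
      hW ?_)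
    exact NPC.Poly.or (ih (by fun_prop) (by fun_prop)) (ih (by fun_prop) (by fun_prop))

attribute [fun_prop] poly_satT

section

variable {α β : Type} [TEnc α] [TEnc β]

theorem poly_core (k : ℕ) {G : α → List Cla} {W : α → List ℕ} (hG : Poly G) (hW : Poly W) :
    Poly (fun a => core k (G a) (W a)) := by
  unfold core
  obtain ⟨r, hr⟩ := hG.sz_le
  refine NPC.Poly.foldl (l := G) (s := G) (F := fun a K C =>
    if satT k (K.filter (fun D => !decide (D = C))) (W a) = true then K
    else K.filter (fun D => !decide (D = C))) hG hG ?_ r ?_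
  · fun_prop
  · intro a j _
    have key : ∀ (l K : List Cla), (l.foldl (fun K C =>
        if satT k (K.filter (fun D => !decide (D = C))) (W a) = true then K
        else K.filter (fun D => !decide (D = C))) K).Sublist K := by
      intro l
      induction l with
      | nil => intro K; exact List.Sublist.refl _
      | cons C l ih =>
        intro K
        rw [List.foldl_cons]
        refine (ih _).trans ?_
        split_ifs
        · exact List.Sublist.refl _
        · exact List.filter_sublist
    exact (sz_sublist (key _ _)).trans (hr a)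

theorem poly_ocL {W : α → List ℕ} {K : α → List Cla} (hW : Poly W) (hK : Poly K) :
    Poly (fun a => ocL (W a) (K a)) := by
  unfold ocL
  fun_prop

attribute [fun_prop] poly_core poly_ocL

theorem poly_jn : Poly (fun _ : α => jn) := NPC.Poly.const _
theorem poly_nl : Poly (fun _ : α => nl) := NPC.Poly.const _
theorem poly_lc {C : α → Cla} (hC : Poly C) : Poly (fun a => lc (C a)) := by
  unfold lc; fun_prop
theorem poly_lv {v : α → ℕ} (hv : Poly v) : Poly (fun a => lv (v a)) := by
  unfold lv; fun_prop

attribute [fun_prop] poly_jn poly_nl poly_lc poly_lv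

theorem poly_insC {i : α → Ins} (hi : Poly i) : Poly (fun a => insC (i a)) := by
  unfold insC
  fun_prop
theorem poly_insV {i : α → Ins} (hi : Poly i) : Poly (fun a => insV (i a)) := by
  unfold insV
  fun_prop

attribute [fun_prop] poly_insC poly_insV

theorem poly_clsI {l : α → List Ins} (hl : Poly l) : Poly (fun a => clsI (l a)) := by
  unfold clsI
  fun_prop
theorem poly_vrsI {l : α → List Ins} (hl : Poly l) : Poly (fun a => vrsI (l a)) := by
  unfold vrsI
  fun_prop

attribute [fun_prop] poly_clsI poly_vrsI

theorem poly_gd {L : α → List Clu} {w : α → ℕ} (hL : Poly L) (hw : Poly w) :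
    Poly (fun a => gd (L a) (w a)) := by
  unfold gd
  fun_prop

theorem poly_mrg {L : α → List Clu} {w : α → ℕ} (hL : Poly L) (hw : Poly w) :
    Poly (fun a => mrg (L a) (w a)) := by
  unfold mrg
  fun_prop

attribute [fun_prop] poly_gd poly_mrg

theorem poly_mstep {L : α → List Clu} {W : α → List ℕ} (hW : Poly W) (hL : Poly L) :
    Poly (fun a => mstep (W a) (L a)) := by
  unfold mstep
  fun_prop

theorem poly_minit {K : α → List Cla} {W : α → List ℕ} (hK : Poly K) (hW : Poly W) :
    Poly (fun a => minit (K a) (W a)) := by
  unfold minit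
  fun_prop

attribute [fun_prop] poly_mstep poly_minit

theorem sz_flat_fs (P : List Clu) :
    sz (P.flatMap (fun c => c.1)) + sz (P.flatMap (fun c => c.2)) ≤ sz P + 1 := by
  induction P with
  | nil => simp
  | cons c P ih =>
    have h1 := sz_append c.1 (P.flatMap (fun c => c.1))
    have h2 := sz_append c.2 (P.flatMap (fun c => c.2))
    have h3 : sz c = sz c.1 + sz c.2 + 1 := sz_pair c.1 c.2
    rw [List.flatMap_cons, List.flatMap_cons, sz_list_cons]
    omega

theorem sz_three (L : List Clu) (p q : Clu → Bool) (h : ∀ c ∈ L, ¬ (p c = true ∧ q c = true)) :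
    sz (L.filter p) + sz (L.filter q) + sz (L.filter (fun c => !(p c || q c))) ≤ sz L + 2 := by
  induction L with
  | nil => simp
  | cons c L ih =>
    have h1 := ih (fun d hd => h d (List.mem_cons_of_mem _ hd))
    have h2 := h c List.mem_cons_self
    rw [sz_list_cons]
    cases hp : p c <;> cases hq : q c
    · simp only [List.filter_cons, hp, hq, Bool.or_self, Bool.not_false, if_true, sz_list_cons,
        Bool.false_eq_true, if_false]
      omega
    · simp only [List.filter_cons, hp, hq, Bool.or_true, Bool.not_true, if_true, sz_list_cons,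
        Bool.false_eq_true, if_false]
      omega
    · simp only [List.filter_cons, hp, hq, Bool.or_false, Bool.not_true, if_true, sz_list_cons,
        Bool.false_eq_true, if_false]
      omega
    · exact absurd ⟨hp, hq⟩ h2

theorem sz_mrg (L : List Clu) (w : ℕ) (h : gd L w = true) : sz (mrg L w) ≤ sz L + sz w + 20 := by
  unfold gd at h
  rw [Bool.and_eq_true, Bool.and_eq_true, List.all_eq_true] at h
  obtain ⟨_, _, h⟩ := h
  unfold mrg
  rw [sz_list_cons, sz_pair]
  set P := L.filter (fun c => decide ((w, true) ∈ c.2)) with hP
  set N := L.filter (fun c => decide ((w, false) ∈ c.2)) with hN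
  have h1 := sz_append (P.flatMap (fun c => c.1)) (N.flatMap (fun c => c.1) ++ [jn, lv w, jn])
  have h2 := sz_append (N.flatMap (fun c => c.1)) [jn, lv w, jn]
  have h3 := sz_append (P.flatMap (fun c => c.2)) (N.flatMap (fun c => c.2))
  have h4 := sz_sublist (List.filter_sublist (l := P.flatMap (fun c => c.2) ++
    N.flatMap (fun c => c.2)) (p := fun l => !decide (l.1 = w)))
  have h5 := sz_flat_fs P
  have h6 := sz_flat_fs N
  have h7 := sz_three L (fun c => decide ((w, true) ∈ c.2)) (fun c => decide ((w, false) ∈ c.2))
    (by
      intro c hc h8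
      have := h c hc
      simp only [h8.1, h8.2, Bool.and_self, Bool.not_true, Bool.false_eq_true] at this)
  rw [← hP, ← hN] at h7
  have h8 : sz [jn, lv w, jn] = sz w + 14 := by
    unfold jn lv
    simp only [sz_list_cons, sz_none, sz_some, sz_inr, sz_list_nil]
    omega
  omega

theorem sz_mstep (W : List ℕ) (L : List Clu) : sz (mstep W L) ≤ sz L + (sz W + 20) := by
  unfold mstep
  cases h : (W.filter (fun w => gd L w)).head? with
  | none => simp
  | some w =>
    have h1 := List.mem_of_mem_head? h
    rw [List.mem_filter] at h1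
    have h2 := sz_mrg L w h1.2
    have h3 := sz_le_of_mem h1.1
    simp only [Option.elim]
    omega

theorem poly_mtree {K : α → List Cla} {W : α → List ℕ} (hK : Poly K) (hW : Poly W) :
    Poly (fun a => mtree (K a) (W a)) := by
  unfold mtree
  obtain ⟨r, hr⟩ := hW.sz_le
  obtain ⟨s, hs⟩ := (poly_minit hK hW).sz_le
  have h1 : Poly (fun a => (mstep (W a))^[(W a).length] (minit (K a) (W a))) := by
    refine NPC.Poly.iterLen (F := fun a => mstep (W a)) hW (poly_minit hK hW) (by fun_prop)
      (s + r * (r + 20)) ?_
    intro a j hj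
    have key : ∀ j, sz ((mstep (W a))^[j] (minit (K a) (W a))) ≤
        sz (minit (K a) (W a)) + j * (sz (W a) + 20) := by
      intro j
      induction j with
      | zero => simp
      | succ j ih =>
        rw [Function.iterate_succ_apply']
        have := sz_mstep (W a) ((mstep (W a))^[j] (minit (K a) (W a)))
        rw [Nat.succ_mul]
        omega
    refine (key j).trans ?_
    have h2 := hr a
    have h3 := hs a
    have h4 := length_lt_sz (W a)
    rw [eval_add, eval_mul, eval_add, eval_ofNat]
    have h5 : j * (sz (W a) + 20) ≤ eval (sz a) r * (eval (sz a) r + 20) :=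
      Nat.mul_le_mul (by omega) (by omega)
    omega
  fun_prop

attribute [fun_prop] poly_mtree

theorem poly_cr (k : ℕ) {K : α → List Cla} {W : α → List ℕ} {l : α → ℕ × Bool} (hK : Poly K)
    (hW : Poly W) (hl : Poly l) : Poly (fun a => cr k (K a) (W a) (l a)) := by
  unfold cr
  fun_prop

attribute [fun_prop] poly_cr

theorem poly_crW (k : ℕ) {K : α → List Cla} {W : α → List ℕ} {l : α → ℕ × Bool} (hK : Poly K)
    (hW : Poly W) (hl : Poly l) : Poly (fun a => crW k (K a) (W a) (l a)) := by
  unfold crW
  fun_prop

attribute [fun_prop] poly_crW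

theorem poly_gdv (k : ℕ) {K : α → List Cla} {W : α → List ℕ} {v : α → ℕ} (hK : Poly K)
    (hW : Poly W) (hv : Poly v) : Poly (fun a => gdv k (K a) (W a) (v a)) := by
  unfold gdv
  fun_prop

attribute [fun_prop] poly_gdv

end

theorem poly_items (k j : ℕ) : ∀ {α : Type} [TEnc α] {K : α → List Cla} {W : α → List ℕ},
    Poly K → Poly W → Poly (fun a => items k j (K a) (W a)) := by
  induction j with
  | zero =>
    intro α _ K W hK hW
    simp only [items]
    fun_prop
  | succ j ih =>
    intro α _ K W hK hW
    simp only [items]
    have h1 : Poly (fun q : α × ℕ => items k j (cr k (K q.1) (W q.1) (q.2, false))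
        (crW k (K q.1) (W q.1) (q.2, false))) := ih (by fun_prop) (by fun_prop)
    have h2 : Poly (fun q : α × ℕ => items k j (cr k (K q.1) (W q.1) (q.2, true))
        (crW k (K q.1) (W q.1) (q.2, true))) := ih (by fun_prop) (by fun_prop)
    refine NPC.Poly.ite (by fun_prop) (by fun_prop) (NPC.Poly.optElim (by fun_prop)
      (by fun_prop) ?_)
    exact NPC.Poly.cons (by fun_prop) (NPC.Poly.append h1 h2)

attribute [fun_prop] poly_items

theorem poly_layers (k i : ℕ) : ∀ {α : Type} [TEnc α] {G : α → List Cla} {W : α → List ℕ},
    Poly G → Poly W → Poly (fun a => layers k i (G a) (W a)) := by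
  induction i with
  | zero =>
    intro α _ G W hG hW
    simp only [layers]
    exact NPC.Poly.const _
  | succ i ih =>
    intro α _ G W hG hW
    simp only [layers]
    refine NPC.Poly.ite (by fun_prop) (by fun_prop) (NPC.Poly.append (by fun_prop)
      (ih (by fun_prop) (by fun_prop)))

attribute [fun_prop] poly_layers

section

variable {α β : Type} [TEnc α] [TEnc β]

theorem poly_fin {ts : α → List (List Ins)} (hts : Poly ts) : Poly (fun a => fin (ts a)) := by
  unfold fin
  obtain ⟨r, hr⟩ := hts.sz_le
  refine NPC.Poly.snd (NPC.Poly.foldr (F := fun _ (t : List Ins) (s : List Ins × List Ins) =>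
    (t ++ s.1, t.map (fun i => if (!decide (i = jn) && s.1.any (fun j => decide (j = i))) = true
      then nl else i) ++ (s.2 ++ [jn]))) hts (NPC.Poly.const _) (by fun_prop)
      (10 * r + 10) ?_)
  intro a k _
  have key1 : ∀ (s : List Ins) (t : List Ins),
      sz (t.map (fun i => if (!decide (i = jn) && s.any (fun j => decide (j = i))) = true
        then nl else i)) ≤ 4 * sz t := by
    intro s t
    induction t with
    | nil => simp
    | cons i t ih =>
      have h1 : sz (if (!decide (i = jn) && s.any (fun j => decide (j = i))) = true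
        then nl else i) ≤ sz i + 3 := by
        split_ifs
        · have : sz nl = 3 := by simp [nl]
          omega
        · omega
      have h2 := sz_pos i
      rw [List.map_cons, sz_list_cons, sz_list_cons]
      omega
  have key : ∀ l : List (List Ins), sz (l.foldr (fun (t : List Ins) (s : List Ins × List Ins) =>
      (t ++ s.1, t.map (fun i => if (!decide (i = jn) && s.1.any (fun j => decide (j = i))) = true
        then nl else i) ++ (s.2 ++ [jn]))) ([], [nl])) ≤ 10 * sz l := by
    intro l
    induction l with
    | nil => simp [nl]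
    | cons t l ih =>
      rw [List.foldr_cons]
      set s := l.foldr (fun (t : List Ins) (s : List Ins × List Ins) =>
        (t ++ s.1, t.map (fun i => if (!decide (i = jn) && s.1.any (fun j => decide (j = i))) = true
          then nl else i) ++ (s.2 ++ [jn]))) ([], [nl]) with hs
      have h0 : sz s = sz s.1 + sz s.2 + 1 := sz_pair s.1 s.2
      have h1 := sz_append t s.1
      have h2 := key1 s.1 t
      have h3 := sz_append (t.map (fun i => if (!decide (i = jn) &&
        s.1.any (fun j => decide (j = i))) = true then nl else i)) (s.2 ++ [jn])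
      have h4 := sz_append s.2 [jn]
      have h5 : sz [jn] = 3 := by simp [jn]
      have h6 := sz_pos t
      rw [sz_pair, sz_list_cons]
      omega
  refine (key _).trans ?_
  have h1 := NPC.Poly.sz_drop_le (ts a) k
  have h2 := hr a
  rw [eval_add, eval_mul, eval_ofNat]
  omega

attribute [fun_prop] poly_fin

theorem poly_master {B : α → List (List (ℕ × Bool))} {K : α → List Cla} (hB : Poly B)
    (hK : Poly K) : Poly (fun a => master (B a) (K a)) := by
  unfold master
  fun_prop

theorem poly_cands {M : α → List Tok} (hM : Poly M) (c : ℕ) : Poly (fun a => cands (M a) c) := by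
  induction c with
  | zero =>
    simp only [cands]
    exact NPC.Poly.const _
  | succ c ih =>
    simp only [cands]
    have h1 : Poly (fun q : α × Tok => cands (M q.1) c) := ih.comp (NPC.Poly.fst NPC.Poly.id)
    refine NPC.Poly.cons (by fun_prop) (NPC.Poly.flatMap (l := M)
      (F := fun a t => (cands (M a) c).map (fun Z => t :: Z)) hM ?_)
    fun_prop

attribute [fun_prop] poly_master poly_cands

theorem poly_befB {p : α → List (Bool × ℕ)} {y e : α → ℕ} (hp : Poly p) (hy : Poly y)
    (he : Poly e) : Poly (fun a => befB (p a) (y a) (e a)) := by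
  unfold befB
  refine NPC.Poly.foldr (l := p) (s := fun _ => false) (F := fun a (b : Bool × ℕ) (r : Bool) =>
    !decide (b.2 = e a) && (decide (b.2 = y a) || r)) hp (NPC.Poly.const _) (by fun_prop) 3 ?_
  intro a k _
  rw [eval_ofNat]
  exact sz_bool_le _

attribute [fun_prop] poly_befB

theorem poly_confB {p : α → List (Bool × ℕ)} {e : α → ℕ} {β β' : α → List (ℕ × Bool)}
    (hp : Poly p) (he : Poly e) (hβ : Poly β) (hβ' : Poly β') :
    Poly (fun a => confB (p a) (e a) (β a) (β' a)) := by
  unfold confB
  fun_prop

attribute [fun_prop] poly_confB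

theorem poly_leafC {B : α → List (List (ℕ × Bool))} {CD : α → List (List Tok)} {C : α → Cla}
    (hB : Poly B) (hCD : Poly CD) (hC : Poly C) : Poly (fun a => leafC (B a) (CD a) (C a)) := by
  unfold leafC
  fun_prop

theorem poly_leafV {p : α → List (Bool × ℕ)} {CD : α → List (List Tok)} {e : α → ℕ}
    (hp : Poly p) (hCD : Poly CD) (he : Poly e) : Poly (fun a => leafV (p a) (CD a) (e a)) := by
  unfold leafV
  fun_prop

theorem poly_sd {X Y Z : α → List Tok} (hX : Poly X) (hY : Poly Y) (hZ : Poly Z) :
    Poly (fun a => sd (X a) (Y a) (Z a)) := by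
  unfold sd
  fun_prop

attribute [fun_prop] poly_leafC poly_leafV poly_sd

theorem poly_joinT {CD X Y : α → List (List Tok)} (hCD : Poly CD) (hX : Poly X) (hY : Poly Y) :
    Poly (fun a => joinT (CD a) (X a) (Y a)) := by
  unfold joinT
  fun_prop

attribute [fun_prop] poly_joinT

theorem poly_leafT {B : α → List (List (ℕ × Bool))} {p : α → List (Bool × ℕ)}
    {CD : α → List (List Tok)} {o : α → Option (Cla ⊕ ℕ)} (hB : Poly B) (hp : Poly p)
    (hCD : Poly CD) (ho : Poly o) : Poly (fun a => leafT (B a) (p a) (CD a) (o a)) := by
  unfold leafT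
  fun_prop

attribute [fun_prop] poly_leafT

theorem poly_stepT {B : α → List (List (ℕ × Bool))} {p : α → List (Bool × ℕ)}
    {CD : α → List (List Tok)} {st : α → List (List (List Tok))} {i : α → Ins} (hB : Poly B)
    (hp : Poly p) (hCD : Poly CD) (hst : Poly st) (hi : Poly i) :
    Poly (fun a => stepT (B a) (p a) (CD a) (st a) (i a)) := by
  unfold stepT
  refine NPC.Poly.optElim hi ?_ (by fun_prop)
  refine (NPC.Poly.listCases (l := st) (g := fun _ => ([] : List (List (List Tok))))
    (h := fun a b st' => match st' with
      | [] => [b]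
      | x :: st'' => joinT (CD a) x b :: st'') hst (NPC.Poly.const _) ?_).congr ?_
  · refine (NPC.Poly.listCases
      (l := fun q : α × List (List Tok) × List (List (List Tok)) => q.2.2)
      (g := fun q => [q.2.1]) (h := fun q x st'' => joinT (CD q.1) x q.2.1 :: st'')
      (by fun_prop) (by fun_prop) (by fun_prop)).congr ?_
    rintro ⟨a, b, st'⟩
    cases st' <;> rfl
  · intro a
    rcases st a with _ | ⟨b, _ | ⟨x, st''⟩⟩ <;> rfl

attribute [fun_prop] poly_stepT

theorem poly_runT {B : α → List (List (ℕ × Bool))} {p : α → List (Bool × ℕ)}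
    {CD : α → List (List Tok)} {l : α → List Ins} (hB : Poly B) (hp : Poly p) (hCD : Poly CD)
    (hl : Poly l) : Poly (fun a => runT (B a) (p a) (CD a) (l a)) := by
  unfold runT
  obtain ⟨r, hr⟩ := hCD.sz_le
  obtain ⟨s, hs⟩ := hl.sz_le
  refine NPC.Poly.foldl (l := l) (s := fun _ => []) (F := fun a st i =>
    stepT (B a) (p a) (CD a) st i) hl (NPC.Poly.const _) (by fun_prop)
    (s * (r + 10) + 1) ?_
  intro a k hk
  have hleaf : ∀ o, sz (leafT (B a) (p a) (CD a) o) ≤ sz (CD a) + 3 := by
    intro o
    unfold leafT
    rcases o with _ | C | v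
    · simp only [Option.elim, sz_list_cons, sz_list_nil]
      omega
    · simp only [Option.elim, Sum.elim_inl]
      exact (sz_sublist List.filter_sublist).trans (by omega)
    · simp only [Option.elim, Sum.elim_inr]
      exact (sz_sublist List.filter_sublist).trans (by omega)
  have key : ∀ (m : List Ins) (st : List (List (List Tok))),
      sz (m.foldl (fun st i => stepT (B a) (p a) (CD a) st i) st) ≤
        sz st + m.length * (sz (CD a) + 10) := by
    intro m
    induction m with
    | nil => intro st; simp
    | cons i m ih =>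
      intro st
      rw [List.foldl_cons]
      refine (ih _).trans ?_
      have h1 : sz (stepT (B a) (p a) (CD a) st i) ≤ sz st + (sz (CD a) + 10) := by
        unfold stepT
        cases i with
        | none =>
          simp only [Option.elim]
          rcases st with _ | ⟨b, _ | ⟨x, st''⟩⟩
          · simp
          · simp
          · simp only [sz_list_cons]
            have : sz (joinT (CD a) x b) ≤ sz (CD a) := sz_sublist List.filter_sublist
            omega
        | some o =>
          simp only [Option.elim, sz_list_cons]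
          have := hleaf o
          omega
      rw [List.length_cons, Nat.succ_mul]
      omega
  refine (key _ _).trans ?_
  have h1 := hr a
  have h2 := hs a
  have h3 := length_lt_sz (l a)
  rw [sz_list_nil, eval_add, eval_mul, eval_add, eval_ofNat, eval_one]
  have h4 : ((l a).take k).length ≤ eval (sz a) s := by
    rw [List.length_take]
    omega
  have h5 : ((l a).take k).length * (sz (CD a) + 10) ≤ eval (sz a) s * (eval (sz a) r + 10) :=
    Nat.mul_le_mul h4 (by omega)
  omega

attribute [fun_prop] poly_runT

theorem poly_acc (c : ℕ) {p : α → List (Bool × ℕ)} {l : α → List Ins}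
    {B : α → List (List (ℕ × Bool))} (hp : Poly p) (hl : Poly l) (hB : Poly B) :
    Poly (fun a => acc c (p a) (l a) (B a)) := by
  unfold acc
  fun_prop

attribute [fun_prop] poly_acc

theorem poly_trees {U : α → List ℕ} (hU : Poly U) (d : ℕ) : Poly (fun a => trees (U a) d) := by
  induction d with
  | zero =>
    simp only [trees]
    exact NPC.Poly.const _
  | succ d ih =>
    simp only [trees]
    refine NPC.Poly.cons (by fun_prop) (NPC.Poly.flatMap (l := U)
      (F := fun a y => (trees (U a) d).flatMap (fun B₀ => (trees (U a) d).map (fun B₁ =>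
        B₀.map (fun β => (y, false) :: β) ++ B₁.map (fun β => (y, true) :: β)))) hU ?_)
    have h1 : Poly (fun q : α × ℕ => trees (U q.1) d) := ih.comp (NPC.Poly.fst NPC.Poly.id)
    refine NPC.Poly.flatMap (l := fun q : α × ℕ => trees (U q.1) d)
      (F := fun q B₀ => (trees (U q.1) d).map (fun B₁ =>
        B₀.map (fun β => (q.2, false) :: β) ++ B₁.map (fun β => (q.2, true) :: β))) h1 ?_
    refine NPC.Poly.map (l := fun q : (α × ℕ) × List (List (ℕ × Bool)) => trees (U q.1.1) d)
      (F := fun q B₁ => q.2.map (fun β => (q.1.2, false) :: β) ++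
        B₁.map (fun β => (q.1.2, true) :: β)) (h1.comp (NPC.Poly.fst NPC.Poly.id)) ?_
    fun_prop

attribute [fun_prop] poly_trees

theorem poly_exL {p : α → List (Bool × ℕ)} (hp : Poly p) : Poly (fun a => exL (p a)) := by
  unfold exL
  fun_prop

theorem poly_unL {p : α → List (Bool × ℕ)} (hp : Poly p) : Poly (fun a => unL (p a)) := by
  unfold unL
  fun_prop

theorem poly_ndp [DecidableEq β] {l : α → List β} (hl : Poly l) : Poly (fun a => ndp (l a)) := by
  unfold ndp
  fun_prop

attribute [fun_prop] poly_exL poly_unL poly_ndp

theorem poly_tst (k c : ℕ) {p : α → List (Bool × ℕ)} {F : α → List Cla} {l : α → List Ins}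
    (hp : Poly p) (hF : Poly F) (hl : Poly l) : Poly (fun a => tst k c (p a) (F a) (l a)) := by
  unfold tst
  fun_prop

attribute [fun_prop] poly_tst

theorem poly_truthT (k c : ℕ) {p : α → List (Bool × ℕ)} {F : α → List Cla} (hp : Poly p)
    (hF : Poly F) : Poly (fun a => truthT k c (p a) (F a)) := by
  unfold truthT
  fun_prop

attribute [fun_prop] poly_truthT

end

end Pool.Agent.R534.MF
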