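import Pool.Agent.R534.MF.Truth
import Pool.Agent.R534.MF.Poly

/-!
# Recognising minimal false formulas of fixed deficiency
-/

set_option linter.unusedSectionVars false

namespace Pool.Agent.R534.MF

open Finset Pool.Agent.NPC

/-! ### Bounded deficiency test -/

/-- after removing at most `k` clauses the remaining clauses can be matched -/
def dbT : ℕ → List Cla → List ℕ → Bool
  | 0, G, W => sat0 G W
  | k + 1, G, W => dbT k G W || G.any (fun C => dbT k (G.filter (fun D => !decide (D = C))) W)

theorem poly_dbT (k : ℕ) : ∀ {α : Type} [TEnc α] {G : α → List Cla} {W : α → List ℕ},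
    Poly G → Poly W → Poly (fun a => dbT k (G a) (W a)) := by
  induction k with
  | zero => intro α _ G W hG hW; exact poly_sat0 hG hW
  | succ k ih =>
    intro α _ G W hG hW
    simp only [dbT]
    exact NPC.Poly.or (ih hG hW) (NPC.Poly.any (l := G) (p := fun a C =>
      dbT k ((G a).filter (fun D => !decide (D = C))) (W a)) hG (ih (by fun_prop) (by fun_prop)))

attribute [fun_prop] poly_dbT

theorem dbT_sound : ∀ (k : ℕ) (G : List Cla) (W : List ℕ), G.Nodup → dbT k G W = true →
    DB cl0 W.toFinset G.toFinset k := by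
  intro k
  induction k with
  | zero =>
    intro G W hG h R hR
    rw [dbT, sat0_iff hG] at h
    exact h R hR
  | succ k ih =>
    intro G W hG h
    rw [dbT, Bool.or_eq_true, List.any_eq_true] at h
    rcases h with h | ⟨C, hC, h⟩
    · exact (ih G W hG h).le (Nat.le_succ k)
    · have h1 := ih _ _ (hG.filter _) h
      rw [filter_ne_toFinset] at h1
      intro R hR
      have h2 := h1 (R.erase C) (erase_subset_erase _ hR)
      have h3 : (R.card - 1) ≤ (R.erase C).card := pred_card_le_card_erase
      have h4 := card_le_card (oc_mono (cl := cl0) (W := W.toFinset) (erase_subset C R))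
      omega

theorem dbT_complete_aux : ∀ (k : ℕ) (G : List Cla) (W : List ℕ), G.Nodup →
    ∀ U ⊆ G.toFinset, U.card ≤ k →
    (∀ R ⊆ G.toFinset \ U, R.card ≤ (oc cl0 W.toFinset R).card) → dbT k G W = true := by
  intro k
  induction k with
  | zero =>
    intro G W hG U _ hUc h
    have hU : U = ∅ := by rw [← Finset.card_eq_zero]; omega
    subst hU
    rw [sdiff_empty] at h
    rw [dbT, sat0_iff hG]
    exact h
  | succ k ih =>
    intro G W hG U hU hUc h
    rw [dbT, Bool.or_eq_true]
    by_cases hUk : U.card ≤ k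
    · exact Or.inl (ih G W hG U hU hUk h)
    · right
      obtain ⟨C, hC⟩ : U.Nonempty := by rw [← Finset.card_pos]; omega
      rw [List.any_eq_true]
      refine ⟨C, List.mem_toFinset.1 (hU hC), ?_⟩
      refine ih _ _ (hG.filter _) (U.erase C) ?_ ?_ ?_
      · rw [filter_ne_toFinset]
        exact erase_subset_erase _ hU
      · rw [card_erase_of_mem hC]
        omega
      · rw [filter_ne_toFinset]
        intro R hR
        refine h R (hR.trans ?_)
        intro D hD
        rw [mem_sdiff, mem_erase, mem_erase] at hD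
        rw [mem_sdiff]
        exact ⟨hD.1.2, fun hDU => hD.2 ⟨hD.1.1, hDU⟩⟩

theorem dbT_iff {k : ℕ} {G : List Cla} {W : List ℕ} (hG : G.Nodup) :
    dbT k G W = true ↔ DB cl0 W.toFinset G.toFinset k := by
  constructor
  · exact dbT_sound k G W hG
  · intro h
    classical
    obtain ⟨E, hE, ⟨μ, hμ, hμ'⟩, hc⟩ := mt_of_db h
    have hsub : E.image μ ⊆ G.toFinset := by
      intro C hC
      rw [mem_image] at hC
      obtain ⟨e, he, rfl⟩ := hC
      exact (hμ' e he).1
    refine dbT_complete_aux k G W hG (G.toFinset \ E.image μ) sdiff_subset ?_ ?_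
    · rw [card_sdiff_of_subset hsub, card_image_of_injOn hμ]
      omega
    · intro R hR
      have hRμ : R ⊆ (E.filter (fun e => μ e ∈ R)).image μ := by
        intro C hC
        have h1 := hR hC
        rw [mem_sdiff, mem_sdiff] at h1
        have h2 : C ∈ E.image μ := by
          by_contra hno
          exact h1.2 ⟨h1.1, hno⟩
        rw [mem_image] at h2
        obtain ⟨e, he, rfl⟩ := h2
        exact mem_image.2 ⟨e, mem_filter.2 ⟨he, hC⟩, rfl⟩
      refine (card_le_card hRμ).trans (card_image_le.trans (card_le_card ?_))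
      intro e he
      rw [mem_filter] at he
      rw [mem_oc]
      exact ⟨hE he.1, μ e, he.2, (hμ' e he.1).2⟩

/-! ### Well-formedness tests -/

/-- no two clauses are equal as sets -/
def sdp (F : List Cla) : Bool :=
  F.all (fun C => decide ((F.filter (fun D => C.all (fun l => decide (l ∈ D)) &&
    D.all (fun l => decide (l ∈ C)))).length = 1))

theorem sdp_iff (F : List Cla) : sdp F = true ↔ (F.map List.toFinset).Nodup := by
  have key : ∀ C : Cla, (F.filter (fun D => C.all (fun l => decide (l ∈ D)) &&
      D.all (fun l => decide (l ∈ C)))).length = (F.map List.toFinset).count C.toFinset := by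
    intro C
    rw [List.count_eq_length_filter, List.filter_map, List.length_map]
    congr 1
    apply List.filter_congr
    intro D _
    rw [Bool.eq_iff_iff, Bool.and_eq_true, List.all_eq_true, List.all_eq_true]
    simp only [decide_eq_true_eq, Function.comp_apply, beq_iff_eq]
    constructor
    · rintro ⟨h1, h2⟩
      ext l
      rw [List.mem_toFinset, List.mem_toFinset]
      exact ⟨h2 l, h1 l⟩
    · intro h
      constructor
      · intro l hl
        rw [← List.mem_toFinset, h, List.mem_toFinset]
        exact hl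
      · intro l hl
        rw [← List.mem_toFinset, ← h, List.mem_toFinset]
        exact hl
  unfold sdp
  rw [List.all_eq_true, List.nodup_iff_count_eq_one]
  constructor
  · intro h a ha
    rw [List.mem_map] at ha
    obtain ⟨C, hC, rfl⟩ := ha
    rw [← key]
    have := h C hC
    rwa [decide_eq_true_iff] at this
  · intro h C hC
    rw [decide_eq_true_iff, key]
    exact h _ (List.mem_map.2 ⟨C, hC, rfl⟩)

/-- well-formed formulas -/
def wfT (p : List (Bool × ℕ)) (F : List Cla) : Bool :=
  ndp (p.map (fun a => a.2)) &&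
    (F.all (fun C => C.all (fun l => decide (l.1 ∈ p.map (fun a => a.2)))) && sdp F)

/-- all the variables of the given list occur -/
def allT (V : List ℕ) (F : List Cla) : Bool :=
  V.all (fun x => F.any (fun C => C.any (fun l => decide (l.1 = x))))

/-- the test for minimal falsity with deficiency `k` -/
def mfT (k : ℕ) (p : List (Bool × ℕ)) (F : List Cla) : Bool :=
  wfT p F && (decide (F.length = (ocL (exL p) F).length + k) && (dbT k F (exL p) &&
    (!truthT k (cc k) p F &&
      F.all (fun C => truthT k (cc k) p (F.filter (fun D => !decide (D = C)))))))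

section

variable {α : Type} [TEnc α]

theorem poly_sdp {F : α → List Cla} (hF : Poly F) : Poly (fun a => sdp (F a)) := by
  unfold sdp
  fun_prop

attribute [fun_prop] poly_sdp

theorem poly_wfT {p : α → List (Bool × ℕ)} {F : α → List Cla} (hp : Poly p) (hF : Poly F) :
    Poly (fun a => wfT (p a) (F a)) := by
  unfold wfT
  fun_prop

theorem poly_allT {V : α → List ℕ} {F : α → List Cla} (hV : Poly V) (hF : Poly F) :
    Poly (fun a => allT (V a) (F a)) := by
  unfold allT
  fun_prop

attribute [fun_prop] poly_wfT poly_allT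

theorem poly_mfT (k : ℕ) {p : α → List (Bool × ℕ)} {F : α → List Cla} (hp : Poly p)
    (hF : Poly F) : Poly (fun a => mfT k (p a) (F a)) := by
  unfold mfT
  fun_prop

attribute [fun_prop] poly_mfT

end

theorem wfT_iff (p : List (Bool × ℕ)) (F : List Cla) : wfT p F = true ↔
    (p.map Prod.snd).Nodup ∧ (∀ C ∈ F, ∀ l ∈ C, l.1 ∈ p.map Prod.snd) ∧
      (F.map List.toFinset).Nodup := by
  unfold wfT
  rw [Bool.and_eq_true, Bool.and_eq_true, ndp_iff, sdp_iff, List.all_eq_true]
  simp only [List.all_eq_true, decide_eq_true_eq]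

theorem allT_iff (V : List ℕ) (F : List Cla) : allT V F = true ↔
    ∀ x ∈ V, ∃ C ∈ F, ∃ b, (x, b) ∈ C := by
  unfold allT
  simp only [List.all_eq_true, List.any_eq_true, decide_eq_true_eq]
  constructor
  · intro h x hx
    obtain ⟨C, hC, ⟨y, b⟩, hl, rfl⟩ := h x hx
    exact ⟨C, hC, b, hl⟩
  · intro h x hx
    obtain ⟨C, hC, b, hl⟩ := h x hx
    exact ⟨C, hC, (x, b), hl, rfl⟩

/-- Proper subformulas of minimal false formulas have smaller deficiency. -/
theorem QT.strict {p : List (Bool × ℕ)} (hn : (p.map Prod.snd).Nodup) {S G : Finset Cla}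
    (h1 : ¬ QT cl0 p S) (h2 : ∀ C ∈ S, QT cl0 p (S.erase C)) (hG : G ⊂ S) :
    G.card + (oc cl0 (exV p) S).card < S.card + (oc cl0 (exV p) G).card := by
  refine strict_of (QT cl0 p) (fun _ _ h h' => QT.mono h h') ?_ h1 h2 hG
  rintro G R hG ⟨σ, hσ⟩
  refine QT.ext hn (X := exV p \ oc cl0 (exV p) G) sdiff_subset ?_ hσ hG
  intro C hC x hx b hb
  rw [mem_sdiff] at hx
  exact hx.2 (mem_oc.2 ⟨hx.1, C, hC, b, hb⟩)

theorem mfT_iff (k : ℕ) (p : List (Bool × ℕ)) (F : List Cla) : mfT k p F = true ↔
    ((p.map Prod.snd).Nodup ∧ (∀ C ∈ F, ∀ l ∈ C, l.1 ∈ p.map Prod.snd) ∧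
      (F.map List.toFinset).Nodup) ∧ (¬ QT cl0 p F.toFinset ∧
      ∀ C ∈ F, QT cl0 p (F.toFinset.erase C)) ∧
      F.length = (oc cl0 (exV p) F.toFinset).card + k := by
  unfold mfT
  rw [Bool.and_eq_true, Bool.and_eq_true, Bool.and_eq_true, Bool.and_eq_true, wfT_iff,
    decide_eq_true_iff, List.all_eq_true, Bool.not_eq_true']
  refine and_congr_right (fun hwf => ?_)
  obtain ⟨hn, hv, hs⟩ := hwf
  have hF : F.Nodup := hs.of_map _
  have hW : (exL p).Nodup := exL_nodup hn
  have hlen : (ocL (exL p) F).length = (oc cl0 (exV p) F.toFinset).card := by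
    rw [← exL_toFinset, ← ocL_toFinset, List.toFinset_card_of_nodup (ocL_nodup hW _)]
  rw [hlen, dbT_iff hF, exL_toFinset]
  have hT : ∀ G : List Cla, G.Sublist F → DB cl0 (exV p) F.toFinset k →
      (truthT k (cc k) p G = true ↔ QT cl0 p G.toFinset) := by
    intro G hG hd
    refine truthT_iff hn (hG.nodup hF) (fun C hC => hv C (hG.subset hC)) (hd.mono ?_)
    intro C hC
    rw [List.mem_toFinset] at hC ⊢
    exact hG.subset hC
  constructor
  · rintro ⟨h1, h2, h3, h4⟩
    refine ⟨⟨?_, ?_⟩, h1⟩
    · intro h5
      rw [(hT F (List.Sublist.refl _) h2).2 h5] at h3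
      simp at h3
    · intro C hC
      have := (hT _ List.filter_sublist h2).1 (h4 C hC)
      rwa [filter_ne_toFinset] at this
  · rintro ⟨⟨h1, h2⟩, h3⟩
    have hd : DB cl0 (exV p) F.toFinset k := by
      intro R hR
      have hc : F.toFinset.card = F.length := List.toFinset_card_of_nodup hF
      by_cases hRF : R = F.toFinset
      · rw [hRF]
        omega
      · have := QT.strict hn h1 (fun C hC => h2 C (List.mem_toFinset.1 hC))
          (hR.ssubset_of_ne hRF)
        omega
    refine ⟨h3, hd, ?_, ?_⟩
    · by_contra hno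
      rw [Bool.not_eq_false] at hno
      exact h1 ((hT F (List.Sublist.refl _) hd).1 hno)
    · intro C hC
      rw [hT _ List.filter_sublist hd, filter_ne_toFinset]
      exact h2 C hC

end Pool.Agent.R534.MF
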