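import Pool.Agent.R534.MF.Merge

/-!
# Decompositions of families of bounded deficiency
-/

set_option linter.unusedSectionVars false

namespace Pool.Agent.R534.MF

open Finset

/-- bound for the crossing numbers -/
def cst (k : ℕ) : ℕ → ℕ → ℕ
  | 0, x => 4 * x + 3
  | j + 1, x => 4 * x + 3 + cst k j (2 * x + k)

/-- bound for the number of the trees -/
def num : ℕ → ℕ
  | 0 => 1
  | j + 1 => 1 + 2 * num j

theorem cst_mono (k : ℕ) : ∀ {j x y : ℕ}, x ≤ y → cst k j x ≤ cst k j y := by
  intro j
  induction j with
  | zero => intro x y h; simp only [cst]; omega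
  | succ j ih =>
    intro x y h
    simp only [cst]
    have := ih (x := 2 * x + k) (y := 2 * y + k) (by omega)
    omega

theorem cst_ge (k j x : ℕ) : 4 * x + 3 ≤ cst k j x := by
  cases j <;> simp only [cst] <;> omega

theorem num_pos (j : ℕ) : 1 ≤ num j := by
  cases j <;> simp only [num] <;> omega

/-- the excess of a kernel -/
theorem exc_child {M : ℕ → Cla} {E W : Finset ℕ} {F K Kb : Finset Cla} (hM : Mch M E F)
    (hW : W ⊆ E) {v δ : ℕ} (hv : v ∈ W) (hK : Kb ⊆ K) (hc : K.card ≤ W.card + δ)
    (hb : (oc cl0 (W.erase v) Kb).card + 1 ≤ Kb.card) :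
    exc M (oc cl0 (W.erase v) Kb) Kb ≤ 2 * exc M W K + δ := by
  classical
  set Wb := oc cl0 (W.erase v) Kb with hWb
  have hWbW : Wb ⊆ W := oc_subset.trans (erase_subset _ _)
  have hvb : v ∉ Wb := by
    intro h
    have := oc_subset h
    simp at this
  set Y1 := Wb.filter (fun e => M e ∈ K \ Kb) with hY1
  set Y2 := ((W \ Wb).erase v).filter (fun e => M e ∈ K) with hY2
  have h1 : Wb.filter (fun e => M e ∉ Kb) ⊆ W.filter (fun e => M e ∉ K) ∪ Y1 := by
    intro e he
    rw [mem_filter] at he
    rw [mem_union, hY1, mem_filter, mem_filter, mem_sdiff]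
    by_cases h : M e ∈ K
    · exact Or.inr ⟨he.1, h, he.2⟩
    · exact Or.inl ⟨hWbW he.1, h⟩
  have h2 : (Y1 ∪ Y2).card ≤ (K \ Kb).card := by
    have hsub : Y1 ∪ Y2 ⊆ E := by
      intro e he
      simp only [mem_union, hY1, hY2, mem_filter, mem_erase, mem_sdiff] at he
      rcases he with he | he
      · exact hW (hWbW he.1)
      · exact hW he.1.2.1
    rw [← card_image_of_injOn (s := Y1 ∪ Y2) (f := M) (fun x hx y hy => hM.inj (hsub hx) (hsub hy))]
    apply card_le_card
    intro C hC
    rw [mem_image] at hC
    obtain ⟨e, he, rfl⟩ := hC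
    have heE := hsub he
    simp only [mem_union, hY1, hY2, mem_filter, mem_erase, mem_sdiff] at he
    rw [mem_sdiff]
    rcases he with he | he
    · exact he.2
    · refine ⟨he.2, fun hKb => he.1.2.2 ?_⟩
      obtain ⟨b, hb⟩ := hM.occ e heE
      rw [hWb, mem_oc]
      refine ⟨mem_erase.2 ⟨he.1.1, he.1.2.1⟩, M e, hKb, b, ?_⟩
      simpa [cl0] using hb
  have h3 : (Y1 ∪ Y2).card = Y1.card + Y2.card := by
    apply card_union_of_disjoint
    rw [Finset.disjoint_left]
    intro e he he'
    rw [hY1, mem_filter] at he
    rw [hY2, mem_filter, mem_erase, mem_sdiff] at he'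
    exact he'.1.2.2 he.1
  have h4 : ((W \ Wb).erase v).card ≤ Y2.card + (W.filter (fun e => M e ∉ K)).card := by
    have h5 : (W \ Wb).erase v ⊆ Y2 ∪ W.filter (fun e => M e ∉ K) := by
      intro e he
      rw [mem_union, hY2, mem_filter, mem_filter]
      by_cases h : M e ∈ K
      · exact Or.inl ⟨he, h⟩
      · refine Or.inr ⟨?_, h⟩
        rw [mem_erase, mem_sdiff] at he
        exact he.2.1
    exact (card_le_card h5).trans (card_union_le _ _)
  have h5 : ((W \ Wb).erase v).card = W.card - Wb.card - 1 := by
    rw [card_erase_of_mem (mem_sdiff.2 ⟨hv, hvb⟩), card_sdiff_of_subset hWbW]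
  have h6 : (K \ Kb).card = K.card - Kb.card := card_sdiff_of_subset hK
  have h7 := card_le_card hWbW
  have h8 := card_le_card hK
  have h9 := (card_le_card h1).trans (card_union_le _ _)
  have h10 : Wb.card < W.card := card_lt_card (by
    rw [Finset.ssubset_iff_subset_ne]
    refine ⟨hWbW, ?_⟩
    intro h
    rw [h] at hvb
    exact hvb hv)
  unfold exc
  omega

/-- a decomposition of the family `K` with the variables `W` -/
def Dcp (K : Finset Cla) (W : Finset ℕ) (N : ℕ) (f : ℕ → ℕ) (L : List (List Ins)) : Prop :=
  ∃ ts : List PT, L = ts.map PT.post ∧ ts.length ≤ N ∧ (∀ C, (∃ t ∈ ts, C ∈ t.cls) ↔ C ∈ K) ∧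
    (∀ v, (∃ t ∈ ts, v ∈ t.vrs) ↔ v ∈ W) ∧ (∀ t ∈ ts, t.cls.Nodup ∧ t.vrs.Nodup) ∧
    ∀ t ∈ ts, t.All (fun t' => ∀ M E F, Mch M E F → W ⊆ E →
      chi M E (fun C => C ∈ t'.cls) (fun e => e ∈ t'.vrs) ≤ f (exc M W K))

theorem Dcp.of_tree {K : List Cla} {W : List ℕ} {N : ℕ} {f : ℕ → ℕ} (hN : 1 ≤ N)
    (hf : ∀ x, 4 * x + 3 ≤ f x) (hK : K.Nodup) (hW : W.Nodup)
    (h : MU cl0 W.toFinset K.toFinset) (ho : oc cl0 W.toFinset K.toFinset = W.toFinset)
    (hc : K.length = W.length + 1) : Dcp K.toFinset W.toFinset N f [mtree K W] := by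
  obtain ⟨t, ht, h1, h2, h3, h4, h5⟩ := mtree_spec hK hW h ho hc
  refine ⟨[t], by rw [ht]; rfl, hN, ?_, ?_, ?_, ?_⟩
  · intro C
    simp [h3]
  · intro v
    simp [h4]
  · intro t' ht'
    rw [List.mem_singleton] at ht'
    subst ht'
    exact ⟨h1, h2⟩
  · intro t' ht'
    rw [List.mem_singleton] at ht'
    subst ht'
    refine PT.All.mono ?_ h5
    intro s hs M E F hM hWE
    exact (hs M E F hM hWE).trans (hf _)

theorem cr_db {k : ℕ} {K : List Cla} {W : List ℕ} (h : MU cl0 W.toFinset K.toFinset)
    (ho : oc cl0 W.toFinset K.toFinset = W.toFinset)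
    (hc : K.toFinset.card ≤ W.toFinset.card + k) {v : ℕ} (hv : v ∈ W) (b : Bool) :
    DB cl0 (rmv W v).toFinset (fil K (v, b)).toFinset k := by
  rw [fil_toFinset, rmv_toFinset]
  intro R hR
  have hv' : v ∈ oc cl0 W.toFinset K.toFinset := by
    rw [ho]; exact List.mem_toFinset.2 hv
  have hss : R ⊂ K.toFinset := by
    obtain ⟨C, hC, hC'⟩ := h.signs hv' b
    rw [Finset.ssubset_iff_subset_ne]
    refine ⟨hR.trans (filter_subset _ _), ?_⟩
    rintro rfl
    have := hR hC
    rw [mem_filter] at this
    exact this.2 hC'
  have h1 := h.strict hss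
  rw [ho] at h1
  rw [oc_erase]
  have h2 : (oc cl0 W.toFinset R).card - 1 ≤ ((oc cl0 W.toFinset R).erase v).card :=
    pred_card_le_card_erase
  omega

theorem cr_sub (k : ℕ) (K : List Cla) (W : List ℕ) (l : ℕ × Bool) :
    (cr k K W l).Sublist (fil K l) := core_sublist _ _ _

theorem cr_ker {k : ℕ} {K : List Cla} {W : List ℕ} (hK : K.Nodup)
    (h : MU cl0 W.toFinset K.toFinset) (ho : oc cl0 W.toFinset K.toFinset = W.toFinset)
    (hc : K.toFinset.card ≤ W.toFinset.card + k) {v : ℕ} (hv : v ∈ W) (b : Bool) :
    Ker cl0 W.toFinset K.toFinset v b (cr k K W (v, b)).toFinset := by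
  have h1 := core_spec (fil_nodup hK (v, b)) (cr_db h ho hc hv b) (by
    rw [fil_toFinset, rmv_toFinset]
    exact not_sat_filter h.1 (List.mem_toFinset.2 hv) b)
  rw [rmv_toFinset] at h1
  have h2 := cr_sub k K W (v, b)
  refine ⟨?_, ?_, h1⟩
  · intro C hC
    rw [List.mem_toFinset] at hC
    have := h2.subset hC
    unfold fil at this
    exact List.mem_toFinset.2 (List.mem_filter.1 this).1
  · intro C hC
    rw [List.mem_toFinset] at hC
    have := List.mem_toFinset.2 (h2.subset hC)
    rw [fil_toFinset, mem_filter] at this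
    exact this.2

theorem crW_toFinset (k : ℕ) (K : List Cla) (W : List ℕ) (l : ℕ × Bool) :
    (crW k K W l).toFinset = oc cl0 (W.toFinset.erase l.1) (cr k K W l).toFinset := by
  unfold crW
  rw [ocL_toFinset, rmv_toFinset]

theorem items_spec (k : ℕ) : ∀ (j : ℕ) (K : List Cla) (W : List ℕ), K.Nodup → W.Nodup →
    MU cl0 W.toFinset K.toFinset → oc cl0 W.toFinset K.toFinset = W.toFinset →
    K.length ≤ W.length + (j + 1) → K.length ≤ W.length + k →
    Dcp K.toFinset W.toFinset (num j) (cst k j) (items k j K W) := by
  intro j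
  induction j with
  | zero =>
    intro K W hK hW h ho hj _
    have h1 := h.card_pos
    rw [ho, List.toFinset_card_of_nodup hK, List.toFinset_card_of_nodup hW] at h1
    rw [items]
    exact Dcp.of_tree (num_pos _) (fun x => cst_ge k 0 x) hK hW h ho (by omega)
  | succ j ih =>
    intro K W hK hW h ho hj hk
    have h1 := h.card_pos
    rw [ho, List.toFinset_card_of_nodup hK, List.toFinset_card_of_nodup hW] at h1
    rw [items]
    by_cases hle : K.length ≤ W.length + 1
    · rw [if_pos hle]
      exact Dcp.of_tree (num_pos _) (fun x => cst_ge k (j + 1) x) hK hW h ho (by omega)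
    rw [if_neg hle]
    have hcard : K.toFinset.card ≤ W.toFinset.card + k := by
      rw [List.toFinset_card_of_nodup hK, List.toFinset_card_of_nodup hW]
      exact hk
    have hnd : ∀ l, (cr k K W l).Nodup := fun l => (cr_sub k K W l).nodup (fil_nodup hK l)
    have hndW : ∀ l, (crW k K W l).Nodup := fun l => ocL_nodup (rmv_nodup hW l.1) _
    cases hh : (W.filter (fun v => gdv k K W v)).head? with
    | none =>
      exfalso
      obtain ⟨v, hv, hg⟩ := exists_good (j := K.length - W.length) (by omega) _ cl0 W.toFinset
        K.toFinset rfl h ho (by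
          rw [List.toFinset_card_of_nodup hK, List.toFinset_card_of_nodup hW]
          omega)
      rw [List.mem_toFinset] at hv
      have hgd : gdv k K W v = true := by
        have h2 : ∀ b, (cr k K W (v, b)).length + W.length <
            (crW k K W (v, b)).length + K.length := by
          intro b
          have h3 := hg b _ (cr_ker hK h ho hcard hv b)
          have h4 := crW_toFinset k K W (v, b)
          rw [← h4, List.toFinset_card_of_nodup (hnd _),
            List.toFinset_card_of_nodup (hndW _)] at h3
          omega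
        unfold gdv
        rw [Bool.and_eq_true, decide_eq_true_iff, decide_eq_true_iff]
        exact ⟨h2 false, h2 true⟩
      rw [List.head?_eq_none_iff] at hh
      have : v ∈ W.filter (fun v => gdv k K W v) := List.mem_filter.2 ⟨hv, hgd⟩
      rw [hh] at this
      simp at this
    | some v =>
      have h2 := List.mem_of_mem_head? hh
      rw [List.mem_filter] at h2
      obtain ⟨hv, hgd⟩ := h2
      have hvF : v ∈ W.toFinset := List.mem_toFinset.2 hv
      have hlt : ∀ b, (cr k K W (v, b)).length + W.length <
          (crW k K W (v, b)).length + K.length := by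
        unfold gdv at hgd
        rw [Bool.and_eq_true, decide_eq_true_iff, decide_eq_true_iff] at hgd
        intro b
        cases b
        · exact hgd.1
        · exact hgd.2
      have hker : ∀ b, Ker cl0 W.toFinset K.toFinset v b (cr k K W (v, b)).toFinset :=
        fun b => cr_ker hK h ho hcard hv b
      have hMU : ∀ b, MU cl0 (crW k K W (v, b)).toFinset (cr k K W (v, b)).toFinset := by
        intro b
        rw [crW_toFinset]
        exact (hker b).2.2.toOc
      have hfull : ∀ b, oc cl0 (crW k K W (v, b)).toFinset (cr k K W (v, b)).toFinset =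
          (crW k K W (v, b)).toFinset := by
        intro b
        rw [crW_toFinset]
        exact oc_oc
      have hD : ∀ b, Dcp (cr k K W (v, b)).toFinset (crW k K W (v, b)).toFinset (num j) (cst k j)
          (items k j (cr k K W (v, b)) (crW k K W (v, b))) := by
        intro b
        have := hlt b
        exact ih _ _ (hnd _) (hndW _) (hMU b) (hfull b) (by omega) (by omega)
      have hcovC : ∀ C ∈ K, ∃ b, C ∈ cr k K W (v, b) := by
        intro C hC
        by_contra hno
        push Not at hno
        obtain ⟨σ, hσ⟩ := h.2 C (List.mem_toFinset.2 hC)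
        apply (hker (σ v)).2.2.1
        refine ⟨σ, fun D hD => ?_⟩
        have hDK := (hker (σ v)).1 hD
        obtain ⟨w, hw, hw'⟩ := hσ D (by
          rw [mem_erase]
          refine ⟨?_, hDK⟩
          rintro rfl
          exact hno (σ v) (List.mem_toFinset.1 hD))
        refine ⟨w, mem_erase.2 ⟨?_, hw⟩, hw'⟩
        rintro rfl
        exact (hker (σ w)).2.1 D hD hw'
      have hexc : ∀ (b : Bool) (M : ℕ → Cla) (E : Finset ℕ) (F : Finset Cla), Mch M E F →
          W.toFinset ⊆ E → exc M (crW k K W (v, b)).toFinset (cr k K W (v, b)).toFinset ≤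
            2 * exc M W.toFinset K.toFinset + k := by
        intro b M E F hM hWE
        have h3 := (hker b).2.2.card_pos
        have h4 := exc_child (v := v) (δ := k) hM hWE hvF (hker b).1 hcard (by omega)
        rw [crW_toFinset]
        exact h4
      obtain ⟨t0, e0, n0, c0, v0, d0, a0⟩ := hD false
      obtain ⟨t1, e1, n1, c1, v1, d1, a1⟩ := hD true
      refine ⟨PT.vr v :: (t0 ++ t1), ?_, ?_, ?_, ?_, ?_, ?_⟩
      · simp only [Option.elim]
        rw [e0, e1, List.map_cons, List.map_append]
        rfl
      · rw [List.length_cons, List.length_append, num]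
        omega
      · intro C
        constructor
        · rintro ⟨t, ht, hC⟩
          rw [List.mem_cons, List.mem_append] at ht
          rcases ht with rfl | ht | ht
          · simp [PT.cls] at hC
          · exact (hker false).1 ((c0 C).1 ⟨t, ht, hC⟩)
          · exact (hker true).1 ((c1 C).1 ⟨t, ht, hC⟩)
        · intro hC
          obtain ⟨b, hb⟩ := hcovC C (List.mem_toFinset.1 hC)
          cases b
          · obtain ⟨t, ht, hC'⟩ := (c0 C).2 (List.mem_toFinset.2 hb)
            exact ⟨t, List.mem_cons_of_mem _ (List.mem_append_left _ ht), hC'⟩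
          · obtain ⟨t, ht, hC'⟩ := (c1 C).2 (List.mem_toFinset.2 hb)
            exact ⟨t, List.mem_cons_of_mem _ (List.mem_append_right _ ht), hC'⟩
      · intro w
        have hsubW : ∀ b, (crW k K W (v, b)).toFinset ⊆ W.toFinset := by
          intro b
          rw [crW_toFinset]
          exact oc_subset.trans (erase_subset _ _)
        constructor
        · rintro ⟨t, ht, hw⟩
          rw [List.mem_cons, List.mem_append] at ht
          rcases ht with rfl | ht | ht
          · simp only [PT.vrs, List.mem_singleton] at hw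
            rw [hw]; exact hvF
          · exact hsubW false ((v0 w).1 ⟨t, ht, hw⟩)
          · exact hsubW true ((v1 w).1 ⟨t, ht, hw⟩)
        · intro hw
          by_cases hwv : w = v
          · exact ⟨PT.vr v, List.mem_cons_self, by simp [PT.vrs, hwv]⟩
          · have hw' := hw
            rw [← ho, mem_oc] at hw'
            obtain ⟨_, C, hC, c, hc⟩ := hw'
            obtain ⟨b, hb⟩ := hcovC C (List.mem_toFinset.1 hC)
            have hwb : w ∈ (crW k K W (v, b)).toFinset := by
              rw [crW_toFinset, mem_oc]
              exact ⟨mem_erase.2 ⟨hwv, hw⟩, C, List.mem_toFinset.2 hb, c, hc⟩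
            cases b
            · obtain ⟨t, ht, hC'⟩ := (v0 w).2 hwb
              exact ⟨t, List.mem_cons_of_mem _ (List.mem_append_left _ ht), hC'⟩
            · obtain ⟨t, ht, hC'⟩ := (v1 w).2 hwb
              exact ⟨t, List.mem_cons_of_mem _ (List.mem_append_right _ ht), hC'⟩
      · intro t ht
        rw [List.mem_cons, List.mem_append] at ht
        rcases ht with rfl | ht | ht
        · simp [PT.cls, PT.vrs]
        · exact d0 t ht
        · exact d1 t ht
      · intro t ht
        rw [List.mem_cons, List.mem_append] at ht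
        rcases ht with rfl | ht | ht
        · intro M E F hM hWE
          have h3 := chi_vr_leaf (M := M) (E := E) v
          have h4 := cst_ge k (j + 1) (exc M W.toFinset K.toFinset)
          omega
        · refine PT.All.mono ?_ (a0 t ht)
          intro s hs M E F hM hWE
          have h3 := hs M E F hM ((by
            rw [crW_toFinset]
            exact oc_subset.trans (erase_subset _ _) :
              (crW k K W (v, false)).toFinset ⊆ W.toFinset).trans hWE)
          have h4 := cst_mono k (j := j) (hexc false M E F hM hWE)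
          rw [cst]
          omega
        · refine PT.All.mono ?_ (a1 t ht)
          intro s hs M E F hM hWE
          have h3 := hs M E F hM ((by
            rw [crW_toFinset]
            exact oc_subset.trans (erase_subset _ _) :
              (crW k K W (v, true)).toFinset ⊆ W.toFinset).trans hWE)
          have h4 := cst_mono k (j := j) (hexc true M E F hM hWE)
          rw [cst]
          omega

/-- variables of minimal unsatisfiable families can be matched -/
theorem MU.mt {ι V : Type*} [DecidableEq ι] [DecidableEq V] [Inhabited ι]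
    {cl : ι → Finset (V × Bool)} {W : Finset V} {S : Finset ι} (h : MU cl W S) :
    Mt cl (oc cl W S) S := by
  apply mt_of_card
  intro R hR
  by_cases hne : R = ∅
  · subst hne; simp
  · exact (h.nbr hR (Finset.nonempty_iff_ne_empty.2 hne)).le

/-- the decomposition of a family of bounded deficiency -/
structure Lay (k i : ℕ) (G : Finset Cla) (W : Finset ℕ) (F' : Finset Cla) (E' : Finset ℕ)
    (ts : List PT) : Prop where
  len : ts.length ≤ i * num k
  cov : ∀ C, (∃ t ∈ ts, C ∈ t.cls) ↔ C ∈ F'
  cov' : ∀ v, (∃ t ∈ ts, v ∈ t.vrs) ↔ v ∈ E'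
  sub : F' ⊆ G
  eq : E' = oc cl0 W F'
  mt : Mt cl0 E' F'
  sat : Sat cl0 (W \ E') (G \ F')
  nd : ∀ t ∈ ts, t.cls.Nodup ∧ t.vrs.Nodup
  por : ∀ t ∈ ts, t.All (fun t' => ∀ M E F, Mch M E F → E' ⊆ E → (∀ e ∈ E', M e ∈ F') →
    chi M E (fun C => C ∈ t'.cls) (fun e => e ∈ t'.vrs) ≤ cst k k k)

theorem lay_nil {k i : ℕ} {G : Finset Cla} {W : Finset ℕ} (h : Sat cl0 W G) :
    Lay k i G W ∅ ∅ [] := by
  refine ⟨by simp, by simp, by simp, by simp, ?_, ?_, ?_, by simp, by simp⟩
  · rw [oc_empty]
  · exact ⟨fun _ => default, by simp, by simp⟩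
  · simpa using h

theorem filter_notMem_cla (G K : List Cla) :
    (G.filter (fun C => !decide (C ∈ K))).toFinset = G.toFinset \ K.toFinset := by
  ext C
  simp

theorem filter_notMem_nat (G K : List ℕ) :
    (G.filter (fun C => !decide (C ∈ K))).toFinset = G.toFinset \ K.toFinset := by
  ext C
  simp

theorem layers_spec (k : ℕ) : ∀ (i : ℕ) (G : List Cla) (W : List ℕ), i ≤ k → G.Nodup → W.Nodup →
    DB cl0 W.toFinset G.toFinset i → ∃ F' E' ts, layers k i G W = ts.map PT.post ∧
      Lay k i G.toFinset W.toFinset F' E' ts := by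
  intro i
  induction i with
  | zero =>
    intro G W _ _ _ hd
    refine ⟨∅, ∅, [], rfl, lay_nil ?_⟩
    apply sat_of_card
    intro R hR
    have := hd R hR
    omega
  | succ i ih =>
    intro G W hik hG hW hd
    rw [layers]
    by_cases hs : satT k G W = true
    · rw [if_pos hs]
      exact ⟨∅, ∅, [], rfl, lay_nil (satT_sound k G W hG hs)⟩
    rw [if_neg hs]
    have hns : ¬ Sat cl0 W.toFinset G.toFinset := fun h =>
      hs ((satT_iff hG (hd.le hik)).2 h)
    set K := core k G W with hK
    set V := ocL W K with hV
    have hMU : MU cl0 W.toFinset K.toFinset := core_spec hG (hd.le hik) hns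
    have hKG : K.Sublist G := core_sublist _ _ _
    have hKsub : K.toFinset ⊆ G.toFinset := by
      intro C hC
      rw [List.mem_toFinset] at hC ⊢
      exact hKG.subset hC
    have hKn : K.Nodup := hKG.nodup hG
    have hVn : V.Nodup := ocL_nodup hW _
    have hVo : V.toFinset = oc cl0 W.toFinset K.toFinset := ocL_toFinset _ _
    have hMUV : MU cl0 V.toFinset K.toFinset := by rw [hVo]; exact hMU.toOc
    have hfull : oc cl0 V.toFinset K.toFinset = V.toFinset := by rw [hVo]; exact oc_oc
    have hKc := hd K.toFinset hKsub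
    rw [← hVo, List.toFinset_card_of_nodup hKn, List.toFinset_card_of_nodup hVn] at hKc
    have hKp := hMUV.card_pos
    rw [hfull] at hKp
    obtain ⟨ts, e1, n1, c1, v1, d1, a1⟩ := items_spec k k K V hKn hVn hMUV hfull (by omega)
      (by omega)
    have hG' := filter_notMem_cla G K
    have hW' := filter_notMem_nat W V
    have hdb : DB cl0 (W.filter (fun v => !decide (v ∈ V))).toFinset
        (G.filter (fun C => !decide (C ∈ K))).toFinset i := by
      rw [hG', hW']
      intro R hR
      have hdj : Disjoint K.toFinset R := by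
        rw [Finset.disjoint_left]
        intro x hx hx'
        exact (mem_sdiff.1 (hR hx')).2 hx
      have h1 := hd (K.toFinset ∪ R) (union_subset hKsub (hR.trans sdiff_subset))
      rw [card_union_of_disjoint hdj, card_oc_union, ← hVo] at h1
      omega
    obtain ⟨F2, E2, ts2, e2, l2⟩ := ih _ _ (by omega) (hG.filter _) (hW.filter _) hdb
    rw [hG', hW'] at l2
    rw [hG', hW'] at hdb
    have hF2K : Disjoint K.toFinset F2 := by
      rw [Finset.disjoint_left]
      intro x hx hx'
      exact (mem_sdiff.1 (l2.sub hx')).2 hx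
    have hE2V : Disjoint V.toFinset E2 := by
      rw [Finset.disjoint_left]
      intro x hx hx'
      rw [l2.eq] at hx'
      exact (mem_sdiff.1 (oc_subset hx')).2 hx
    refine ⟨K.toFinset ∪ F2, V.toFinset ∪ E2, ts ++ ts2, ?_, ?_⟩
    · rw [e1, e2, List.map_append]
    refine ⟨?_, ?_, ?_, ?_, ?_, ?_, ?_, ?_, ?_⟩
    · rw [List.length_append, Nat.succ_mul]
      have := l2.len
      omega
    · intro C
      rw [mem_union, ← c1, ← l2.cov]
      constructor
      · rintro ⟨t, ht, hC⟩
        rw [List.mem_append] at ht
        rcases ht with ht | ht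
        · exact Or.inl ⟨t, ht, hC⟩
        · exact Or.inr ⟨t, ht, hC⟩
      · rintro (⟨t, ht, hC⟩ | ⟨t, ht, hC⟩)
        · exact ⟨t, List.mem_append_left _ ht, hC⟩
        · exact ⟨t, List.mem_append_right _ ht, hC⟩
    · intro C
      rw [mem_union, ← v1, ← l2.cov']
      constructor
      · rintro ⟨t, ht, hC⟩
        rw [List.mem_append] at ht
        rcases ht with ht | ht
        · exact Or.inl ⟨t, ht, hC⟩
        · exact Or.inr ⟨t, ht, hC⟩
      · rintro (⟨t, ht, hC⟩ | ⟨t, ht, hC⟩)
        · exact ⟨t, List.mem_append_left _ ht, hC⟩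
        · exact ⟨t, List.mem_append_right _ ht, hC⟩
    · exact union_subset hKsub (l2.sub.trans sdiff_subset)
    · rw [oc_union, l2.eq, hVo]
      ext v
      simp only [mem_union, mem_oc, mem_sdiff]
      generalize (∃ C ∈ K.toFinset, ∃ b, (v, b) ∈ cl0 C) = p
      generalize (∃ C ∈ F2, ∃ b, (v, b) ∈ cl0 C) = q
      tauto
    · obtain ⟨μ1, i1, m1⟩ := hMU.mt
      rw [← hVo] at i1 m1
      obtain ⟨μ2, i2, m2⟩ := l2.mt
      refine ⟨fun e => if e ∈ V.toFinset then μ1 e else μ2 e, ?_, ?_⟩
      · intro x hx y hy hxy
        rw [mem_coe, mem_union] at hx hy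
        simp only at hxy
        by_cases hxV : x ∈ V.toFinset
        · by_cases hyV : y ∈ V.toFinset
          · rw [if_pos hxV, if_pos hyV] at hxy
            exact i1 hxV hyV hxy
          · exfalso
            rw [if_pos hxV, if_neg hyV] at hxy
            have h1 := (m1 x hxV).1
            have h2 := (m2 y (hy.resolve_left hyV)).1
            rw [hxy] at h1
            exact Finset.disjoint_left.1 hF2K h1 h2
        · by_cases hyV : y ∈ V.toFinset
          · exfalso
            rw [if_neg hxV, if_pos hyV] at hxy
            have h1 := (m1 y hyV).1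
            have h2 := (m2 x (hx.resolve_left hxV)).1
            rw [← hxy] at h1
            exact Finset.disjoint_left.1 hF2K h1 h2
          · rw [if_neg hxV, if_neg hyV] at hxy
            exact i2 (hx.resolve_left hxV) (hy.resolve_left hyV) hxy
      · intro e he
        rw [mem_union] at he
        by_cases heV : e ∈ V.toFinset
        · simp only [if_pos heV]
          obtain ⟨h1, h2⟩ := m1 e heV
          exact ⟨mem_union_left _ h1, h2⟩
        · simp only [if_neg heV]
          obtain ⟨h1, h2⟩ := m2 e (he.resolve_left heV)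
          exact ⟨mem_union_right _ h1, h2⟩
    · have h1 := l2.sat
      rw [sdiff_sdiff_left, sdiff_sdiff_left] at h1
      exact h1
    · intro t ht
      rw [List.mem_append] at ht
      rcases ht with ht | ht
      · exact d1 t ht
      · exact l2.nd t ht
    · have hE2F2 : ∀ (M : ℕ → Cla) (E : Finset ℕ) (F : Finset Cla), Mch M E F →
          V.toFinset ∪ E2 ⊆ E → (∀ e ∈ V.toFinset ∪ E2, M e ∈ K.toFinset ∪ F2) →
          ∀ e ∈ E2, M e ∈ F2 := by
        intro M E F hM hEE hMF e he
        have h1 := hMF e (mem_union_right _ he)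
        rw [mem_union] at h1
        refine h1.resolve_left (fun h2 => ?_)
        obtain ⟨b, hb⟩ := hM.occ e (hEE (mem_union_right _ he))
        have h3 : e ∈ V.toFinset := by
          rw [hVo, mem_oc]
          have h4 : e ∈ W.toFinset := by
            rw [l2.eq] at he
            exact (mem_sdiff.1 (oc_subset he)).1
          exact ⟨h4, M e, h2, b, by simpa [cl0] using hb⟩
        exact Finset.disjoint_left.1 hE2V h3 he
      intro t ht
      rw [List.mem_append] at ht
      rcases ht with ht | ht
      · refine PT.All.mono ?_ (a1 t ht)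
        intro s hs M E F hM hEE hMF
        refine (hs M E F hM (subset_union_left.trans hEE)).trans (cst_mono k ?_)
        have h1 := hE2F2 M E F hM hEE hMF
        unfold exc
        set Y := V.toFinset.filter (fun e => M e ∉ K.toFinset) with hY
        have h2 : (Y ∪ E2).card ≤ F2.card := by
          have hsub : Y ∪ E2 ⊆ E := by
            intro e he
            rw [mem_union, hY, mem_filter] at he
            rcases he with he | he
            · exact hEE (mem_union_left _ he.1)
            · exact hEE (mem_union_right _ he)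
          rw [← card_image_of_injOn (s := Y ∪ E2) (f := M)
            (fun x hx y hy => hM.inj (hsub hx) (hsub hy))]
          apply card_le_card
          intro C hC
          rw [mem_image] at hC
          obtain ⟨e, he, rfl⟩ := hC
          rw [mem_union, hY, mem_filter] at he
          rcases he with he | he
          · have h3 := hMF e (mem_union_left _ he.1)
            rw [mem_union] at h3
            exact h3.resolve_left he.2
          · exact h1 e he
        have h3 : (Y ∪ E2).card = Y.card + E2.card := by
          apply card_union_of_disjoint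
          rw [Finset.disjoint_left]
          intro e he he'
          rw [hY, mem_filter] at he
          exact Finset.disjoint_left.1 hE2V he.1 he'
        have h4 := hdb F2 l2.sub
        rw [← l2.eq] at h4
        omega
      · refine PT.All.mono ?_ (l2.por t ht)
        intro s hs M E F hM hEE hMF
        exact hs M E F hM (subset_union_right.trans hEE) (hE2F2 M E F hM hEE hMF)

end Pool.Agent.R534.MF
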