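import Mathlib

/-!
# Minimal unsatisfiable clause families

Clauses are indexed: `cl i` is the set of the literals of the clause `i`, and a literal `(v, b)` is
true when the variable `v` has the value `b`.  `W` is the set of the variables that may be assigned;
the literals of all the other variables are ignored.
-/

set_option linter.unusedSectionVars false

namespace Pool.Agent.R534.MF

open Finset

variable {ι V : Type*} [DecidableEq ι] [DecidableEq V]

/-- the variables of `W` which occur in the clauses of `G` -/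
def oc (cl : ι → Finset (V × Bool)) (W : Finset V) (G : Finset ι) : Finset V :=
  W.filter (fun v => ∃ C ∈ G, ∃ b, (v, b) ∈ cl C)

/-- the clauses of `G` can be satisfied by the variables of `W` -/
def Sat (cl : ι → Finset (V × Bool)) (W : Finset V) (G : Finset ι) : Prop :=
  ∃ σ : V → Bool, ∀ C ∈ G, ∃ v ∈ W, (v, σ v) ∈ cl C

/-- `S` is minimal unsatisfiable with respect to `W` -/
def MU (cl : ι → Finset (V × Bool)) (W : Finset V) (S : Finset ι) : Prop :=
  ¬ Sat cl W S ∧ ∀ C ∈ S, Sat cl W (S.erase C)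

variable {cl : ι → Finset (V × Bool)} {W W' : Finset V} {G H S : Finset ι}

theorem mem_oc {v : V} : v ∈ oc cl W G ↔ v ∈ W ∧ ∃ C ∈ G, ∃ b, (v, b) ∈ cl C := by
  simp [oc]

theorem oc_subset : oc cl W G ⊆ W := filter_subset _ _

theorem oc_mono (h : G ⊆ H) : oc cl W G ⊆ oc cl W H := by
  intro v hv
  rw [mem_oc] at hv ⊢
  obtain ⟨h1, C, h2, h3⟩ := hv
  exact ⟨h1, C, h h2, h3⟩

theorem oc_union : oc cl W (G ∪ H) = oc cl W G ∪ oc cl W H := by
  ext v
  simp only [mem_oc, mem_union]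
  constructor
  · rintro ⟨h1, C, h2 | h2, h3⟩
    · exact Or.inl ⟨h1, C, h2, h3⟩
    · exact Or.inr ⟨h1, C, h2, h3⟩
  · rintro (⟨h1, C, h2, h3⟩ | ⟨h1, C, h2, h3⟩)
    · exact ⟨h1, C, Or.inl h2, h3⟩
    · exact ⟨h1, C, Or.inr h2, h3⟩

theorem oc_empty : oc cl W ∅ = ∅ := by
  ext v; simp [mem_oc]

theorem oc_erase (v : V) : oc cl (W.erase v) G = (oc cl W G).erase v := by
  ext w
  simp only [mem_oc, mem_erase]
  tauto

theorem oc_inter_subset : oc cl W (G ∩ H) ⊆ oc cl W G ∩ oc cl W H := by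
  intro v hv
  rw [mem_inter]
  exact ⟨oc_mono inter_subset_left hv, oc_mono inter_subset_right hv⟩

theorem card_oc_union : (oc cl W (G ∪ H)).card =
    (oc cl W G).card + (oc cl (W \ oc cl W G) H).card := by
  have h1 : oc cl W (G ∪ H) = oc cl W G ∪ oc cl (W \ oc cl W G) H := by
    rw [oc_union]
    ext v
    simp only [mem_union, mem_oc, mem_sdiff]
    generalize (∃ C ∈ G, ∃ b, (v, b) ∈ cl C) = p
    generalize (∃ C ∈ H, ∃ b, (v, b) ∈ cl C) = q
    tauto
  rw [h1, card_union_of_disjoint]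
  rw [Finset.disjoint_left]
  intro v hv hv'
  have := oc_subset hv'
  rw [mem_sdiff] at this
  exact this.2 hv

theorem Sat.mono (h : Sat cl W H) (hG : G ⊆ H) : Sat cl W G := by
  obtain ⟨σ, hσ⟩ := h
  exact ⟨σ, fun C hC => hσ C (hG hC)⟩

theorem Sat.monoW (h : Sat cl W G) (hW : W ⊆ W') : Sat cl W' G := by
  obtain ⟨σ, hσ⟩ := h
  refine ⟨σ, fun C hC => ?_⟩
  obtain ⟨v, hv, h1⟩ := hσ C hC
  exact ⟨v, hW hv, h1⟩

theorem Sat.glue (h : Sat cl W G) (h' : Sat cl W' H) (hd : Disjoint W W') :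
    Sat cl (W ∪ W') (G ∪ H) := by
  obtain ⟨σ, hσ⟩ := h
  obtain ⟨τ, hτ⟩ := h'
  refine ⟨fun v => if v ∈ W then σ v else τ v, fun C hC => ?_⟩
  rcases mem_union.1 hC with hC | hC
  · obtain ⟨v, hv, h1⟩ := hσ C hC
    exact ⟨v, mem_union_left _ hv, by simpa [hv] using h1⟩
  · obtain ⟨v, hv, h1⟩ := hτ C hC
    refine ⟨v, mem_union_right _ hv, ?_⟩
    have : v ∉ W := fun h => (Finset.disjoint_left.1 hd h) hv
    simpa [this] using h1

theorem Sat.toOc (h : Sat cl W G) : Sat cl (oc cl W G) G := by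
  obtain ⟨σ, hσ⟩ := h
  refine ⟨σ, fun C hC => ?_⟩
  obtain ⟨v, hv, h1⟩ := hσ C hC
  exact ⟨v, mem_oc.2 ⟨hv, C, hC, _, h1⟩, h1⟩

theorem Sat.ext (h : Sat cl W G) (h' : Sat cl (W \ oc cl W G) H) : Sat cl W (G ∪ H) :=
  (h.toOc.glue h' disjoint_sdiff).monoW (union_subset oc_subset sdiff_subset)

/-- Hall's theorem for a finite set of indices. -/
theorem hall_inj (G : Finset ι) (t : ι → Finset V) (h : ∀ R ⊆ G, R.card ≤ (R.biUnion t).card) :
    ∃ f : {x // x ∈ G} → V, Function.Injective f ∧ ∀ x, f x ∈ t x.1 := by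
  refine (Finset.all_card_le_biUnion_card_iff_exists_injective
    (fun x : {x // x ∈ G} => t x.1)).1 ?_
  intro s
  have h1 := h (s.map (Function.Embedding.subtype _)) (by
    intro x hx
    rw [mem_map] at hx
    obtain ⟨y, _, rfl⟩ := hx
    exact y.2)
  rw [card_map] at h1
  refine h1.trans (le_of_eq ?_)
  congr 1
  ext v
  simp

theorem sat_of_card (h : ∀ R ⊆ G, R.card ≤ (oc cl W R).card) : Sat cl W G := by
  have key : ∀ R : Finset ι, R.biUnion (fun C => W.filter (fun v => ∃ b, (v, b) ∈ cl C)) =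
      oc cl W R := by
    intro R
    ext v
    simp only [mem_biUnion, mem_filter, mem_oc]
    constructor
    · rintro ⟨C, h1, h2, h3⟩; exact ⟨h2, C, h1, h3⟩
    · rintro ⟨h2, C, h1, h3⟩; exact ⟨C, h1, h2, h3⟩
  obtain ⟨f, hf, hf'⟩ := hall_inj G (fun C => W.filter (fun v => ∃ b, (v, b) ∈ cl C)) (by
    intro R hR
    rw [key]
    exact h R hR)
  classical
  refine ⟨fun v => decide (∃ x, f x = v ∧ (v, true) ∈ cl x.1), fun C hC => ?_⟩
  have h1 := hf' ⟨C, hC⟩
  rw [mem_filter] at h1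
  obtain ⟨hW, b, hb⟩ := h1
  refine ⟨f ⟨C, hC⟩, hW, ?_⟩
  by_cases ht : (f ⟨C, hC⟩, true) ∈ cl C
  · have : decide (∃ x, f x = f ⟨C, hC⟩ ∧ (f ⟨C, hC⟩, true) ∈ cl x.1) = true := by
      rw [decide_eq_true_iff]
      exact ⟨_, rfl, ht⟩
    beta_reduce
    rw [this]
    exact ht
  · have : decide (∃ x, f x = f ⟨C, hC⟩ ∧ (f ⟨C, hC⟩, true) ∈ cl x.1) = false := by
      rw [decide_eq_false_iff_not]
      rintro ⟨x, hx, hx'⟩
      rw [hf hx] at hx'
      exact ht hx'
    beta_reduce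
    rw [this]
    cases b with
    | true => exact absurd hb ht
    | false => exact hb

/-- The generic form of the fact that proper subfamilies have smaller deficiency. -/
theorem strict_of (P : Finset ι → Prop) (hmono : ∀ G G', G ⊆ G' → P G' → P G)
    (hext : ∀ G R, P G → Sat cl (W \ oc cl W G) R → P (G ∪ R)) (h1 : ¬ P S)
    (h2 : ∀ C ∈ S, P (S.erase C)) (hG : G ⊂ S) :
    G.card + (oc cl W S).card < S.card + (oc cl W G).card := by
  by_contra hcon
  rw [not_lt] at hcon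
  obtain ⟨G₀, hG₀, hmax⟩ := Finset.exists_max_image S.ssubsets
    (fun G => (G.card : ℤ) - (oc cl W G).card) ⟨G, mem_ssubsets.2 hG⟩
  have hGG := hmax G (mem_ssubsets.2 hG)
  rw [mem_ssubsets] at hG₀
  have hall : ∀ G' ⊆ S, (G'.card : ℤ) - (oc cl W G').card ≤ G₀.card - (oc cl W G₀).card := by
    intro G' hG'
    by_cases he : G' = S
    · subst he
      have : ((G'.card + (oc cl W G).card : ℕ) : ℤ) ≤ ((G.card + (oc cl W G').card : ℕ) : ℤ) :=
        Nat.cast_le.2 hcon
      push_cast at this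
      linarith
    · exact hmax G' (mem_ssubsets.2 (hG'.ssubset_of_ne he))
  obtain ⟨C, hC, hC'⟩ := Finset.exists_of_ssubset hG₀
  have hP : P G₀ := hmono _ (S.erase C) (by
    intro x hx
    rw [mem_erase]
    refine ⟨?_, hG₀.1 hx⟩
    rintro rfl
    exact hC' hx) (h2 C hC)
  have hs : Sat cl (W \ oc cl W G₀) (S \ G₀) := by
    apply sat_of_card
    intro R hR
    have hd : Disjoint G₀ R := by
      rw [Finset.disjoint_left]
      intro x hx hx'
      exact (mem_sdiff.1 (hR hx')).2 hx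
    have h3 := hall (G₀ ∪ R) (union_subset hG₀.1 (hR.trans sdiff_subset))
    rw [card_union_of_disjoint hd, card_oc_union] at h3
    push_cast at h3
    omega
  have := hext _ _ hP hs
  rw [union_sdiff_of_subset hG₀.1] at this
  exact h1 this

theorem MU.strict (h : MU cl W S) (hG : G ⊂ S) :
    G.card + (oc cl W S).card < S.card + (oc cl W G).card :=
  strict_of (Sat cl W) (fun _ _ h h' => h'.mono h) (fun _ _ h h' => h.ext h') h.1 h.2 hG

theorem MU.satSub (h : MU cl W S) (hG : G ⊂ S) : Sat cl W G := by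
  obtain ⟨C, hC, hC'⟩ := Finset.exists_of_ssubset hG
  refine (h.2 C hC).mono ?_
  intro x hx
  rw [mem_erase]
  refine ⟨?_, hG.1 hx⟩
  rintro rfl
  exact hC' hx

theorem MU.nonempty (h : MU cl W S) : S.Nonempty := by
  rw [Finset.nonempty_iff_ne_empty]
  rintro rfl
  exact h.1 ⟨fun _ => true, by simp⟩

theorem MU.card_pos (h : MU cl W S) : (oc cl W S).card < S.card := by
  have := h.strict (G := ∅) (by
    rw [Finset.ssubset_iff_subset_ne]
    exact ⟨empty_subset _, h.nonempty.ne_empty.symm⟩)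
  rw [oc_empty] at this
  simpa using this

theorem MU.nbr (h : MU cl W S) {X : Finset V} (hX : X ⊆ oc cl W S) (hne : X.Nonempty) :
    X.card < (S.filter (fun C => ∃ v ∈ X, ∃ b, (v, b) ∈ cl C)).card := by
  set N := S.filter (fun C => ∃ v ∈ X, ∃ b, (v, b) ∈ cl C) with hN
  obtain ⟨v, hv⟩ := hne
  obtain ⟨_, C, hC, b, hb⟩ := mem_oc.1 (hX hv)
  have hNne : C ∈ N := by
    rw [hN, mem_filter]
    exact ⟨hC, v, hv, b, hb⟩
  have hss : S \ N ⊂ S := by
    rw [Finset.ssubset_iff_subset_ne]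
    refine ⟨sdiff_subset, fun he => ?_⟩
    have : C ∈ S \ N := by rw [he]; exact hC
    exact (mem_sdiff.1 this).2 hNne
  have h1 := h.strict hss
  have h2 : oc cl W (S \ N) ⊆ oc cl W S \ X := by
    intro w hw
    rw [mem_sdiff]
    refine ⟨oc_mono sdiff_subset hw, fun hwX => ?_⟩
    obtain ⟨_, D, hD, c, hc⟩ := mem_oc.1 hw
    rw [mem_sdiff] at hD
    apply hD.2
    rw [hN, mem_filter]
    exact ⟨hD.1, w, hwX, c, hc⟩
  have h3 := card_le_card h2
  rw [card_sdiff_of_subset hX] at h3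
  have h4 := card_le_card hX
  have h5 : (S \ N).card = S.card - N.card := card_sdiff_of_subset (filter_subset _ _)
  have h6 : N.card ≤ S.card := card_le_card (filter_subset _ _)
  omega

theorem MU.signs (h : MU cl W S) {v : V} (hv : v ∈ oc cl W S) (b : Bool) :
    ∃ C ∈ S, (v, b) ∈ cl C := by
  by_contra hcon
  push Not at hcon
  obtain ⟨hvW, C, hC, c, hc⟩ := mem_oc.1 hv
  have hcb : c = !b := by
    cases c <;> cases b <;> simp_all
  subst hcb
  have hss : S.filter (fun C => (v, !b) ∉ cl C) ⊂ S := by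
    rw [Finset.ssubset_iff_subset_ne]
    refine ⟨filter_subset _ _, fun he => ?_⟩
    have : C ∈ S.filter (fun C => (v, !b) ∉ cl C) := by rw [he]; exact hC
    exact (mem_filter.1 this).2 hc
  obtain ⟨σ, hσ⟩ := h.satSub hss
  apply h.1
  refine ⟨Function.update σ v (!b), fun D hD => ?_⟩
  by_cases hDv : (v, !b) ∈ cl D
  · exact ⟨v, hvW, by simpa using hDv⟩
  · obtain ⟨w, hw, hw'⟩ := hσ D (mem_filter.2 ⟨hD, hDv⟩)
    refine ⟨w, hw, ?_⟩
    have hwv : w ≠ v := by
      rintro rfl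
      cases hσv : σ w <;> rw [hσv] at hw' <;> cases b <;> simp_all
    rw [Function.update_of_ne hwv]
    exact hw'

theorem exists_core (h : ¬ Sat cl W G) : ∃ K ⊆ G, MU cl W K := by
  classical
  obtain ⟨K, hK, hmin⟩ := Finset.exists_min_image (G.powerset.filter (fun K => ¬ Sat cl W K))
    Finset.card ⟨G, by simp [h]⟩
  rw [mem_filter, mem_powerset] at hK
  refine ⟨K, hK.1, hK.2, fun C hC => ?_⟩
  by_contra hcon
  have h1 := hmin (K.erase C) (by
    rw [mem_filter, mem_powerset]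
    exact ⟨(erase_subset _ _).trans hK.1, hcon⟩)
  rw [card_erase_of_mem hC] at h1
  have : 0 < K.card := card_pos.2 ⟨C, hC⟩
  omega

theorem MU.toOc (h : MU cl W S) : MU cl (oc cl W S) S :=
  ⟨fun h' => h.1 (h'.monoW oc_subset), fun C hC =>
    (h.2 C hC).toOc.monoW (oc_mono (erase_subset _ _))⟩

theorem not_sat_filter (h : ¬ Sat cl W S) {v : V} (hv : v ∈ W) (b : Bool) :
    ¬ Sat cl (W.erase v) (S.filter (fun C => (v, b) ∉ cl C)) := by
  rintro ⟨σ, hσ⟩
  apply h
  refine ⟨Function.update σ v b, fun C hC => ?_⟩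
  by_cases hCv : (v, b) ∈ cl C
  · exact ⟨v, hv, by simpa using hCv⟩
  · obtain ⟨w, hw, hw'⟩ := hσ C (mem_filter.2 ⟨hC, hCv⟩)
    rw [mem_erase] at hw
    exact ⟨w, hw.2, by rw [Function.update_of_ne hw.1]; exact hw'⟩

/-- `K` is a kernel of `S[v = b]` -/
def Ker (cl : ι → Finset (V × Bool)) (W : Finset V) (S : Finset ι) (v : V) (b : Bool)
    (K : Finset ι) : Prop :=
  K ⊆ S ∧ (∀ C ∈ K, (v, b) ∉ cl C) ∧ MU cl (W.erase v) K

theorem exists_ker (h : MU cl W S) {v : V} (hv : v ∈ W) (b : Bool) : ∃ K, Ker cl W S v b K := by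
  obtain ⟨K, hK, hK'⟩ := exists_core (not_sat_filter h.1 hv b)
  exact ⟨K, hK.trans (filter_subset _ _), fun C hC => (mem_filter.1 (hK hC)).2, hK'⟩

theorem Ker.ssub {v : V} {b : Bool} {K : Finset ι} (hK : Ker cl W S v b K) (h : MU cl W S)
    (hv : v ∈ oc cl W S) : K ⊂ S := by
  obtain ⟨C, hC, hC'⟩ := h.signs hv b
  rw [Finset.ssubset_iff_subset_ne]
  refine ⟨hK.1, ?_⟩
  rintro rfl
  exact hK.2.1 C hC hC'

theorem Ker.mem_oc {v : V} {b : Bool} {K : Finset ι} (hK : Ker cl W S v b K) (h : MU cl W S)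
    (hv : v ∈ oc cl W S) : v ∈ oc cl W K := by
  by_contra hcon
  apply hK.2.2.1
  refine (h.satSub (hK.ssub h hv)).toOc.monoW ?_
  intro w hw
  rw [mem_erase]
  refine ⟨?_, oc_subset hw⟩
  rintro rfl
  exact hcon hw

section one

variable (h : MU cl W S) (hf : oc cl W S = W) (hc : S.card = W.card + 1)

include h hf hc

theorem tight_le (hG : G ⊂ S) : G.card ≤ (oc cl W G).card := by
  have := h.strict hG
  rw [hf] at this
  omega

theorem tight_inter (hG : G ⊂ S) (hH : H ⊂ S) (hG' : G.card = (oc cl W G).card)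
    (hH' : H.card = (oc cl W H).card) (hne : G ∪ H ≠ S) :
    (G ∩ H).card = (oc cl W (G ∩ H)).card ∧ oc cl W (G ∩ H) = oc cl W G ∩ oc cl W H := by
  have h1 := tight_le h hf hc ((union_subset hG.1 hH.1).ssubset_of_ne hne)
  have h2 := tight_le h hf hc (lt_of_le_of_lt (inter_subset_left : G ∩ H ⊆ G) hG)
  have h3 := card_union_add_card_inter G H
  have h4 := card_union_add_card_inter (oc cl W G) (oc cl W H)
  rw [oc_union] at h1
  have h5 := card_le_card (oc_inter_subset (cl := cl) (W := W) (G := G) (H := H))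
  have h6 : (oc cl W G ∩ oc cl W H).card ≤ (oc cl W (G ∩ H)).card := by omega
  have h7 := eq_of_subset_of_card_le (oc_inter_subset (cl := cl) (W := W) (G := G) (H := H)) h6
  exact ⟨by rw [h7]; omega, h7⟩

theorem ker_card {v : V} {b : Bool} {K : Finset ι} (hK : Ker cl W S v b K) (hv : v ∈ W) :
    K.card = (oc cl W K).card := by
  have hv' : v ∈ oc cl W S := by rw [hf]; exact hv
  have h1 := tight_le h hf hc (hK.ssub h hv')
  have h2 := hK.2.2.card_pos
  have h3 := hK.mem_oc h hv'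
  rw [oc_erase, card_erase_of_mem h3] at h2
  have : 0 < (oc cl W K).card := card_pos.2 ⟨v, h3⟩
  omega

theorem ker_sub {w : V} {c : Bool} {P A : Finset ι} (hP : Ker cl W S w c P) (hw : w ∈ W)
    (hA : A ⊂ S) (hA' : A.card = (oc cl W A).card) (hwA : w ∈ oc cl W A) (hne : A ∪ P ≠ S) :
    P ⊆ A := by
  have hw' : w ∈ oc cl W S := by rw [hf]; exact hw
  obtain ⟨h1, h2⟩ := tight_inter h hf hc hA (hP.ssub h hw') hA' (ker_card h hf hc hP hw) hne
  have h3 : w ∈ oc cl W (A ∩ P) := by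
    rw [h2, mem_inter]
    exact ⟨hwA, hP.mem_oc h hw'⟩
  by_contra hcon
  have hss : A ∩ P ⊂ P := by
    rw [Finset.ssubset_iff_subset_ne]
    refine ⟨inter_subset_right, fun he => hcon ?_⟩
    rw [← he]
    exact inter_subset_left
  have h4 := hP.2.2.strict hss
  rw [oc_erase, oc_erase, card_erase_of_mem h3, card_erase_of_mem (hP.mem_oc h hw')] at h4
  have h5 := ker_card h hf hc hP hw
  have h6 : 0 < (oc cl W P).card := card_pos.2 ⟨w, hP.mem_oc h hw'⟩
  have h7 : 0 < (oc cl W (A ∩ P)).card := card_pos.2 ⟨w, h3⟩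
  omega

/-- Separation theorem for minimal unsatisfiable families of deficiency one. -/
theorem separation (hW : W.Nonempty) : ∃ v ∈ W, ∃ b, ∃ A B, Ker cl W S v b A ∧
    Ker cl W S v (!b) B ∧ A ∪ B = S ∧ A ∩ B = ∅ ∧ oc cl W A ∩ oc cl W B = {v} := by
  classical
  have hex : ∃ n, ∃ v ∈ W, ∃ b K, Ker cl W S v b K ∧ K.card = n := by
    obtain ⟨v, hv⟩ := hW
    obtain ⟨K, hK⟩ := exists_ker h hv true
    exact ⟨_, v, hv, true, K, hK, rfl⟩
  obtain ⟨v, hv, b, A, hA, hAn⟩ := Nat.find_spec hex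
  have hmin : ∀ w ∈ W, ∀ c K, Ker cl W S w c K → A.card ≤ K.card := by
    intro w hw c K hK
    rw [hAn]
    exact Nat.find_min' hex ⟨w, hw, c, K, hK, rfl⟩
  obtain ⟨B, hB⟩ := exists_ker h hv (!b)
  have hv' : v ∈ oc cl W S := by rw [hf]; exact hv
  have hAS := hA.ssub h hv'
  have hBS := hB.ssub h hv'
  have hAc := ker_card h hf hc hA hv
  have hBc := ker_card h hf hc hB hv
  have hvA := hA.mem_oc h hv'
  have hvB := hB.mem_oc h hv'
  -- the union
  have hU : A ∪ B = S := by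
    by_contra hne
    obtain ⟨_, h2⟩ := tight_inter h hf hc hAS hBS hAc hBc hne
    have h3 : v ∈ oc cl W (A ∩ B) := by
      rw [h2, mem_inter]; exact ⟨hvA, hvB⟩
    obtain ⟨_, C, hC, c, hc⟩ := mem_oc.1 h3
    rw [mem_inter] at hC
    have e1 := hA.2.1 C hC.1
    have e2 := hB.2.1 C hC.2
    cases c <;> cases b <;> simp_all
  have hI : (oc cl W A ∩ oc cl W B).card = (A ∩ B).card + 1 := by
    have h3 := card_union_add_card_inter A B
    have h4 := card_union_add_card_inter (oc cl W A) (oc cl W B)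
    rw [← oc_union, hU, hf] at h4
    rw [hU] at h3
    omega
  set X := (oc cl W A ∩ oc cl W B).erase v with hX
  have hXc : X.card = (A ∩ B).card := by
    rw [hX, card_erase_of_mem (mem_inter.2 ⟨hvA, hvB⟩), hI]
    rfl
  have key : ∀ w ∈ X, ∀ c, ∀ C ∈ S, (w, c) ∈ cl C → C ∈ A ∩ B := by
    intro w hwX c C hC hCw
    rw [hX, mem_erase, mem_inter] at hwX
    obtain ⟨hwv, hwA, hwB⟩ := hwX
    have hwW : w ∈ W := oc_subset hwA
    obtain ⟨P, hP⟩ := exists_ker h hwW c
    have hwS : w ∈ oc cl W S := by rw [hf]; exact hwW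
    have hwPv : ∀ Q : Finset ι, MU cl (W.erase v) Q → w ∈ oc cl W Q → Q ≠ P := by
      rintro Q hQ hwQ rfl
      obtain ⟨C', hC', hC''⟩ := hQ.signs (v := w) (by
        rw [oc_erase, mem_erase]; exact ⟨hwv, hwQ⟩) c
      exact hP.2.1 C' hC' hC''
    have h3 : A ∪ P = S := by
      by_contra hne
      have h4 := ker_sub h hf hc hP hwW hAS hAc hwA hne
      have h5 := hmin w hwW c P hP
      exact hwPv A hA.2.2 hwA (eq_of_subset_of_card_le h4 h5).symm
    have h4 : B ∪ P = S := by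
      by_contra hne
      have h5 := ker_sub h hf hc hP hwW hBS hBc hwB hne
      obtain ⟨D, hD, hD'⟩ := h.signs hv' b
      have hDP : D ∈ P := by
        rw [← h3, mem_union] at hD
        rcases hD with hD | hD
        · exact absurd hD' (hA.2.1 D hD)
        · exact hD
      have hvP : v ∈ oc cl W P := mem_oc.2 ⟨hv, D, hDP, b, hD'⟩
      have hss : P ⊂ B := h5.ssubset_of_ne (hwPv B hB.2.2 hwB).symm
      have h6 := hB.2.2.strict hss
      rw [oc_erase, oc_erase, card_erase_of_mem hvP, card_erase_of_mem hvB] at h6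
      have h7 := ker_card h hf hc hP hwW
      have h8 : 0 < (oc cl W P).card := card_pos.2 ⟨v, hvP⟩
      have h9 : 0 < (oc cl W B).card := card_pos.2 ⟨v, hvB⟩
      omega
    have hCP : C ∉ P := fun hCP => hP.2.1 C hCP hCw
    rw [mem_inter]
    constructor
    · rw [← h3, mem_union] at hC
      exact hC.resolve_right hCP
    · rw [← h4, mem_union] at hC
      exact hC.resolve_right hCP
  have hXe : X = ∅ := by
    by_contra hne
    have h1 := h.nbr (X := X) (by
      rw [hf, hX]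
      exact (erase_subset _ _).trans (inter_subset_left.trans oc_subset))
      (Finset.nonempty_iff_ne_empty.2 hne)
    have h2 : (S.filter (fun C => ∃ v ∈ X, ∃ b, (v, b) ∈ cl C)).card ≤ (A ∩ B).card := by
      apply card_le_card
      intro C hC
      rw [mem_filter] at hC
      obtain ⟨hC, w, hw, c, hc⟩ := hC
      exact key w hw c C hC hc
    omega
  refine ⟨v, hv, b, A, B, hA, hB, hU, ?_, ?_⟩
  · rw [← Finset.card_eq_zero, ← hXc, hXe]
    rfl
  · rw [← Finset.insert_erase (mem_inter.2 ⟨hvA, hvB⟩ : v ∈ oc cl W A ∩ oc cl W B), ← hX, hXe]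
    rfl

end one

end Pool.Agent.R534.MF
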