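import Pool.Agent.R534.MF.MU

/-!
# Structure of minimal unsatisfiable families: 1-1 variables, resolution, good variables
-/

set_option linter.unusedSectionVars false

namespace Pool.Agent.R534.MF

open Finset

variable {ι V : Type*} [DecidableEq ι] [DecidableEq V]
variable {cl cl' : ι → Finset (V × Bool)} {W W' : Finset V} {G H S : Finset ι}

theorem oc_oc : oc cl (oc cl W S) S = oc cl W S := by
  ext v
  simp only [mem_oc]
  tauto

theorem one_one : ∀ (n : ℕ) (W : Finset V) (S : Finset ι), S.card = n → MU cl W S →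
    oc cl W S = W → S.card = W.card + 1 → W.Nonempty →
    ∃ w ∈ W, ∀ b, (S.filter (fun C => (w, b) ∈ cl C)).card = 1 := by
  intro n
  induction n using Nat.strong_induction_on with
  | _ n ih =>
    intro W S hn h hf hc hW
    obtain ⟨v, hv, b, A, B, hA, hB, hU, hI, hO⟩ := separation h hf hc hW
    have hv' : v ∈ oc cl W S := by rw [hf]; exact hv
    have side : ∀ (A B : Finset ι) (b : Bool), Ker cl W S v b A → A ∪ B = S →
        oc cl W A ∩ oc cl W B = {v} → (oc cl (W.erase v) A).Nonempty →
        ∃ w ∈ W, ∀ b, (S.filter (fun C => (w, b) ∈ cl C)).card = 1 := by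
      intro A B b hA hU hO hne
      have hvA := hA.mem_oc h hv'
      have cA := ker_card h hf hc hA hv
      have cA' : (oc cl (W.erase v) A).card = (oc cl W A).card - 1 := by
        rw [oc_erase, card_erase_of_mem hvA]
      have cp : 0 < (oc cl W A).card := card_pos.2 ⟨v, hvA⟩
      obtain ⟨w, hw, hw'⟩ := ih A.card (by
        rw [← hn]
        exact card_lt_card (hA.ssub h hv')) (oc cl (W.erase v) A) A rfl hA.2.2.toOc oc_oc
        (by omega) hne
      have hw1 := hw
      rw [oc_erase, mem_erase] at hw1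
      refine ⟨w, oc_subset hw1.2, fun c => ?_⟩
      rw [← hw' c]
      congr 1
      ext C
      simp only [mem_filter]
      constructor
      · rintro ⟨h1, h2⟩
        refine ⟨?_, h2⟩
        rw [← hU, mem_union] at h1
        rcases h1 with h1 | h1
        · exact h1
        · exfalso
          have h3 : w ∈ oc cl W A ∩ oc cl W B := by
            rw [mem_inter]
            exact ⟨hw1.2, mem_oc.2 ⟨oc_subset hw1.2, C, h1, c, h2⟩⟩
          rw [hO, mem_singleton] at h3
          exact hw1.1 h3
      · rintro ⟨h1, h2⟩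
        exact ⟨hA.1 h1, h2⟩
    by_cases h1 : (oc cl (W.erase v) A).Nonempty
    · exact side A B b hA hU hO h1
    by_cases h2 : (oc cl (W.erase v) B).Nonempty
    · exact side B A (!b) hB (by rw [union_comm]; exact hU) (by rw [inter_comm]; exact hO) h2
    rw [Finset.not_nonempty_iff_eq_empty] at h1 h2
    have small : ∀ (A : Finset ι) (b : Bool), Ker cl W S v b A → oc cl (W.erase v) A = ∅ →
        (A.filter (fun C => (v, !b) ∈ cl C)).card = 1 := by
      intro A b hA he
      have hvA := hA.mem_oc h hv'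
      have cA := ker_card h hf hc hA hv
      have cA' : (oc cl (W.erase v) A).card = (oc cl W A).card - 1 := by
        rw [oc_erase, card_erase_of_mem hvA]
      have cp : 0 < (oc cl W A).card := card_pos.2 ⟨v, hvA⟩
      rw [he, card_empty] at cA'
      have c1 : A.card = 1 := by omega
      obtain ⟨D, rfl⟩ := card_eq_one.1 c1
      obtain ⟨_, D', hD', c, hc⟩ := mem_oc.1 hvA
      rw [mem_singleton] at hD'
      subst hD'
      have hcb : c = !b := by
        have := hA.2.1 D' (mem_singleton_self _)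
        cases c <;> cases b <;> simp_all
      subst hcb
      rw [Finset.filter_true_of_mem, card_singleton]
      intro x hx
      rw [mem_singleton] at hx
      subst hx
      exact hc
    refine ⟨v, hv, fun c => ?_⟩
    have hsplit : S.filter (fun C => (v, c) ∈ cl C) =
        A.filter (fun C => (v, c) ∈ cl C) ∪ B.filter (fun C => (v, c) ∈ cl C) := by
      rw [← hU, filter_union]
    rw [hsplit]
    by_cases hcb : c = b
    · subst hcb
      have e1 : A.filter (fun C => (v, c) ∈ cl C) = ∅ := by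
        rw [Finset.filter_eq_empty_iff]
        intro C hC
        exact hA.2.1 C hC
      have e2 := small B (!c) hB h2
      rw [Bool.not_not] at e2
      rw [e1, empty_union, e2]
    · have hcb' : c = !b := by cases c <;> cases b <;> simp_all
      subst hcb'
      have e1 : B.filter (fun C => (v, !b) ∈ cl C) = ∅ := by
        rw [Finset.filter_eq_empty_iff]
        intro C hC
        exact hB.2.1 C hC
      rw [e1, union_empty, small A b hA h1]

theorem sat_congr (hcl : ∀ D ∈ G, ∀ v b, (v ∈ W ∧ (v, b) ∈ cl D) ↔ (v ∈ W' ∧ (v, b) ∈ cl' D)) :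
    Sat cl W G ↔ Sat cl' W' G := by
  constructor
  · rintro ⟨σ, hσ⟩
    refine ⟨σ, fun C hC => ?_⟩
    obtain ⟨v, hv, h1⟩ := hσ C hC
    obtain ⟨h2, h3⟩ := (hcl C hC v _).1 ⟨hv, h1⟩
    exact ⟨v, h2, h3⟩
  · rintro ⟨σ, hσ⟩
    refine ⟨σ, fun C hC => ?_⟩
    obtain ⟨v, hv, h1⟩ := hσ C hC
    obtain ⟨h2, h3⟩ := (hcl C hC v _).2 ⟨hv, h1⟩
    exact ⟨v, h2, h3⟩

theorem MU.congr (hcl : ∀ D ∈ S, ∀ v b, (v ∈ W ∧ (v, b) ∈ cl D) ↔ (v ∈ W' ∧ (v, b) ∈ cl' D))
    (h : MU cl W S) : MU cl' W' S :=
  ⟨fun h' => h.1 ((sat_congr hcl).2 h'), fun C hC =>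
    (sat_congr (fun D hD => hcl D (mem_of_mem_erase hD))).1 (h.2 C hC)⟩

theorem oc_congr (hcl : ∀ D ∈ S, ∀ v b, (v ∈ W ∧ (v, b) ∈ cl D) ↔ (v ∈ W' ∧ (v, b) ∈ cl' D)) :
    oc cl W S = oc cl' W' S := by
  ext v
  simp only [mem_oc]
  constructor
  · rintro ⟨h1, C, hC, b, hb⟩
    obtain ⟨h2, h3⟩ := (hcl C hC v b).1 ⟨h1, hb⟩
    exact ⟨h2, C, hC, b, h3⟩
  · rintro ⟨h1, C, hC, b, hb⟩
    obtain ⟨h2, h3⟩ := (hcl C hC v b).2 ⟨h1, hb⟩
    exact ⟨h2, C, hC, b, h3⟩

theorem MU.notaut (h : MU cl W S) {C : ι} (hC : C ∈ S) {z : V} (hz : z ∈ W) {a : Bool}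
    (ha : (z, a) ∈ cl C) : (z, !a) ∉ cl C := by
  intro ha'
  obtain ⟨σ, hσ⟩ := h.2 C hC
  apply h.1
  refine ⟨σ, fun D hD => ?_⟩
  by_cases hDC : D = C
  · subst hDC
    refine ⟨z, hz, ?_⟩
    cases hs : σ z <;> cases a <;> simp_all
  · exact hσ D (mem_erase.2 ⟨hDC, hD⟩)

/-- Resolution with the clause `C`, the only one which contains `(z, a)`. -/
def dp (cl : ι → Finset (V × Bool)) (z : V) (a : Bool) (C : ι) (i : ι) : Finset (V × Bool) :=
  if (z, !a) ∈ cl i then (cl i ∪ cl C).filter (fun l => l.1 ≠ z) else cl i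

theorem mem_dp {z : V} {a : Bool} {C i : ι} {v : V} {b : Bool} (hv : v ≠ z) :
    (v, b) ∈ dp cl z a C i ↔ (v, b) ∈ cl i ∨ ((z, !a) ∈ cl i ∧ (v, b) ∈ cl C) := by
  unfold dp
  split_ifs with h <;> simp [h, hv]

theorem MU.dp (h : MU cl W S) {z : V} (hz : z ∈ W) {a : Bool} {C : ι} (hC : C ∈ S)
    (hCz : (z, a) ∈ cl C) (hu : ∀ D ∈ S, (z, a) ∈ cl D → D = C) :
    MU (dp cl z a C) (W.erase z) (S.erase C) := by
  have hnt := h.notaut hC hz hCz
  constructor
  · rintro ⟨σ, hσ⟩
    apply h.1
    by_cases hCs : ∃ v ∈ W.erase z, (v, σ v) ∈ cl C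
    · obtain ⟨v, hv, hvC⟩ := hCs
      rw [mem_erase] at hv
      refine ⟨Function.update σ z (!a), fun D hD => ?_⟩
      by_cases hDz : (z, !a) ∈ cl D
      · exact ⟨z, hz, by simpa using hDz⟩
      by_cases hDC : D = C
      · subst hDC
        exact ⟨v, hv.2, by rw [Function.update_of_ne hv.1]; exact hvC⟩
      obtain ⟨w, hw, hw'⟩ := hσ D (mem_erase.2 ⟨hDC, hD⟩)
      rw [mem_erase] at hw
      rw [mem_dp hw.1] at hw'
      refine ⟨w, hw.2, ?_⟩
      rw [Function.update_of_ne hw.1]
      rcases hw' with h1 | h1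
      · exact h1
      · exact absurd h1.1 hDz
    · push Not at hCs
      refine ⟨Function.update σ z a, fun D hD => ?_⟩
      by_cases hDC : D = C
      · subst hDC
        exact ⟨z, hz, by simpa using hCz⟩
      obtain ⟨w, hw, hw'⟩ := hσ D (mem_erase.2 ⟨hDC, hD⟩)
      have hw1 := hw
      rw [mem_erase] at hw1
      rw [mem_dp hw1.1] at hw'
      refine ⟨w, hw1.2, ?_⟩
      rw [Function.update_of_ne hw1.1]
      rcases hw' with h1 | h1
      · exact h1
      · exact absurd h1.2 (hCs w hw)
  · intro D hD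
    rw [mem_erase] at hD
    obtain ⟨τ, hτ⟩ := h.2 D hD.2
    refine ⟨τ, fun E hE => ?_⟩
    rw [mem_erase, mem_erase] at hE
    obtain ⟨hED, hEC, hE⟩ := hE
    obtain ⟨v, hv, hvE⟩ := hτ E (mem_erase.2 ⟨hED, hE⟩)
    by_cases hvz : v = z
    · subst hvz
      have h1 : τ v = !a := by
        by_contra hne
        have : τ v = a := by cases hs : τ v <;> cases a <;> simp_all
        rw [this] at hvE
        exact hEC (hu E hE hvE)
      rw [h1] at hvE
      obtain ⟨w, hw, hwC⟩ := hτ C (mem_erase.2 ⟨hD.1.symm, hC⟩)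
      have hwv : w ≠ v := by
        rintro rfl
        rw [h1] at hwC
        exact hnt hwC
      exact ⟨w, mem_erase.2 ⟨hwv, hw⟩, (mem_dp hwv).2 (Or.inr ⟨hvE, hwC⟩)⟩
    · exact ⟨v, mem_erase.2 ⟨hvz, hv⟩, (mem_dp hvz).2 (Or.inl hvE)⟩

theorem oc_dp (h : MU cl W S) {z : V} (hz : z ∈ W) {a : Bool} {C : ι} (hC : C ∈ S)
    (hCz : (z, a) ∈ cl C) :
    oc (dp cl z a C) (W.erase z) (S.erase C) = (oc cl W S).erase z := by
  have hnt := h.notaut hC hz hCz
  have hzo : z ∈ oc cl W S := mem_oc.2 ⟨hz, C, hC, a, hCz⟩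
  obtain ⟨D, hD, hDz⟩ := h.signs hzo (!a)
  have hDC : D ≠ C := by
    rintro rfl
    exact hnt hDz
  ext v
  simp only [mem_oc, mem_erase]
  constructor
  · rintro ⟨⟨hvz, hv⟩, E, ⟨hEC, hE⟩, b, hb⟩
    refine ⟨hvz, hv, ?_⟩
    rw [mem_dp hvz] at hb
    rcases hb with hb | hb
    · exact ⟨E, hE, b, hb⟩
    · exact ⟨C, hC, b, hb.2⟩
  · rintro ⟨hvz, hv, E, hE, b, hb⟩
    refine ⟨⟨hvz, hv⟩, ?_⟩
    by_cases hEC : E = C
    · subst hEC
      exact ⟨D, ⟨hDC, hD⟩, b, (mem_dp hvz).2 (Or.inr ⟨hDz, hb⟩)⟩
    · exact ⟨E, ⟨hEC, hE⟩, b, (mem_dp hvz).2 (Or.inl hb)⟩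

/-- For both values of `v`, all the kernels have deficiency less than `j`. -/
def Good (cl : ι → Finset (V × Bool)) (W : Finset V) (S : Finset ι) (j : ℕ) (v : V) : Prop :=
  ∀ b, ∀ T, Ker cl W S v b T → T.card + 1 ≤ (oc cl (W.erase v) T).card + j

theorem exists_good {j : ℕ} (hj : 2 ≤ j) : ∀ (n : ℕ) (cl : ι → Finset (V × Bool)) (W : Finset V)
    (S : Finset ι), W.card = n → MU cl W S → oc cl W S = W → S.card = W.card + j →
    ∃ v ∈ W, Good cl W S j v := by
  intro n
  induction n with
  | zero =>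
    intro cl W S hn h hf hc
    exfalso
    rw [Finset.card_eq_zero] at hn
    subst hn
    obtain ⟨C, hC⟩ := h.nonempty
    obtain ⟨σ, hσ⟩ := h.2 C hC
    have : S.erase C = ∅ := by
      rw [Finset.eq_empty_iff_forall_notMem]
      intro D hD
      obtain ⟨v, hv, _⟩ := hσ D hD
      simp at hv
    have h1 := card_erase_of_mem hC
    rw [this, card_empty] at h1
    rw [card_empty] at hc
    omega
  | succ n ih =>
    intro cl W S hn h hf hc
    by_cases hs : ∃ z ∈ W, ∃ a, (S.filter (fun C => (z, a) ∈ cl C)).card = 1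
    · obtain ⟨z, hz, a, hza⟩ := hs
      obtain ⟨C, hC⟩ := card_eq_one.1 hza
      have hCm : C ∈ S.filter (fun C => (z, a) ∈ cl C) := by rw [hC]; exact mem_singleton_self _
      rw [mem_filter] at hCm
      obtain ⟨hCS, hCz⟩ := hCm
      have hu : ∀ D ∈ S, (z, a) ∈ cl D → D = C := by
        intro D hD hDz
        have : D ∈ S.filter (fun C => (z, a) ∈ cl C) := mem_filter.2 ⟨hD, hDz⟩
        rw [hC, mem_singleton] at this
        exact this
      have hnt := h.notaut hCS hz hCz
      obtain ⟨v, hv, hgood⟩ := ih (dp cl z a C) (W.erase z) (S.erase C)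
        (by rw [card_erase_of_mem hz, hn]; rfl) (h.dp hz hCS hCz hu)
        (by rw [oc_dp h hz hCS hCz, hf])
        (by
          rw [card_erase_of_mem hz, card_erase_of_mem hCS]
          have := card_pos.2 ⟨z, hz⟩
          omega)
      rw [mem_erase] at hv
      refine ⟨v, hv.2, fun b T hT => ?_⟩
      obtain ⟨hTS, hTb, hTM⟩ := hT
      by_cases hzT : z ∈ oc cl (W.erase v) T
      · have hzv : z ∈ W.erase v := oc_subset hzT
        obtain ⟨C', hC', hC''⟩ := hTM.signs hzT a
        have hCC := hu C' (hTS hC') hC''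
        subst hCC
        have hM := hTM.dp hzv hC' hC'' (fun D hD => hu D (hTS hD))
        have ho := oc_dp hTM hzv hC' hC''
        rw [Finset.erase_right_comm] at hM ho
        have h1 := hgood b (T.erase C') ⟨erase_subset_erase _ hTS, ?_, hM⟩
        · rw [ho, card_erase_of_mem hC', card_erase_of_mem hzT] at h1
          have := card_pos.2 ⟨C', hC'⟩
          have := card_pos.2 ⟨z, hzT⟩
          omega
        · intro D hD
          rw [mem_dp hv.1]
          rintro (h2 | h2)
          · exact hTb D (mem_of_mem_erase hD) h2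
          · exact hTb C' hC' h2.2
      · have hno : ∀ D ∈ T, ∀ c, (z, c) ∉ cl D := by
          intro D hD c hDc
          apply hzT
          exact mem_oc.2 ⟨mem_erase.2 ⟨hv.1.symm, hz⟩, D, hD, c, hDc⟩
        have hcl : ∀ D ∈ T, ∀ v' b, (v' ∈ W.erase v ∧ (v', b) ∈ cl D) ↔
            (v' ∈ (W.erase z).erase v ∧ (v', b) ∈ dp cl z a C D) := by
          intro D hD v' b'
          by_cases hv' : v' = z
          · subst hv'
            simp [hno D hD]
          · rw [mem_dp hv']
            simp [hno D hD, hv']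
        have h1 := hgood b T ⟨?_, ?_, hTM.congr hcl⟩
        · rw [oc_congr hcl]
          exact h1
        · intro D hD
          rw [mem_erase]
          refine ⟨?_, hTS hD⟩
          rintro rfl
          exact hno D hD a hCz
        · intro D hD
          rw [mem_dp hv.1]
          rintro (h2 | h2)
          · exact hTb D hD h2
          · exact hno D hD _ h2.1
    · push Not at hs
      obtain ⟨v, hv⟩ : W.Nonempty := by
        rw [← Finset.card_pos]; omega
      refine ⟨v, hv, fun b T hT => ?_⟩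
      by_contra hcon
      rw [not_le] at hcon
      have hv' : v ∈ oc cl W S := by rw [hf]; exact hv
      have hTS := hT.ssub h hv'
      have hvT := hT.mem_oc h hv'
      have h1 := h.strict hTS
      rw [hf] at h1
      rw [oc_erase, card_erase_of_mem hvT] at hcon
      have h2 := card_pos.2 ⟨v, hvT⟩
      have e1 : T.card + 1 = (oc cl W T).card + j := by omega
      have e2 : (S \ T).card = S.card - T.card := card_sdiff_of_subset hT.1
      have e3 : (W \ oc cl W T).card = W.card - (oc cl W T).card :=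
        card_sdiff_of_subset oc_subset
      have e4 := card_le_card (oc_subset : oc cl W T ⊆ W)
      have e5 := card_le_card hT.1
      have hM : MU cl (W \ oc cl W T) (S \ T) := by
        constructor
        · intro hsat
          have := (h.satSub hTS).ext hsat
          rw [union_sdiff_of_subset hT.1] at this
          exact h.1 this
        · intro C hC
          rw [mem_sdiff] at hC
          apply sat_of_card
          intro R hR
          have hd : Disjoint T R := by
            rw [Finset.disjoint_left]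
            intro x hx hx'
            have := hR hx'
            rw [mem_erase, mem_sdiff] at this
            exact this.2.2 hx
          have hTR : T ∪ R ⊂ S := by
            rw [Finset.ssubset_iff_subset_ne]
            refine ⟨union_subset hT.1 (hR.trans ((erase_subset _ _).trans sdiff_subset)), ?_⟩
            intro he
            rw [← he, mem_union] at hC
            rcases hC.1 with h3 | h3
            · exact hC.2 h3
            · have := hR h3
              simp at this
          have h3 := h.strict hTR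
          rw [card_union_of_disjoint hd, card_oc_union, hf] at h3
          omega
      have hfull : oc cl (W \ oc cl W T) (S \ T) = W \ oc cl W T := by
        apply Finset.Subset.antisymm oc_subset
        intro w hw
        rw [mem_sdiff] at hw
        have hwS : w ∈ oc cl W S := by rw [hf]; exact hw.1
        obtain ⟨_, C, hC, c, hc⟩ := mem_oc.1 hwS
        refine mem_oc.2 ⟨mem_sdiff.2 hw, C, ?_, c, hc⟩
        rw [mem_sdiff]
        refine ⟨hC, fun hCT => hw.2 (mem_oc.2 ⟨hw.1, C, hCT, c, hc⟩)⟩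
      have hne : (W \ oc cl W T).Nonempty := by
        rw [← Finset.card_pos]
        have h3 : (S.filter (fun C => (v, b) ∈ cl C)).card ≤ (S \ T).card := by
          apply card_le_card
          intro C hC
          rw [mem_filter] at hC
          rw [mem_sdiff]
          exact ⟨hC.1, fun hCT => hT.2.1 C hCT hC.2⟩
        have h4 : 0 < (S.filter (fun C => (v, b) ∈ cl C)).card := by
          obtain ⟨C, hC, hC'⟩ := h.signs hv' b
          exact card_pos.2 ⟨C, mem_filter.2 ⟨hC, hC'⟩⟩
        have h5 := hs v hv b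
        omega
      obtain ⟨w, hw, hw'⟩ := one_one _ _ _ rfl hM hfull (by omega) hne
      rw [mem_sdiff] at hw
      apply hs w hw.1 true
      rw [← hw' true]
      congr 1
      ext C
      simp only [mem_filter, mem_sdiff]
      constructor
      · rintro ⟨h3, h4⟩
        exact ⟨⟨h3, fun hCT => hw.2 (mem_oc.2 ⟨hw.1, C, hCT, true, h4⟩)⟩, h4⟩
      · rintro ⟨⟨h3, _⟩, h4⟩
        exact ⟨h3, h4⟩

end Pool.Agent.R534.MF
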