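import Pool.Agent.R534.MF.Sat
import Pool.Agent.R534.MF.DP

/-!
# Trees of minimal unsatisfiable families of deficiency one
-/

set_option linter.unusedSectionVars false

namespace Pool.Agent.R534.MF

open Finset

/-! ### Crossing numbers -/

/-- the variables whose edge `(e, M e)` crosses the cut -/
noncomputable def chiS (M : ℕ → Cla) (E : Finset ℕ) (P : Cla → Prop) (Q : ℕ → Prop) :
    Finset ℕ := by
  classical
  exact E.filter (fun e => Xor (P (M e)) (Q e))

/-- the number of the edges `(e, M e)` which cross the cut -/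
noncomputable def chi (M : ℕ → Cla) (E : Finset ℕ) (P : Cla → Prop) (Q : ℕ → Prop) : ℕ :=
  (chiS M E P Q).card

theorem mem_chiS {M : ℕ → Cla} {E : Finset ℕ} {P : Cla → Prop} {Q : ℕ → Prop} {e : ℕ} :
    e ∈ chiS M E P Q ↔ e ∈ E ∧ Xor (P (M e)) (Q e) := by
  classical
  simp [chiS]

theorem chi_le {M : ℕ → Cla} {E : Finset ℕ} {P P' P'' : Cla → Prop} {Q Q' Q'' : ℕ → Prop}
    (h : ∀ e ∈ E, Xor (P (M e)) (Q e) → Xor (P' (M e)) (Q' e) ∨ Xor (P'' (M e)) (Q'' e)) :
    chi M E P Q ≤ chi M E P' Q' + chi M E P'' Q'' := by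
  unfold chi
  refine le_trans (card_le_card ?_) (card_union_le _ _)
  intro e he
  rw [mem_chiS] at he
  rw [mem_union, mem_chiS, mem_chiS]
  rcases h e he.1 he.2 with h1 | h1
  · exact Or.inl ⟨he.1, h1⟩
  · exact Or.inr ⟨he.1, h1⟩

theorem chi_or {M : ℕ → Cla} {E : Finset ℕ} {P P' : Cla → Prop} {Q Q' : ℕ → Prop} :
    chi M E (fun C => P C ∨ P' C) (fun e => Q e ∨ Q' e) ≤ chi M E P Q + chi M E P' Q' := by
  apply chi_le
  intro e _
  unfold Xor
  tauto

theorem chi_sub {M : ℕ → Cla} {E : Finset ℕ} {P P' : Cla → Prop} {Q Q' : ℕ → Prop} :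
    chi M E (fun C => P C ∧ ¬ P' C) (fun e => Q e ∧ ¬ Q' e) ≤
      chi M E P Q + chi M E P' Q' := by
  apply chi_le
  intro e _
  unfold Xor
  tauto

theorem chi_congr {M : ℕ → Cla} {E : Finset ℕ} {P P' : Cla → Prop} {Q Q' : ℕ → Prop}
    (h1 : ∀ C, P C ↔ P' C) (h2 : ∀ e, Q e ↔ Q' e) : chi M E P Q = chi M E P' Q' := by
  have e1 : P = P' := funext fun C => propext (h1 C)
  have e2 : Q = Q' := funext fun e => propext (h2 e)
  rw [e1, e2]

/-- a matching of the variables `E` into the clauses `F` -/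
structure Mch (M : ℕ → Cla) (E : Finset ℕ) (F : Finset Cla) : Prop where
  inj : Set.InjOn M E
  mem : ∀ e ∈ E, M e ∈ F
  occ : ∀ e ∈ E, ∃ b, (e, b) ∈ M e

/-- the number of variables of `W` matched outside `K` -/
def exc (M : ℕ → Cla) (W : Finset ℕ) (K : Finset Cla) : ℕ := (W.filter (fun e => M e ∉ K)).card

theorem chi_cluster {M : ℕ → Cla} {E W X : Finset ℕ} {F K A : Finset Cla} (hM : Mch M E F)
    (hW : W ⊆ E) (hX : X ⊆ W) (hc : A.card ≤ X.card + 1)
    (hcl : ∀ e ∈ X, ∀ C ∈ K, (∃ b, (e, b) ∈ C) → C ∈ A) :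
    chi M E (fun C => C ∈ A) (fun e => e ∈ X) ≤ 2 * exc M W K + 1 := by
  classical
  unfold chi exc
  set F1 := X.filter (fun e => M e ∉ A) with hF1
  set F2 := (E \ X).filter (fun e => M e ∈ A) with hF2
  set F3 := X.filter (fun e => M e ∈ A) with hF3
  have h1 : chiS M E (fun C => C ∈ A) (fun e => e ∈ X) ⊆ F1 ∪ F2 := by
    intro e he
    rw [mem_chiS] at he
    rw [mem_union, hF1, hF2, mem_filter, mem_filter, mem_sdiff]
    rcases he.2 with h | h
    · exact Or.inr ⟨⟨he.1, h.2⟩, h.1⟩
    · exact Or.inl ⟨h.1, h.2⟩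
  have h2 : F1 ⊆ W.filter (fun e => M e ∉ K) := by
    intro e he
    rw [hF1, mem_filter] at he
    rw [mem_filter]
    refine ⟨hX he.1, fun hK => he.2 ?_⟩
    exact hcl e he.1 _ hK (hM.occ e (hW (hX he.1)))
  have h3 : (F2 ∪ F3).card ≤ A.card := by
    have hsub : F2 ∪ F3 ⊆ E := by
      intro e he
      rw [mem_union, hF2, hF3, mem_filter, mem_filter, mem_sdiff] at he
      rcases he with he | he
      · exact he.1.1
      · exact hW (hX he.1)
    rw [← card_image_of_injOn (s := F2 ∪ F3) (f := M) (fun x hx y hy => hM.inj (hsub hx) (hsub hy))]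
    apply card_le_card
    intro C hC
    rw [mem_image] at hC
    obtain ⟨e, he, rfl⟩ := hC
    rw [mem_union, hF2, hF3, mem_filter, mem_filter] at he
    rcases he with he | he
    · exact he.2
    · exact he.2
  have h4 : (F2 ∪ F3).card = F2.card + F3.card := by
    apply card_union_of_disjoint
    rw [Finset.disjoint_left]
    intro e he he'
    rw [hF2, mem_filter, mem_sdiff] at he
    rw [hF3, mem_filter] at he'
    exact he.1.2 he'.1
  have h5 : F3.card + F1.card = X.card := by
    rw [hF3, hF1]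
    exact card_filter_add_card_filter_not _
  have h6 := (card_le_card h1).trans (card_union_le _ _)
  have h7 := card_le_card h2
  omega

/-! ### Clusters -/

/-- subtrees are porous -/
def PorT (K : Finset Cla) (W : Finset ℕ) (t : PT) : Prop :=
  ∀ M E F, Mch M E F → W ⊆ E → chi M E (fun C => C ∈ t.cls) (fun e => e ∈ t.vrs) ≤
    4 * exc M W K + 3

theorem chi_cl_leaf {M : ℕ → Cla} {E : Finset ℕ} {F : Finset Cla} (hM : Mch M E F) (C : Cla) :
    chi M E (fun D => D ∈ (PT.cl C).cls) (fun e => e ∈ (PT.cl C).vrs) ≤ 1 := by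
  unfold chi
  rw [card_le_one]
  intro x hx y hy
  rw [mem_chiS] at hx hy
  simp only [PT.cls, PT.vrs, List.mem_singleton, List.not_mem_nil, Xor, not_false_eq_true,
    and_true, false_and, or_false] at hx hy
  exact hM.inj hx.1 hy.1 (hx.2.trans hy.2.symm)

theorem chi_vr_leaf {M : ℕ → Cla} {E : Finset ℕ} (v : ℕ) :
    chi M E (fun D => D ∈ (PT.vr v).cls) (fun e => e ∈ (PT.vr v).vrs) ≤ 1 := by
  unfold chi
  rw [card_le_one]
  intro x hx y hy
  rw [mem_chiS] at hx hy
  simp only [PT.cls, PT.vrs, List.mem_singleton, List.not_mem_nil, Xor, not_false_eq_true,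
    and_true, false_and, false_or] at hx hy
  rw [hx.2, hy.2]

theorem chi_nil {M : ℕ → Cla} {E : Finset ℕ} :
    chi M E (fun D => D ∈ PT.nil.cls) (fun e => e ∈ PT.nil.vrs) = 0 := by
  unfold chi
  rw [card_eq_zero, eq_empty_iff_forall_notMem]
  intro x hx
  rw [mem_chiS] at hx
  simp [PT.cls, PT.vrs, Xor] at hx

/-- good trees -/
structure CluOK (K : List Cla) (W : List ℕ) (t : PT) : Prop where
  subC : ∀ C ∈ t.cls, C ∈ K
  subV : ∀ v ∈ t.vrs, v ∈ W
  ndC : t.cls.Nodup
  ndV : t.vrs.Nodup
  len : t.cls.length = t.vrs.length + 1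
  closed : ∀ e ∈ t.vrs, ∀ C ∈ K, (∃ b, (e, b) ∈ C) → C ∈ t.cls

theorem CluOK.chi {K : List Cla} {W : List ℕ} {t : PT} (h : CluOK K W t) {M : ℕ → Cla}
    {E : Finset ℕ} {F : Finset Cla} (hM : Mch M E F) (hW : W.toFinset ⊆ E) :
    chi M E (fun C => C ∈ t.cls) (fun e => e ∈ t.vrs) ≤ 2 * exc M W.toFinset K.toFinset + 1 := by
  have h1 := chi_cluster (A := t.cls.toFinset) (X := t.vrs.toFinset) (K := K.toFinset) hM hW
    (by
      intro e he
      rw [List.mem_toFinset] at he ⊢
      exact h.subV e he)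
    (by
      rw [List.toFinset_card_of_nodup h.ndC, List.toFinset_card_of_nodup h.ndV, h.len])
    (by
      intro e he C hC hb
      rw [List.mem_toFinset] at he hC ⊢
      exact h.closed e he C hC hb)
  rwa [chi_congr (P' := fun C => C ∈ t.cls) (Q' := fun e => e ∈ t.vrs)
    (fun C => List.mem_toFinset) (fun e => List.mem_toFinset)] at h1

instance instDecIns : DecidableEq Ins := inferInstance

/-- the literals of a cluster -/
def clC (c : Clu) : Finset (ℕ × Bool) := c.2.toFinset

/-- invariant of the merging process -/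
structure MInv (K : List Cla) (W : List ℕ) (R : Finset ℕ) (L : List Clu) : Prop where
  mu : MU clC R L.toFinset
  full : oc clC R L.toFinset = R
  card : L.length = R.card + 1
  nd : L.Nodup
  sub : R ⊆ W.toFinset
  clu : ∀ c ∈ L, ∃ t : PT, c.1 = t.post ∧ CluOK K W t ∧ t.All (PorT K.toFinset W.toFinset) ∧
    (∀ v ∈ t.vrs, v ∉ R) ∧ ∀ v b, (v, b) ∈ c.2 ↔ v ∈ R ∧ ∃ C ∈ t.cls, (v, b) ∈ C
  disj : ∀ c ∈ L, ∀ d ∈ L, c ≠ d → (∀ C ∈ clsI c.1, C ∉ clsI d.1) ∧ ∀ v ∈ vrsI c.1, v ∉ vrsI d.1
  covC : ∀ C ∈ K, ∃ c ∈ L, C ∈ clsI c.1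
  covV : ∀ v ∈ W, v ∉ R → ∃ c ∈ L, v ∈ vrsI c.1

theorem MU.reindex {ι κ V : Type*} [DecidableEq ι] [DecidableEq κ] [DecidableEq V]
    {cl : ι → Finset (V × Bool)} {cl₂ : κ → Finset (V × Bool)} {W : Finset V} {S : Finset ι}
    (f : ι → κ) (hcl : ∀ i ∈ S, ∀ v ∈ W, ∀ b, (v, b) ∈ cl i ↔ (v, b) ∈ cl₂ (f i))
    (h : MU cl W S) : MU cl₂ W (S.image f) := by
  constructor
  · rintro ⟨σ, hσ⟩
    apply h.1
    refine ⟨σ, fun C hC => ?_⟩
    obtain ⟨v, hv, hv'⟩ := hσ (f C) (mem_image_of_mem _ hC)
    exact ⟨v, hv, (hcl C hC v hv _).2 hv'⟩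
  · intro D hD
    rw [mem_image] at hD
    obtain ⟨i, hi, rfl⟩ := hD
    obtain ⟨σ, hσ⟩ := h.2 i hi
    refine ⟨σ, fun E hE => ?_⟩
    rw [mem_erase, mem_image] at hE
    obtain ⟨hne, j, hj, rfl⟩ := hE
    obtain ⟨v, hv, hv'⟩ := hσ j (mem_erase.2 ⟨fun h => hne (by rw [h]), hj⟩)
    exact ⟨v, hv, (hcl j hj v hv _).1 hv'⟩

theorem minit_inv {K : List Cla} {W : List ℕ} (hK : K.Nodup) (hW : W.Nodup)
    (h : MU cl0 W.toFinset K.toFinset) (hf : oc cl0 W.toFinset K.toFinset = W.toFinset)
    (hc : K.length = W.length + 1) : MInv K W W.toFinset (minit K W) := by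
  have himg : (minit K W).toFinset = K.toFinset.image
      (fun C => (([lc C], C.filter (fun l => decide (l.1 ∈ W))) : Clu)) := by
    ext c
    simp [minit]
  have hmem : ∀ c, c ∈ minit K W ↔ ∃ C ∈ K, c = (([lc C], C.filter (fun l => decide (l.1 ∈ W))) : Clu) := by
    intro c
    unfold minit
    rw [List.mem_map]
    constructor
    · rintro ⟨C, h1, h2⟩; exact ⟨C, h1, h2.symm⟩
    · rintro ⟨C, h1, h2⟩; exact ⟨C, h1, h2.symm⟩
  have hcls : ∀ C : Cla, clsI [lc C] = [C] := fun _ => rfl
  have hvrs : ∀ C : Cla, vrsI [lc C] = [] := fun _ => rfl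
  refine ⟨?_, ?_, ?_, ?_, Subset.refl _, ?_, ?_, ?_, ?_⟩
  · rw [himg]
    refine MU.reindex _ ?_ h
    intro C _ v hv b
    rw [List.mem_toFinset] at hv
    simp [cl0, clC, hv]
  · apply Finset.Subset.antisymm oc_subset
    intro v hv
    rw [← hf, mem_oc] at hv
    obtain ⟨h1, C, hC, b, hb⟩ := hv
    refine mem_oc.2 ⟨h1, (([lc C], C.filter (fun l => decide (l.1 ∈ W))) : Clu), ?_, b, ?_⟩
    · rw [himg]
      exact mem_image.2 ⟨C, hC, rfl⟩
    · rw [List.mem_toFinset] at h1
      simp only [cl0, List.mem_toFinset] at hb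
      simp [clC, hb, h1]
  · unfold minit
    rw [List.length_map, hc, List.toFinset_card_of_nodup hW]
  · unfold minit
    refine List.Nodup.map ?_ hK
    intro C D hCD
    have := congrArg (fun c : Clu => clsI c.1) hCD
    simp only [hcls] at this
    exact (List.cons.inj this).1
  · intro c hc
    rw [hmem] at hc
    obtain ⟨C, hC, rfl⟩ := hc
    refine ⟨PT.cl C, rfl, ⟨?_, ?_, ?_, ?_, rfl, ?_⟩, ?_, ?_, ?_⟩
    · intro D hD
      rw [PT.cls, List.mem_singleton] at hD
      rw [hD]; exact hC
    · simp [PT.vrs]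
    · simp [PT.cls]
    · simp [PT.vrs]
    · simp [PT.vrs]
    · intro M E F hM _
      have := chi_cl_leaf hM C
      omega
    · simp [PT.vrs]
    · intro v b
      simp [PT.cls, and_comm]
  · intro c hc d hd hcd
    rw [hmem] at hc hd
    obtain ⟨C, hC, rfl⟩ := hc
    obtain ⟨D, hD, rfl⟩ := hd
    simp only [hcls, hvrs]
    refine ⟨?_, by simp⟩
    intro X hX hX'
    rw [List.mem_singleton] at hX hX'
    subst hX
    subst hX'
    exact hcd rfl
  · intro C hC
    exact ⟨_, (hmem _).2 ⟨C, hC, rfl⟩, by simp [hcls]⟩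
  · intro v hv hv'
    exact absurd (List.mem_toFinset.2 hv) hv'

theorem length_three {α : Type*} (L : List α) (p q : α → Bool)
    (h : ∀ c ∈ L, ¬ (p c = true ∧ q c = true)) :
    (L.filter p).length + (L.filter q).length + (L.filter (fun c => !(p c || q c))).length =
      L.length := by
  induction L with
  | nil => rfl
  | cons c L ih =>
    have h1 := ih (fun d hd => h d (List.mem_cons_of_mem _ hd))
    have h2 := h c List.mem_cons_self
    cases hp : p c <;> cases hq : q c
    · simp only [List.filter_cons, hp, hq, Bool.or_self, Bool.not_false, if_true,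
        List.length_cons, Bool.false_eq_true, if_false]
      omega
    · simp only [List.filter_cons, hp, hq, Bool.or_true, Bool.not_true, if_true,
        List.length_cons, Bool.false_eq_true, if_false]
      omega
    · simp only [List.filter_cons, hp, hq, Bool.or_false, Bool.not_true, if_true,
        List.length_cons, Bool.false_eq_true, if_false]
      omega
    · exact absurd ⟨hp, hq⟩ h2

theorem exists_gd {K : List Cla} {W : List ℕ} {R : Finset ℕ} {L : List Clu}
    (h : MInv K W R L) (hR : R.Nonempty) : ∃ w ∈ W, gd L w = true := by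
  obtain ⟨w, hw, hw'⟩ := one_one _ _ _ rfl h.mu h.full
    (by rw [List.toFinset_card_of_nodup h.nd]; exact h.card) hR
  refine ⟨w, List.mem_toFinset.1 (h.sub hw), ?_⟩
  have key : ∀ b, (L.filter (fun c => decide ((w, b) ∈ c.2))).length = 1 := by
    intro b
    rw [← List.toFinset_card_of_nodup (h.nd.filter _), ← hw' b]
    congr 1
    ext c
    simp [clC]
  unfold gd
  rw [Bool.and_eq_true, Bool.and_eq_true, decide_eq_true_iff, decide_eq_true_iff,
    List.all_eq_true]
  refine ⟨key true, key false, ?_⟩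
  intro c hc
  have := h.mu.notaut (List.mem_toFinset.2 hc) hw (a := true)
  simp only [clC, List.mem_toFinset, Bool.not_true] at this
  simp only [Bool.not_eq_true', Bool.and_eq_false_iff, decide_eq_false_iff_not]
  by_cases h1 : (w, true) ∈ c.2
  · exact Or.inr (this h1)
  · exact Or.inl h1

theorem mrg_inv {K : List Cla} {W : List ℕ} {R : Finset ℕ} {L : List Clu} {w : ℕ}
    (h : MInv K W R L) (hw : w ∈ W) (hg : gd L w = true) :
    w ∈ R ∧ MInv K W (R.erase w) (mrg L w) := by
  unfold gd at hg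
  rw [Bool.and_eq_true, Bool.and_eq_true, decide_eq_true_iff, decide_eq_true_iff,
    List.all_eq_true] at hg
  obtain ⟨g1, g2, g3⟩ := hg
  obtain ⟨c, hc⟩ := List.length_eq_one_iff.1 g1
  obtain ⟨d, hd⟩ := List.length_eq_one_iff.1 g2
  have hcm : c ∈ L.filter (fun c => decide ((w, true) ∈ c.2)) := by rw [hc]; simp
  have hdm : d ∈ L.filter (fun c => decide ((w, false) ∈ c.2)) := by rw [hd]; simp
  rw [List.mem_filter, decide_eq_true_iff] at hcm hdm
  obtain ⟨hcL, hcw⟩ := hcm
  obtain ⟨hdL, hdw⟩ := hdm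
  have huc : ∀ e ∈ L, (w, true) ∈ e.2 → e = c := by
    intro e he hew
    have : e ∈ L.filter (fun c => decide ((w, true) ∈ c.2)) := by
      rw [List.mem_filter, decide_eq_true_iff]; exact ⟨he, hew⟩
    rw [hc, List.mem_singleton] at this
    exact this
  have hud : ∀ e ∈ L, (w, false) ∈ e.2 → e = d := by
    intro e he hew
    have : e ∈ L.filter (fun c => decide ((w, false) ∈ c.2)) := by
      rw [List.mem_filter, decide_eq_true_iff]; exact ⟨he, hew⟩
    rw [hd, List.mem_singleton] at this
    exact this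
  have hboth : ∀ e ∈ L, ¬ ((w, true) ∈ e.2 ∧ (w, false) ∈ e.2) := by
    intro e he h1
    have := g3 e he
    simp [h1.1, h1.2] at this
  have hcd : c ≠ d := by
    rintro rfl
    exact hboth c hcL ⟨hcw, hdw⟩
  obtain ⟨tc, htc, okc, allc, nrc, litc⟩ := h.clu c hcL
  obtain ⟨td, htd, okd, alld, nrd, litd⟩ := h.clu d hdL
  have hwR : w ∈ R := ((litc w true).1 hcw).1
  refine ⟨hwR, ?_⟩
  set m : Clu := (c.1 ++ (d.1 ++ [jn, lv w, jn]),
    (c.2 ++ d.2).filter (fun l => !decide (l.1 = w))) with hm
  set rest := L.filter (fun c => !(decide ((w, true) ∈ c.2) || decide ((w, false) ∈ c.2)))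
    with hrest
  have hmrg : mrg L w = m :: rest := by
    unfold mrg
    rw [hc, hd, hm, hrest]
    simp only [List.flatMap_cons, List.flatMap_nil, List.append_nil]
  have mrest : ∀ e, e ∈ rest ↔ e ∈ L ∧ e ≠ c ∧ e ≠ d := by
    intro e
    rw [hrest, List.mem_filter]
    simp only [Bool.not_eq_true', Bool.or_eq_false_iff, decide_eq_false_iff_not]
    constructor
    · rintro ⟨h1, h2, h3⟩
      refine ⟨h1, ?_, ?_⟩
      · rintro rfl; exact h2 hcw
      · rintro rfl; exact h3 hdw
    · rintro ⟨h1, h2, h3⟩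
      exact ⟨h1, fun h4 => h2 (huc e h1 h4), fun h4 => h3 (hud e h1 h4)⟩
  have now : ∀ e ∈ rest, ∀ b, (w, b) ∉ e.2 := by
    intro e he b hb
    rw [mrest] at he
    cases b
    · exact he.2.2 (hud e he.1 hb)
    · exact he.2.1 (huc e he.1 hb)
  have mm2 : ∀ v b, (v, b) ∈ m.2 ↔ v ≠ w ∧ ((v, b) ∈ c.2 ∨ (v, b) ∈ d.2) := by
    intro v b
    rw [hm]
    simp [and_comm]
    tauto
  have clsm : clsI m.1 = clsI c.1 ++ clsI d.1 := by
    rw [hm]
    simp [clsI, jn, lv, insC]
  have vrsm : vrsI m.1 = vrsI c.1 ++ (vrsI d.1 ++ [w]) := by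
    rw [hm]
    simp [vrsI, jn, lv, insV]
  have hcls : ∀ e ∈ L, ∀ t : PT, e.1 = t.post → clsI e.1 = t.cls ∧ vrsI e.1 = t.vrs := by
    intro e _ t ht
    rw [ht]
    exact ⟨PT.clsI_post t, PT.vrsI_post t⟩
  have hvR : ∀ e ∈ L, ∀ v ∈ vrsI e.1, v ∉ R := by
    intro e he v hv
    obtain ⟨t, ht, _, _, h3, _⟩ := h.clu e he
    rw [(hcls e he t ht).2] at hv
    exact h3 v hv
  have hmL : m ∉ L := by
    intro hmL
    refine hvR m hmL w ?_ hwR
    rw [vrsm]
    simp
  have hset : (m :: rest).toFinset = (L.toFinset.erase c).image (fun e => if e = d then m else e) := by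
    ext e
    rw [List.mem_toFinset, List.mem_cons, mem_image, mrest]
    constructor
    · rintro (rfl | ⟨h1, h2, h3⟩)
      · exact ⟨d, mem_erase.2 ⟨hcd.symm, List.mem_toFinset.2 hdL⟩, if_pos rfl⟩
      · exact ⟨e, mem_erase.2 ⟨h2, List.mem_toFinset.2 h1⟩, if_neg h3⟩
    · rintro ⟨x, hx, rfl⟩
      rw [mem_erase, List.mem_toFinset] at hx
      by_cases hxd : x = d
      · rw [if_pos hxd]; exact Or.inl rfl
      · rw [if_neg hxd]; exact Or.inr ⟨hx.2, hx.1, hxd⟩
  have t1 : CluOK K W (PT.join (PT.join tc td) (PT.vr w)) := by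
    have hdj := h.disj c hcL d hdL hcd
    rw [(hcls c hcL tc htc).1, (hcls c hcL tc htc).2, (hcls d hdL td htd).1,
      (hcls d hdL td htd).2] at hdj
    refine ⟨?_, ?_, ?_, ?_, ?_, ?_⟩
    · intro C hC
      simp only [PT.cls, List.append_nil, List.mem_append] at hC
      rcases hC with hC | hC
      · exact okc.subC C hC
      · exact okd.subC C hC
    · intro v hv
      simp only [PT.vrs, List.mem_append, List.mem_singleton] at hv
      rcases hv with (hv | hv) | hv
      · exact okc.subV v hv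
      · exact okd.subV v hv
      · rw [hv]; exact hw
    · simp only [PT.cls, List.append_nil]
      rw [List.nodup_append]
      refine ⟨okc.ndC, okd.ndC, ?_⟩
      rintro a ha b hb rfl
      exact hdj.1 a ha hb
    · simp only [PT.vrs]
      rw [List.nodup_append, List.nodup_append]
      refine ⟨⟨okc.ndV, okd.ndV, ?_⟩, by simp, ?_⟩
      · rintro a ha b hb rfl
        exact hdj.2 a ha hb
      · rintro a ha b hb rfl
        rw [List.mem_singleton] at hb
        subst hb
        rw [List.mem_append] at ha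
        rcases ha with ha | ha
        · exact nrc a ha hwR
        · exact nrd a ha hwR
    · simp only [PT.cls, PT.vrs, List.append_nil, List.length_append, List.length_singleton]
      have e1 := okc.len
      have e2 := okd.len
      omega
    · intro e he C hC hb
      simp only [PT.vrs, List.mem_append, List.mem_singleton] at he
      simp only [PT.cls, List.append_nil, List.mem_append]
      rcases he with (he | he) | rfl
      · exact Or.inl (okc.closed e he C hC hb)
      · exact Or.inr (okd.closed e he C hC hb)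
      · obtain ⟨b, hb⟩ := hb
        obtain ⟨x, hx, hCx⟩ := h.covC C hC
        obtain ⟨tx, htx, _, _, _, litx⟩ := h.clu x hx
        rw [(hcls x hx tx htx).1] at hCx
        have h4 := (litx e b).2 ⟨hwR, C, hCx, hb⟩
        cases b
        · have h5 := hud x hx h4
          subst h5
          right
          rw [← (hcls x hx tx htx).1, (hcls x hdL td htd).1] at hCx
          exact hCx
        · have h5 := huc x hx h4
          subst h5
          left
          rw [← (hcls x hx tx htx).1, (hcls x hcL tc htc).1] at hCx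
          exact hCx
  rw [hmrg]
  refine ⟨?_, ?_, ?_, ?_, (erase_subset _ _).trans h.sub, ?_, ?_, ?_, ?_⟩
  · -- mu
    have h1 := h.mu.dp hwR (a := true) (C := c) (List.mem_toFinset.2 hcL)
      (by simpa [clC] using hcw) (by
        intro e he hew
        rw [List.mem_toFinset] at he
        exact huc e he (by simpa [clC] using hew))
    rw [hset]
    refine MU.reindex _ ?_ h1
    intro e he v hv b
    rw [mem_erase] at hv
    rw [mem_erase, List.mem_toFinset] at he
    rw [mem_dp hv.1]
    by_cases hed : e = d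
    · subst hed
      simp only [if_true, clC, List.mem_toFinset, Bool.not_true, hdw, true_and]
      rw [mm2]
      constructor
      · rintro (h2 | h2)
        · exact ⟨hv.1, Or.inr h2⟩
        · exact ⟨hv.1, Or.inl h2⟩
      · rintro ⟨_, h2 | h2⟩
        · exact Or.inr h2
        · exact Or.inl h2
    · simp only [if_neg hed, clC, List.mem_toFinset, Bool.not_true]
      constructor
      · rintro (h2 | h2)
        · exact h2
        · exact absurd (hud e he.2 h2.1) hed
      · exact fun h2 => Or.inl h2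
  · -- full
    apply Finset.Subset.antisymm oc_subset
    intro v hv
    have hv' := hv
    rw [mem_erase] at hv
    have h1 := hv.2
    rw [← h.full, mem_oc] at h1
    obtain ⟨_, e, he, b, hb⟩ := h1
    rw [List.mem_toFinset] at he
    simp only [clC, List.mem_toFinset] at hb
    rw [mem_oc]
    refine ⟨hv', ?_⟩
    by_cases hec : e = c ∨ e = d
    · refine ⟨m, by simp, b, ?_⟩
      simp only [clC, List.mem_toFinset]
      rw [mm2]
      refine ⟨hv.1, ?_⟩
      rcases hec with rfl | rfl
      · exact Or.inl hb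
      · exact Or.inr hb
    · push Not at hec
      refine ⟨e, ?_, b, by simpa [clC] using hb⟩
      rw [List.mem_toFinset, List.mem_cons, mrest]
      exact Or.inr ⟨he, hec.1, hec.2⟩
  · -- card
    have h1 := length_three L (fun c => decide ((w, true) ∈ c.2))
      (fun c => decide ((w, false) ∈ c.2)) (by
        intro e he h2
        simp only [decide_eq_true_eq] at h2
        exact hboth e he h2)
    rw [g1, g2, ← hrest, h.card] at h1
    rw [List.length_cons, card_erase_of_mem hwR]
    have := card_pos.2 ⟨w, hwR⟩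
    omega
  · -- nodup
    rw [List.nodup_cons]
    refine ⟨fun h1 => hmL ((mrest m).1 h1).1, ?_⟩
    rw [hrest]
    exact h.nd.filter _
  · -- clusters
    intro e he
    rw [List.mem_cons] at he
    rcases he with rfl | he
    · refine ⟨PT.join (PT.join tc td) (PT.vr w), ?_, t1, ?_, ?_, ?_⟩
      · rw [hm]
        simp only [PT.post, htc, htd]
        simp
      · refine ⟨?_, ⟨?_, allc, alld⟩, ?_⟩
        · intro M E F hM hWE
          have := t1.chi hM hWE
          omega
        · intro M E F hM hWE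
          have e1 := okc.chi hM hWE
          have e2 := okd.chi hM hWE
          have e3 := chi_or (M := M) (E := E) (P := fun C => C ∈ tc.cls) (P' := fun C => C ∈ td.cls)
            (Q := fun e => e ∈ tc.vrs) (Q' := fun e => e ∈ td.vrs)
          rw [chi_congr (P' := fun C => C ∈ (PT.join tc td).cls)
            (Q' := fun e => e ∈ (PT.join tc td).vrs)
            (fun C => by rw [PT.cls, List.mem_append])
            (fun e => by rw [PT.vrs, List.mem_append])] at e3
          omega
        · intro M E F hM hWE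
          have := chi_vr_leaf (M := M) (E := E) w
          omega
      · intro v hv
        simp only [PT.vrs, List.mem_append, List.mem_singleton] at hv
        rw [mem_erase]
        rintro ⟨h1, h2⟩
        rcases hv with (hv | hv) | hv
        · exact nrc v hv h2
        · exact nrd v hv h2
        · exact h1 hv
      · intro v b
        rw [mm2, litc, litd, mem_erase]
        simp only [PT.cls, List.append_nil, List.mem_append]
        constructor
        · rintro ⟨h1, ⟨h2, C, h3, h4⟩ | ⟨h2, C, h3, h4⟩⟩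
          · exact ⟨⟨h1, h2⟩, C, Or.inl h3, h4⟩
          · exact ⟨⟨h1, h2⟩, C, Or.inr h3, h4⟩
        · rintro ⟨⟨h1, h2⟩, C, h3 | h3, h4⟩
          · exact ⟨h1, Or.inl ⟨h2, C, h3, h4⟩⟩
          · exact ⟨h1, Or.inr ⟨h2, C, h3, h4⟩⟩
    · obtain ⟨t, ht, ok, al, nr, lit⟩ := h.clu e ((mrest e).1 he).1
      refine ⟨t, ht, ok, al, fun v hv hv' => nr v hv (mem_of_mem_erase hv'), ?_⟩
      intro v b
      constructor
      · intro h1
        obtain ⟨h2, h3⟩ := (lit v b).1 h1
        refine ⟨mem_erase.2 ⟨?_, h2⟩, h3⟩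
        rintro rfl
        exact now e he b h1
      · rintro ⟨h1, h2⟩
        exact (lit v b).2 ⟨mem_of_mem_erase h1, h2⟩
  · -- disjointness
    have key : ∀ e ∈ rest, (∀ C ∈ clsI m.1, C ∉ clsI e.1) ∧ ∀ v ∈ vrsI m.1, v ∉ vrsI e.1 := by
      intro e he
      obtain ⟨h1, h2, h3⟩ := (mrest e).1 he
      have e1 := h.disj c hcL e h1 h2.symm
      have e2 := h.disj d hdL e h1 h3.symm
      rw [clsm, vrsm]
      constructor
      · intro C hC
        rw [List.mem_append] at hC
        rcases hC with hC | hC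
        · exact e1.1 C hC
        · exact e2.1 C hC
      · intro v hv
        rw [List.mem_append, List.mem_append, List.mem_singleton] at hv
        rcases hv with hv | hv | hv
        · exact e1.2 v hv
        · exact e2.2 v hv
        · rw [hv]
          exact fun h4 => hvR e h1 w h4 hwR
    intro x hx y hy hxy
    rw [List.mem_cons] at hx hy
    rcases hx with rfl | hx
    · rcases hy with rfl | hy
      · exact absurd rfl hxy
      · exact key y hy
    · rcases hy with rfl | hy
      · have := key x hx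
        exact ⟨fun C hC hC' => this.1 C hC' hC, fun v hv hv' => this.2 v hv' hv⟩
      · exact h.disj x ((mrest x).1 hx).1 y ((mrest y).1 hy).1 hxy
  · -- clauses covered
    intro C hC
    obtain ⟨e, he, heC⟩ := h.covC C hC
    by_cases hec : e = c ∨ e = d
    · refine ⟨m, List.mem_cons_self, ?_⟩
      rw [clsm, List.mem_append]
      rcases hec with rfl | rfl
      · exact Or.inl heC
      · exact Or.inr heC
    · push Not at hec
      exact ⟨e, List.mem_cons_of_mem _ ((mrest e).2 ⟨he, hec.1, hec.2⟩), heC⟩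
  · -- variables covered
    intro v hv hvR'
    by_cases hvw : v = w
    · refine ⟨m, List.mem_cons_self, ?_⟩
      rw [vrsm, hvw]
      simp
    · have hv2 : v ∉ R := fun h1 => hvR' (mem_erase.2 ⟨hvw, h1⟩)
      obtain ⟨e, he, heC⟩ := h.covV v hv hv2
      by_cases hec : e = c ∨ e = d
      · refine ⟨m, List.mem_cons_self, ?_⟩
        rw [vrsm, List.mem_append, List.mem_append]
        rcases hec with rfl | rfl
        · exact Or.inl heC
        · exact Or.inr (Or.inl heC)
      · push Not at hec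
        exact ⟨e, List.mem_cons_of_mem _ ((mrest e).2 ⟨he, hec.1, hec.2⟩), heC⟩

/-- a list of trees which describes the family `K` with the variables `W` -/
theorem mtree_spec {K : List Cla} {W : List ℕ} (hK : K.Nodup) (hW : W.Nodup)
    (h : MU cl0 W.toFinset K.toFinset) (hf : oc cl0 W.toFinset K.toFinset = W.toFinset)
    (hc : K.length = W.length + 1) : ∃ t : PT, mtree K W = t.post ∧ t.cls.Nodup ∧ t.vrs.Nodup ∧
      (∀ C, C ∈ t.cls ↔ C ∈ K) ∧ (∀ v, v ∈ t.vrs ↔ v ∈ W) ∧
      t.All (PorT K.toFinset W.toFinset) := by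
  have key : ∀ n, n ≤ W.length → ∃ R : Finset ℕ, R.card = W.length - n ∧
      MInv K W R ((mstep W)^[n] (minit K W)) := by
    intro n
    induction n with
    | zero =>
      intro _
      exact ⟨W.toFinset, by rw [List.toFinset_card_of_nodup hW]; rfl,
        minit_inv hK hW h hf hc⟩
    | succ n ih =>
      intro hn
      have hn' : n ≤ W.length := by omega
      obtain ⟨R, hR, hI⟩ := ih hn'
      have hne : R.Nonempty := by rw [← card_pos]; omega
      rw [Function.iterate_succ_apply']
      set L := (mstep W)^[n] (minit K W) with hL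
      obtain ⟨w, hw, hg⟩ := exists_gd hI hne
      unfold mstep
      cases hh : (W.filter (fun w => gd L w)).head? with
      | none =>
        rw [List.head?_eq_none_iff] at hh
        have : w ∈ W.filter (fun w => gd L w) := List.mem_filter.2 ⟨hw, hg⟩
        rw [hh] at this
        simp at this
      | some w' =>
        have h1 := List.mem_of_mem_head? hh
        rw [List.mem_filter] at h1
        obtain ⟨h2, h3⟩ := mrg_inv hI h1.1 h1.2
        refine ⟨R.erase w', ?_, h3⟩
        rw [card_erase_of_mem h2, hR, Nat.sub_sub]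
  obtain ⟨R, hR, hI⟩ := key W.length le_rfl
  have hR0 : R = ∅ := by rw [← Finset.card_eq_zero]; omega
  subst hR0
  have h1 := hI.card
  rw [card_empty, zero_add] at h1
  obtain ⟨c, hcL⟩ := List.length_eq_one_iff.1 h1
  obtain ⟨t, ht, ok, al, _, _⟩ := hI.clu c (by rw [hcL]; simp)
  refine ⟨t, ?_, ok.ndC, ok.ndV, ?_, ?_, al⟩
  · unfold mtree
    rw [hcL]
    simp [ht]
  · intro C
    refine ⟨ok.subC C, fun hC => ?_⟩
    obtain ⟨e, he, heC⟩ := hI.covC C hC
    rw [hcL, List.mem_singleton] at he
    rw [he, ht, PT.clsI_post] at heC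
    exact heC
  · intro v
    refine ⟨ok.subV v, fun hv => ?_⟩
    obtain ⟨e, he, heC⟩ := hI.covV v hv (by simp)
    rw [hcL, List.mem_singleton] at he
    rw [he, ht, PT.vrsI_post] at heC
    exact heC

end Pool.Agent.R534.MF
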