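import Pool.Agent.R534.MF.Alg

/-!
# Correctness of the satisfiability test and of the computation of cores
-/

set_option linter.unusedSectionVars false

namespace Pool.Agent.R534.MF

open Finset Pool.Agent.H442R3.MPar

/-! ### Matching test -/

theorem nuF_eq_iff (B : List (List ℕ × List ℕ)) : nuF B = B.length ↔
    HypIndep (edgeOf B) (Finset.range B.length ×ˢ (Finset.univ : Finset Bool)) := by
  have h := nuF_correct B
  constructor
  · intro he
    obtain ⟨M, hM, hc⟩ := h.1
    rw [he] at hc
    have h1 : M = Finset.range B.length :=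
      eq_of_subset_of_card_le hM.1 (by rw [card_range, hc])
    rw [← h1]
    exact hM.2
  · intro hI
    apply le_antisymm
    · obtain ⟨M, hM, hc⟩ := h.1
      rw [← hc]
      have := card_le_card hM.1
      rwa [card_range] at this
    · exact h.2 ⟨Finset.range B.length, ⟨Subset.refl _, hI⟩, card_range _⟩

/-- the variables of `W` in the `i`-th clause -/
def vr (G : List Cla) (W : List ℕ) (i : ℕ) : Finset ℕ :=
  (((G.getD i []).filter (fun l => decide (l.1 ∈ W))).map (fun l => l.1)).toFinset

theorem mem_vr {G : List Cla} {W : List ℕ} {i v : ℕ} :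
    v ∈ vr G W i ↔ v ∈ W ∧ ∃ b, (v, b) ∈ G.getD i [] := by
  unfold vr
  simp only [List.mem_toFinset, List.mem_map, List.mem_filter, decide_eq_true_eq]
  constructor
  · rintro ⟨⟨w, b⟩, ⟨h1, h2⟩, rfl⟩
    exact ⟨h2, b, h1⟩
  · rintro ⟨h1, b, h2⟩
    exact ⟨(v, b), ⟨h2, h1⟩, rfl⟩

theorem edge_false {G : List Cla} {W : List ℕ} {i : ℕ} (hi : i < G.length) :
    edgeOf (prs G W) (i, false) = insert 0 ((vr G W i).image (fun v => 2 * v + 1)) := by
  unfold edgeOf prs vr
  rw [List.getD_eq_getElem _ _ (by simpa using hi), List.getD_eq_getElem _ _ hi]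
  ext x
  simp

theorem edge_true {G : List Cla} {W : List ℕ} {i : ℕ} (hi : i < G.length) :
    edgeOf (prs G W) (i, true) = {0, 2 * i + 2} := by
  unfold edgeOf prs
  rw [List.getD_eq_getElem _ _ (by simpa using hi)]
  ext x
  simp

theorem prs_length (G : List Cla) (W : List ℕ) : (prs G W).length = G.length := by
  simp [prs]

theorem sat0_idx (G : List Cla) (W : List ℕ) : sat0 G W = true ↔
    ∀ I ⊆ Finset.range G.length, I.card ≤ (I.biUnion (vr G W)).card := by
  unfold sat0
  rw [decide_eq_true_iff]
  rw [← prs_length G W, nuF_eq_iff]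
  constructor
  · intro h I hI
    by_cases hne : I = ∅
    · subst hne; simp
    have h1 := h (I ×ˢ {false}) (by
      intro x hx
      rw [mem_product] at hx ⊢
      exact ⟨hI hx.1, mem_univ _⟩) (by
      obtain ⟨i, hi⟩ := Finset.nonempty_iff_ne_empty.2 hne
      exact ⟨(i, false), by simp [hi]⟩)
    rw [card_product, card_singleton, mul_one] at h1
    have h2 : (I ×ˢ {false}).biUnion (edgeOf (prs G W)) ⊆
        insert 0 ((I.biUnion (vr G W)).image (fun v => 2 * v + 1)) := by
      intro x hx
      rw [mem_biUnion] at hx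
      obtain ⟨⟨i, s⟩, his, hx⟩ := hx
      rw [mem_product, mem_singleton] at his
      obtain ⟨hiI, hs⟩ := his
      simp only at hs hiI
      subst hs
      have hi := hI hiI
      rw [prs_length, Finset.mem_range] at hi
      rw [edge_false hi, mem_insert] at hx
      rw [mem_insert]
      rcases hx with hx | hx
      · exact Or.inl hx
      · right
        rw [mem_image] at hx ⊢
        obtain ⟨v, hv, rfl⟩ := hx
        exact ⟨v, mem_biUnion.2 ⟨i, hiI, hv⟩, rfl⟩
    have h3 := card_le_card h2
    have h4 := card_insert_le 0 ((I.biUnion (vr G W)).image (fun v => 2 * v + 1))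
    have h5 : ((I.biUnion (vr G W)).image (fun v => 2 * v + 1)).card ≤
      (I.biUnion (vr G W)).card := card_image_le
    omega
  · intro h Y hY hne
    set Y0 := (Finset.range (prs G W).length).filter (fun i => (i, false) ∈ Y) with hY0
    set Y1 := (Finset.range (prs G W).length).filter (fun i => (i, true) ∈ Y) with hY1
    have h1 : Y ⊆ Y0 ×ˢ {false} ∪ Y1 ×ˢ {true} := by
      rintro ⟨i, s⟩ hi
      have h2 := hY hi
      rw [mem_product] at h2
      rw [mem_union, mem_product, mem_product, hY0, hY1, mem_filter, mem_filter]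
      cases s
      · exact Or.inl ⟨⟨h2.1, hi⟩, mem_singleton_self _⟩
      · exact Or.inr ⟨⟨h2.1, hi⟩, mem_singleton_self _⟩
    have h2 := (card_le_card h1).trans (card_union_le _ _)
    rw [card_product, card_product, card_singleton, card_singleton, mul_one, mul_one] at h2
    have h3 := h Y0 (by rw [hY0]; exact filter_subset _ _)
    have h4 : insert 0 ((Y0.biUnion (vr G W)).image (fun v => 2 * v + 1) ∪
        Y1.image (fun j => 2 * j + 2)) ⊆ Y.biUnion (edgeOf (prs G W)) := by
      intro x hx
      rw [mem_insert, mem_union, mem_image, mem_image] at hx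
      rw [mem_biUnion]
      rcases hx with rfl | ⟨v, hv, rfl⟩ | ⟨j, hj, rfl⟩
      · obtain ⟨⟨i, s⟩, hi⟩ := hne
        have h5 := hY hi
        rw [mem_product, Finset.mem_range, prs_length] at h5
        refine ⟨(i, s), hi, ?_⟩
        cases s
        · rw [edge_false h5.1]; exact mem_insert_self _ _
        · rw [edge_true h5.1]; exact mem_insert_self _ _
      · rw [mem_biUnion] at hv
        obtain ⟨i, hi, hv⟩ := hv
        rw [hY0, mem_filter, Finset.mem_range, prs_length] at hi
        refine ⟨(i, false), hi.2, ?_⟩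
        rw [edge_false hi.1]
        exact mem_insert_of_mem (mem_image_of_mem _ hv)
      · rw [hY1, mem_filter, Finset.mem_range, prs_length] at hj
        refine ⟨(j, true), hj.2, ?_⟩
        rw [edge_true hj.1]
        simp
    have h5 := card_le_card h4
    rw [card_insert_of_notMem, card_union_of_disjoint, card_image_of_injective,
      card_image_of_injective] at h5
    · omega
    · intro a b hab
      simp only at hab
      omega
    · intro a b hab
      simp only at hab
      omega
    · rw [Finset.disjoint_left]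
      intro x hx hx'
      rw [mem_image] at hx hx'
      obtain ⟨v, _, rfl⟩ := hx
      obtain ⟨j, _, hj⟩ := hx'
      omega
    · rw [mem_union, mem_image, mem_image]
      rintro (⟨v, _, hv⟩ | ⟨v, _, hv⟩) <;> omega

theorem oc_image (G : List Cla) (W : List ℕ) (I : Finset ℕ) :
    oc cl0 W.toFinset (I.image (fun i => G.getD i [])) = I.biUnion (vr G W) := by
  ext v
  rw [mem_oc, mem_biUnion]
  simp only [mem_image, cl0, List.mem_toFinset]
  constructor
  · rintro ⟨h1, C, ⟨i, hi, rfl⟩, b, hb⟩
    exact ⟨i, hi, mem_vr.2 ⟨h1, b, hb⟩⟩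
  · rintro ⟨i, hi, hv⟩
    obtain ⟨h1, b, hb⟩ := mem_vr.1 hv
    exact ⟨h1, _, ⟨i, hi, rfl⟩, b, hb⟩

theorem sat0_iff {G : List Cla} {W : List ℕ} (hG : G.Nodup) : sat0 G W = true ↔
    ∀ R ⊆ G.toFinset, R.card ≤ (oc cl0 W.toFinset R).card := by
  rw [sat0_idx]
  have hinj : ∀ i < G.length, ∀ j < G.length, G.getD i [] = G.getD j [] → i = j := by
    intro i hi j hj h
    rw [List.getD_eq_getElem _ _ hi, List.getD_eq_getElem _ _ hj] at h
    exact (List.Nodup.getElem_inj_iff hG).1 h
  constructor
  · intro h R hR
    set I := (Finset.range G.length).filter (fun i => G.getD i [] ∈ R) with hI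
    have h1 : I.image (fun i => G.getD i []) = R := by
      ext C
      rw [mem_image]
      constructor
      · rintro ⟨i, hi, rfl⟩
        exact (mem_filter.1 hi).2
      · intro hC
        have h2 := hR hC
        rw [List.mem_toFinset] at h2
        obtain ⟨i, hi, rfl⟩ := List.mem_iff_getElem.1 h2
        refine ⟨i, ?_, List.getD_eq_getElem _ _ hi⟩
        rw [hI, mem_filter, Finset.mem_range, List.getD_eq_getElem _ _ hi]
        exact ⟨hi, hC⟩
    have h2 := h I (filter_subset _ _)
    rw [← oc_image, h1] at h2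
    refine le_trans ?_ h2
    rw [← h1]
    exact card_image_le
  · intro h I hI
    have h1 := h (I.image (fun i => G.getD i [])) (by
      intro C hC
      rw [mem_image] at hC
      obtain ⟨i, hi, rfl⟩ := hC
      have h2 := Finset.mem_range.1 (hI hi)
      rw [List.mem_toFinset, List.getD_eq_getElem _ _ h2]
      exact List.getElem_mem _)
    rw [oc_image, card_image_of_injOn] at h1
    · exact h1
    · intro i hi j hj hij
      exact hinj i (Finset.mem_range.1 (hI hi)) j (Finset.mem_range.1 (hI hj)) hij

/-! ### Bounded deficiency -/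

section

variable {ι V : Type*} [DecidableEq ι] [DecidableEq V]
variable {cl : ι → Finset (V × Bool)} {W : Finset V} {G : Finset ι} {k : ℕ}

/-- the maximum deficiency is at most `k` -/
def DB (cl : ι → Finset (V × Bool)) (W : Finset V) (G : Finset ι) (k : ℕ) : Prop :=
  ∀ R ⊆ G, R.card ≤ (oc cl W R).card + k

theorem DB.mono {H : Finset ι} (h : DB cl W G k) (hH : H ⊆ G) : DB cl W H k :=
  fun R hR => h R (hR.trans hH)

theorem DB.le {k' : ℕ} (h : DB cl W G k) (hk : k ≤ k') : DB cl W G k' :=
  fun R hR => (h R hR).trans (by omega)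

/-- a satisfying assignment together with an almost perfect matching which it respects -/
def PM (cl : ι → Finset (V × Bool)) (W : Finset V) (G : Finset ι) (k : ℕ) : Prop :=
  ∃ σ : V → Bool, (∀ C ∈ G, ∃ v ∈ W, (v, σ v) ∈ cl C) ∧ ∃ U ⊆ G, U.card ≤ k ∧
    ∃ f : ι → V, Set.InjOn f (G \ U : Finset ι) ∧ ∀ C ∈ G \ U, f C ∈ W ∧ (f C, σ (f C)) ∈ cl C

theorem QT.empty : ∀ {p : List (Bool × V)}, QT cl p ∅ := by
  intro p
  induction p with
  | nil => rfl
  | cons a p ih =>
    obtain ⟨q, x⟩ := a
    rw [QT]
    simp only [Finset.filter_empty]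
    split_ifs
    · exact ⟨true, ih⟩
    · exact fun _ => ih

theorem mt_of_db [Inhabited ι] (hd : DB cl W G k) :
    ∃ E ⊆ W, Mt cl E G ∧ G.card ≤ E.card + k := by
  classical
  obtain ⟨f, hf, hf'⟩ := hall_inj (V := V ⊕ Fin k) G
    (fun C => (W.filter (fun v => ∃ b, (v, b) ∈ cl C)).map ⟨Sum.inl, Sum.inl_injective⟩ ∪
      (Finset.univ : Finset (Fin k)).map ⟨Sum.inr, Sum.inr_injective⟩) (by
    intro R hR
    by_cases hne : R = ∅
    · subst hne; simp
    have h1 := hd R hR
    have h2 : (oc cl W R).map ⟨Sum.inl, Sum.inl_injective⟩ ∪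
        (Finset.univ : Finset (Fin k)).map ⟨Sum.inr, Sum.inr_injective⟩ ⊆
        R.biUnion (fun C => (W.filter (fun v => ∃ b, (v, b) ∈ cl C)).map
          ⟨Sum.inl, Sum.inl_injective⟩ ∪
          (Finset.univ : Finset (Fin k)).map ⟨Sum.inr, Sum.inr_injective⟩) := by
      intro x hx
      rw [mem_biUnion]
      rw [mem_union, mem_map, mem_map] at hx
      rcases hx with ⟨v, hv, rfl⟩ | ⟨j, _, rfl⟩
      · rw [mem_oc] at hv
        obtain ⟨h3, C, hC, h4⟩ := hv
        refine ⟨C, hC, mem_union_left _ (mem_map_of_mem _ (mem_filter.2 ⟨h3, h4⟩))⟩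
      · obtain ⟨C, hC⟩ := Finset.nonempty_iff_ne_empty.2 hne
        exact ⟨C, hC, mem_union_right _ (mem_map_of_mem _ (mem_univ _))⟩
    refine le_trans ?_ (card_le_card h2)
    rw [card_union_of_disjoint, card_map, card_map, card_univ, Fintype.card_fin]
    · exact h1
    · rw [Finset.disjoint_left]
      intro x hx hx'
      rw [mem_map] at hx hx'
      obtain ⟨v, _, rfl⟩ := hx
      obtain ⟨j, _, hj⟩ := hx'
      simp at hj)
  set E := W.filter (fun v => ∃ x, f x = Sum.inl v) with hE
  refine ⟨E, filter_subset _ _, ?_, ?_⟩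
  · have hch : ∀ v, ∃ C : ι, v ∈ E → ∃ hC : C ∈ G, f ⟨C, hC⟩ = Sum.inl v := by
      intro v
      by_cases hv : v ∈ E
      · rw [hE, mem_filter] at hv
        obtain ⟨_, ⟨C, hC⟩, h⟩ := hv
        exact ⟨C, fun _ => ⟨hC, h⟩⟩
      · exact ⟨default, fun h => absurd h hv⟩
    choose μ hμ using hch
    refine ⟨μ, ?_, ?_⟩
    · intro v hv w hw hvw
      obtain ⟨h1, h2⟩ := hμ v hv
      obtain ⟨h3, h4⟩ := hμ w hw
      have h5 : (⟨μ v, h1⟩ : {x // x ∈ G}) = ⟨μ w, h3⟩ := Subtype.ext hvw
      rw [h5, h4] at h2
      exact (Sum.inl_injective h2).symm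
    · intro v hv
      obtain ⟨h1, h2⟩ := hμ v hv
      refine ⟨h1, ?_⟩
      have h3 := hf' ⟨μ v, h1⟩
      rw [h2, mem_union, mem_map, mem_map] at h3
      rcases h3 with ⟨w, hw, hw'⟩ | ⟨j, _, hj⟩
      · have h4 : w = v := Sum.inl_injective hw'
        subst h4
        exact (mem_filter.1 hw).2
      · simp at hj
  · have h1 : Fintype.card {x // x ∈ G} ≤ Fintype.card ({v // v ∈ E} ⊕ Fin k) := by
      have hW : ∀ x v, f x = Sum.inl v → v ∈ E := by
        intro x v hx
        rw [hE, mem_filter]
        have h3 := hf' x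
        rw [hx, mem_union, mem_map, mem_map] at h3
        rcases h3 with ⟨w, hw, hw'⟩ | ⟨j, _, hj⟩
        · have h4 : w = v := Sum.inl_injective hw'
          subst h4
          exact ⟨(mem_filter.1 hw).1, x, hx⟩
        · simp at hj
      refine Fintype.card_le_of_injective
        (fun x => match h : f x with
          | Sum.inl v => Sum.inl ⟨v, hW x v h⟩
          | Sum.inr j => Sum.inr j) ?_
      intro x y hxy
      apply hf
      simp only at hxy
      split at hxy <;> split at hxy <;> simp_all
    rw [Fintype.card_sum, Fintype.card_fin, Fintype.card_coe, Fintype.card_coe] at h1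
    exact h1

theorem exV_map_true (l : List V) : exV (l.map (fun v => (true, v))) = l.toFinset := by
  induction l with
  | nil => rfl
  | cons a l ih => simp [exV, ih]

theorem unV_map_true (l : List V) : unV (l.map (fun v => (true, v))) = ∅ := by
  induction l with
  | nil => rfl
  | cons a l ih => simp [unV, ih]

theorem pm_of_sat [Inhabited ι] [Inhabited V] (h : Sat cl W G) (hd : DB cl W G k) :
    PM cl W G k := by
  classical
  obtain ⟨E, hEW, hM, hc⟩ := mt_of_db hd
  obtain ⟨σ₀, hσ₀⟩ := h
  set p := E.toList.map (fun v => (true, v)) with hp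
  have hex : exV p = E := by rw [hp, exV_map_true, toList_toFinset]
  have hn : (p.map Prod.snd).Nodup := by
    rw [hp, List.map_map]
    have : (Prod.snd ∘ fun v : V => (true, v)) = id := rfl
    rw [this, List.map_id]
    exact nodup_toList E
  set Req := G.filter (fun C => ∀ v ∈ W \ E, (v, σ₀ v) ∉ cl C) with hReq
  have hQ : QT cl p Req := by
    have h1 : QT cl p (∅ ∪ Req) := by
      refine QT.ext (σ := σ₀) hn (X := E) (by rw [hex]) (by simp) ?_ QT.empty
      intro C hC
      rw [hReq, mem_filter] at hC
      obtain ⟨v, hv, hv'⟩ := hσ₀ C hC.1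
      refine ⟨v, ?_, hv'⟩
      by_contra hno
      exact hC.2 v (mem_sdiff.2 ⟨hv, hno⟩) hv'
    rwa [empty_union] at h1
  obtain ⟨T, _, hT2, val, M, hS1, hS2, _⟩ := strategy p hn k Req G (filter_subset _ _)
    (by rw [hex]; exact hM) (by rw [hex]; exact hc) hQ
  have hTl : T = BT.leaf := by
    cases T with
    | leaf => rfl
    | node y l r =>
      have := hT2.1
      rw [hp, unV_map_true] at this
      simp at this
  subst hTl
  have hm : ([] : List (V × Bool)) ∈ (BT.leaf : BT V).paths := by simp [BT.paths]
  obtain ⟨hinj, hval⟩ := hS1 [] hm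
  have hreq := hS2 [] hm
  rw [hex] at hinj hval hreq
  set σ : V → Bool := fun v => if v ∈ E then val [] v else σ₀ v with hσ
  refine ⟨σ, ?_, G \ E.image (M []), sdiff_subset, ?_, ?_⟩
  · intro C hC
    by_cases h1 : ∃ v ∈ W \ E, (v, σ₀ v) ∈ cl C
    · obtain ⟨v, hv, hv'⟩ := h1
      rw [mem_sdiff] at hv
      refine ⟨v, hv.1, ?_⟩
      simp only [hσ, if_neg hv.2]
      exact hv'
    · push Not at h1
      rcases hreq C (mem_filter.2 ⟨hC, h1⟩) with ⟨l, hl, _⟩ | ⟨e, he, he'⟩
      · simp at hl
      · refine ⟨e, hEW he, ?_⟩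
        simp only [hσ, if_pos he]
        exact he'
  · have h1 : E.image (M []) ⊆ G := by
      intro C hC
      rw [mem_image] at hC
      obtain ⟨e, he, rfl⟩ := hC
      exact (hval e he).1
    rw [card_sdiff_of_subset h1, card_image_of_injOn hinj]
    omega
  · have hch : ∀ C : ι, ∃ e : V, C ∈ E.image (M []) → e ∈ E ∧ M [] e = C := by
      intro C
      by_cases hC : C ∈ E.image (M [])
      · rw [mem_image] at hC
        obtain ⟨e, he, he'⟩ := hC
        exact ⟨e, fun _ => ⟨he, he'⟩⟩
      · exact ⟨default, fun h => absurd h hC⟩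
    choose f hf using hch
    have hGU : ∀ C ∈ G \ (G \ E.image (M [])), C ∈ E.image (M []) := by
      intro C hC
      rw [mem_sdiff, mem_sdiff] at hC
      by_contra hno
      exact hC.2 ⟨hC.1, hno⟩
    refine ⟨f, ?_, ?_⟩
    · intro C hC D hD hCD
      rw [mem_coe] at hC hD
      rw [← (hf C (hGU C hC)).2, ← (hf D (hGU D hD)).2, hCD]
    · intro C hC
      obtain ⟨h1, h2⟩ := hf C (hGU C hC)
      refine ⟨hEW h1, ?_⟩
      simp only [hσ, if_pos h1]
      have := (hval _ h1).2
      rw [h2] at this
      exact this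

end

/-! ### The satisfiability test -/

theorem fil_toFinset (G : List Cla) (l : ℕ × Bool) :
    (fil G l).toFinset = G.toFinset.filter (fun C => l ∉ cl0 C) := by
  unfold fil cl0
  ext C
  simp

theorem rmv_toFinset (W : List ℕ) (v : ℕ) : (rmv W v).toFinset = W.toFinset.erase v := by
  unfold rmv
  ext w
  simp [and_comm]

theorem fil_nodup {G : List Cla} (h : G.Nodup) (l : ℕ × Bool) : (fil G l).Nodup :=
  h.filter _

theorem rmv_nodup {W : List ℕ} (h : W.Nodup) (v : ℕ) : (rmv W v).Nodup :=
  h.filter _

theorem satT_sound : ∀ (k : ℕ) (G : List Cla) (W : List ℕ), G.Nodup → satT k G W = true →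
    Sat cl0 W.toFinset G.toFinset := by
  intro k
  induction k with
  | zero =>
    intro G W hG h
    rw [satT, sat0_iff hG] at h
    exact sat_of_card h
  | succ k ih =>
    intro G W hG h
    rw [satT, Bool.or_eq_true, List.any_eq_true] at h
    rcases h with h | ⟨v, hv, h⟩
    · exact ih G W hG h
    · rw [Bool.or_eq_true] at h
      by_contra hno
      have hv' : v ∈ W.toFinset := List.mem_toFinset.2 hv
      rcases h with h | h
      · have h1 := ih _ _ (fil_nodup hG _) h
        rw [fil_toFinset, rmv_toFinset] at h1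
        exact not_sat_filter hno hv' _ h1
      · have h1 := ih _ _ (fil_nodup hG _) h
        rw [fil_toFinset, rmv_toFinset] at h1
        exact not_sat_filter hno hv' _ h1

theorem satT_complete : ∀ (k : ℕ) (G : List Cla) (W : List ℕ), G.Nodup →
    PM cl0 W.toFinset G.toFinset k → satT k G W = true := by
  intro k
  induction k with
  | zero =>
    intro G W hG h
    rw [satT, sat0_iff hG]
    obtain ⟨σ, _, U, _, hUc, f, hf, hf'⟩ := h
    have hU : U = ∅ := by rw [← Finset.card_eq_zero]; omega
    subst hU
    rw [sdiff_empty] at hf hf'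
    intro R hR
    rw [← card_image_of_injOn (s := R) (f := f) (fun x hx y hy => hf (hR hx) (hR hy))]
    apply card_le_card
    intro v hv
    rw [mem_image] at hv
    obtain ⟨C, hC, rfl⟩ := hv
    obtain ⟨h1, h2⟩ := hf' C (hR hC)
    exact mem_oc.2 ⟨h1, C, hC, _, h2⟩
  | succ k ih =>
    intro G W hG h
    obtain ⟨σ, hσ, U, hUG, hUc, f, hf, hf'⟩ := h
    rw [satT, Bool.or_eq_true]
    by_cases hUk : U.card ≤ k
    · exact Or.inl (ih G W hG ⟨σ, hσ, U, hUG, hUk, f, hf, hf'⟩)
    · right
      have hUc' : U.card = k + 1 := by omega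
      obtain ⟨C, hC⟩ : U.Nonempty := by rw [← Finset.card_pos]; omega
      obtain ⟨v, hv, hvC⟩ := hσ C (hUG hC)
      rw [List.any_eq_true]
      refine ⟨v, List.mem_toFinset.1 hv, ?_⟩
      have key : satT k (fil G (v, σ v)) (rmv W v) = true := by
        refine ih _ _ (fil_nodup hG _) ?_
        rw [fil_toFinset, rmv_toFinset]
        refine ⟨σ, ?_, U.filter (fun C => (v, σ v) ∉ cl0 C), ?_, ?_, f, ?_, ?_⟩
        · intro D hD
          rw [mem_filter] at hD
          obtain ⟨w, hw, hw'⟩ := hσ D hD.1
          refine ⟨w, mem_erase.2 ⟨?_, hw⟩, hw'⟩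
          rintro rfl
          exact hD.2 hw'
        · exact filter_subset_filter _ hUG
        · have h1 : U.filter (fun C => (v, σ v) ∉ cl0 C) ⊆ U.erase C := by
            intro D hD
            rw [mem_filter] at hD
            rw [mem_erase]
            refine ⟨?_, hD.1⟩
            rintro rfl
            exact hD.2 hvC
          have h2 := card_le_card h1
          rw [card_erase_of_mem hC] at h2
          omega
        · intro D hD E hE hDE
          refine hf ?_ ?_ hDE
          · simp only [mem_coe, mem_sdiff, mem_filter] at hD ⊢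
            exact ⟨hD.1.1, fun h => hD.2 ⟨h, hD.1.2⟩⟩
          · simp only [mem_coe, mem_sdiff, mem_filter] at hE ⊢
            exact ⟨hE.1.1, fun h => hE.2 ⟨h, hE.1.2⟩⟩
        · intro D hD
          simp only [mem_sdiff, mem_filter] at hD
          obtain ⟨h1, h2⟩ := hf' D (mem_sdiff.2 ⟨hD.1.1, fun h => hD.2 ⟨h, hD.1.2⟩⟩)
          refine ⟨mem_erase.2 ⟨?_, h1⟩, h2⟩
          intro heq
          rw [heq] at h2
          exact hD.1.2 h2
      rw [Bool.or_eq_true]
      cases hs : σ v with
      | true => rw [hs] at key; exact Or.inl key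
      | false => rw [hs] at key; exact Or.inr key

theorem satT_iff {k : ℕ} {G : List Cla} {W : List ℕ} (hG : G.Nodup)
    (hd : DB cl0 W.toFinset G.toFinset k) :
    satT k G W = true ↔ Sat cl0 W.toFinset G.toFinset :=
  ⟨satT_sound k G W hG, fun h => satT_complete k G W hG (pm_of_sat h hd)⟩

/-! ### Cores -/

theorem core_sublist (k : ℕ) (G : List Cla) (W : List ℕ) : (core k G W).Sublist G := by
  unfold core
  have key : ∀ (l K : List Cla), (l.foldl (fun K C =>
      if satT k (K.filter (fun D => !decide (D = C))) W = true then K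
      else K.filter (fun D => !decide (D = C))) K).Sublist K := by
    intro l
    induction l with
    | nil => intro K; exact List.Sublist.refl _
    | cons C l ih =>
      intro K
      rw [List.foldl_cons]
      refine (ih _).trans ?_
      split_ifs
      · exact List.Sublist.refl _
      · exact List.filter_sublist
  exact key _ _

theorem filter_ne_toFinset (K : List Cla) (C : Cla) :
    (K.filter (fun D => !decide (D = C))).toFinset = K.toFinset.erase C := by
  ext D
  simp [and_comm]

theorem core_spec {k : ℕ} {G : List Cla} {W : List ℕ} (hG : G.Nodup)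
    (hd : DB cl0 W.toFinset G.toFinset k) (hs : ¬ Sat cl0 W.toFinset G.toFinset) :
    MU cl0 W.toFinset (core k G W).toFinset := by
  unfold core
  have key : ∀ (l K : List Cla), K.Sublist G → ¬ Sat cl0 W.toFinset K.toFinset →
      let K' := l.foldl (fun K C =>
        if satT k (K.filter (fun D => !decide (D = C))) W = true then K
        else K.filter (fun D => !decide (D = C))) K
      K'.Sublist K ∧ ¬ Sat cl0 W.toFinset K'.toFinset ∧
        ∀ C ∈ l, C ∈ K' → Sat cl0 W.toFinset (K'.toFinset.erase C) := by
    intro l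
    induction l with
    | nil => intro K hK hKs; exact ⟨List.Sublist.refl _, hKs, by simp⟩
    | cons C l ih =>
      intro K hK hKs
      simp only [List.foldl_cons]
      have hfs : (K.filter (fun D => !decide (D = C))).Sublist G :=
        List.filter_sublist.trans hK
      have hex : satT k (K.filter (fun D => !decide (D = C))) W = true ↔
          Sat cl0 W.toFinset (K.toFinset.erase C) := by
        rw [satT_iff (hfs.nodup hG), filter_ne_toFinset]
        rw [filter_ne_toFinset]
        exact hd.mono ((erase_subset _ _).trans (by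
          intro D hD
          rw [List.mem_toFinset] at hD ⊢
          exact hK.subset hD))
      by_cases h : satT k (K.filter (fun D => !decide (D = C))) W = true
      · rw [if_pos h]
        obtain ⟨h1, h2, h3⟩ := ih K hK hKs
        refine ⟨h1, h2, fun D hD hDK => ?_⟩
        rcases List.mem_cons.1 hD with rfl | hD
        · refine (hex.1 h).mono (erase_subset_erase _ ?_)
          intro E hE
          rw [List.mem_toFinset] at hE ⊢
          exact h1.subset hE
        · exact h3 D hD hDK
      · rw [if_neg h]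
        have h0 : ¬ Sat cl0 W.toFinset (K.filter (fun D => !decide (D = C))).toFinset := by
          rw [filter_ne_toFinset]
          exact fun h' => h (hex.2 h')
        obtain ⟨h1, h2, h3⟩ := ih _ hfs h0
        refine ⟨h1.trans List.filter_sublist, h2, fun D hD hDK => ?_⟩
        rcases List.mem_cons.1 hD with rfl | hD
        · exfalso
          have := h1.subset hDK
          simp at this
        · exact h3 D hD hDK
  obtain ⟨h1, h2, h3⟩ := key G G (List.Sublist.refl _) hs
  refine ⟨h2, fun C hC => ?_⟩
  rw [List.mem_toFinset] at hC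
  exact h3 C (h1.subset hC) hC

theorem ocL_toFinset (W : List ℕ) (K : List Cla) :
    (ocL W K).toFinset = oc cl0 W.toFinset K.toFinset := by
  unfold ocL
  ext v
  rw [mem_oc]
  simp only [List.mem_toFinset, List.mem_filter, List.any_eq_true, decide_eq_true_eq, cl0]
  constructor
  · rintro ⟨h1, C, hC, ⟨w, b⟩, hl, rfl⟩
    exact ⟨h1, C, hC, b, hl⟩
  · rintro ⟨h1, C, hC, b, hb⟩
    exact ⟨h1, C, hC, (v, b), hb, rfl⟩

theorem ocL_nodup {W : List ℕ} (h : W.Nodup) (K : List Cla) : (ocL W K).Nodup := h.filter _

end Pool.Agent.R534.MF
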