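import Pool.Agent.R534.MF.MU2

/-!
# Strategies for quantified clause families

`QT cl p G`: the existential player wins the evaluation game with prefix `p` and the clauses `G`;
literals of variables outside the prefix are ignored.
-/

set_option linter.unusedSectionVars false

namespace Pool.Agent.R534.MF

open Finset

variable {ι V : Type*} [DecidableEq ι] [DecidableEq V]

/-- truth of a quantified family; `(true, x)` is an existential and `(false, x)` a universal
variable -/
def QT (cl : ι → Finset (V × Bool)) : List (Bool × V) → Finset ι → Prop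
  | [], G => G = ∅
  | (q, x) :: p, G => if q = true then ∃ b, QT cl p (G.filter (fun C => (x, b) ∉ cl C))
      else ∀ b, QT cl p (G.filter (fun C => (x, b) ∉ cl C))

/-- the existential variables -/
def exV : List (Bool × V) → Finset V
  | [] => ∅
  | (q, x) :: p => if q = true then insert x (exV p) else exV p

/-- the universal variables -/
def unV : List (Bool × V) → Finset V
  | [] => ∅
  | (q, x) :: p => if q = true then unV p else insert x (unV p)

variable {cl : ι → Finset (V × Bool)} {p : List (Bool × V)} {G H : Finset ι}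

theorem mem_exV {x : V} : x ∈ exV p ↔ (true, x) ∈ p := by
  induction p with
  | nil => simp [exV]
  | cons a p ih =>
    obtain ⟨q, y⟩ := a
    cases q <;> simp [exV, ih]

theorem mem_unV {x : V} : x ∈ unV p ↔ (false, x) ∈ p := by
  induction p with
  | nil => simp [unV]
  | cons a p ih =>
    obtain ⟨q, y⟩ := a
    cases q <;> simp [unV, ih]

theorem exV_mem_snd {x : V} (h : x ∈ exV p) : x ∈ p.map Prod.snd :=
  List.mem_map.2 ⟨_, mem_exV.1 h, rfl⟩

theorem QT.mono : ∀ {p : List (Bool × V)} {G H : Finset ι}, G ⊆ H → QT cl p H → QT cl p G := by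
  intro p
  induction p with
  | nil =>
    intro G H h h1
    rw [QT] at h1 ⊢
    subst h1
    exact subset_empty.1 h
  | cons a p ih =>
    intro G H h h1
    obtain ⟨q, x⟩ := a
    rw [QT] at h1 ⊢
    split_ifs at h1 ⊢ with hq
    · obtain ⟨b, hb⟩ := h1
      exact ⟨b, ih (filter_subset_filter _ h) hb⟩
    · exact fun b => ih (filter_subset_filter _ h) (h1 b)

theorem QT.ext {σ : V → Bool} : ∀ {p : List (Bool × V)} (_ : (p.map Prod.snd).Nodup)
    {X : Finset V} {G R : Finset ι}, X ⊆ exV p → (∀ C ∈ G, ∀ x ∈ X, ∀ b, (x, b) ∉ cl C) →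
    (∀ C ∈ R, ∃ x ∈ X, (x, σ x) ∈ cl C) → QT cl p G → QT cl p (G ∪ R) := by
  intro p
  induction p with
  | nil =>
    intro _ X G R hX _ hR h
    rw [QT] at h ⊢
    subst h
    rw [empty_union, Finset.eq_empty_iff_forall_notMem]
    intro C hC
    obtain ⟨x, hx, _⟩ := hR C hC
    have := hX hx
    simp [exV] at this
  | cons a p ih =>
    intro hn X G R hX hG hR h
    obtain ⟨q, x⟩ := a
    rw [List.map_cons, List.nodup_cons] at hn
    rw [QT] at h ⊢
    split_ifs at h ⊢ with hq
    · obtain ⟨b, hb⟩ := h
      by_cases hxX : x ∈ X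
      · refine ⟨σ x, ?_⟩
        have h1 : G.filter (fun C => (x, b) ∉ cl C) = G := by
          rw [Finset.filter_eq_self]
          intro C hC
          exact hG C hC x hxX b
        rw [h1] at hb
        have h2 := ih hn.2 (X := X.erase x) (G := G)
          (R := R.filter (fun C => (x, σ x) ∉ cl C)) ?_ ?_ ?_ hb
        · refine QT.mono ?_ h2
          intro C hC
          rw [mem_filter, mem_union] at hC
          rw [mem_union, mem_filter]
          rcases hC with ⟨h3 | h3, h4⟩
          · exact Or.inl h3
          · exact Or.inr ⟨h3, h4⟩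
        · intro y hy
          rw [mem_erase] at hy
          have h3 := hX hy.2
          rw [exV, if_pos hq, mem_insert] at h3
          exact h3.resolve_left hy.1
        · intro C hC y hy
          exact hG C hC y (mem_of_mem_erase hy)
        · intro C hC
          rw [mem_filter] at hC
          obtain ⟨y, hy, hy'⟩ := hR C hC.1
          refine ⟨y, ?_, hy'⟩
          rw [mem_erase]
          refine ⟨?_, hy⟩
          rintro rfl
          exact hC.2 hy'
      · refine ⟨b, ?_⟩
        have h2 := ih hn.2 (X := X) (G := G.filter (fun C => (x, b) ∉ cl C)) (R := R) ?_ ?_ hR hb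
        · refine QT.mono ?_ h2
          intro C hC
          rw [mem_filter, mem_union] at hC
          rw [mem_union, mem_filter]
          rcases hC with ⟨h3 | h3, h4⟩
          · exact Or.inl ⟨h3, h4⟩
          · exact Or.inr h3
        · intro y hy
          have h3 := hX hy
          rw [exV, if_pos hq, mem_insert] at h3
          refine h3.resolve_left ?_
          rintro rfl
          exact hxX hy
        · intro C hC y hy
          exact hG C (mem_of_mem_filter _ hC) y hy
    · intro b
      have h2 := ih hn.2 (X := X) (G := G.filter (fun C => (x, b) ∉ cl C)) (R := R) ?_ ?_ hR (h b)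
      · refine QT.mono ?_ h2
        intro C hC
        rw [mem_filter, mem_union] at hC
        rw [mem_union, mem_filter]
        rcases hC with ⟨h3 | h3, h4⟩
        · exact Or.inl ⟨h3, h4⟩
        · exact Or.inr h3
      · intro y hy
        have h3 := hX hy
        rw [exV, if_neg hq] at h3
        exact h3
      · intro C hC y hy
        exact hG C (mem_of_mem_filter _ hC) y hy

/-! ### Matchings of variables into clauses -/

/-- the variables `E` can be matched into the clauses `A` -/
def Mt (cl : ι → Finset (V × Bool)) (E : Finset V) (A : Finset ι) : Prop :=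
  ∃ μ : V → ι, Set.InjOn μ E ∧ ∀ e ∈ E, μ e ∈ A ∧ ∃ b, (e, b) ∈ cl (μ e)

/-- the clauses of `A` in which the variables of `R` occur -/
def nb (cl : ι → Finset (V × Bool)) (A : Finset ι) (R : Finset V) : Finset ι :=
  A.filter (fun C => ∃ e ∈ R, ∃ b, (e, b) ∈ cl C)

variable {E R : Finset V} {A : Finset ι}

theorem mem_nb {C : ι} : C ∈ nb cl A R ↔ C ∈ A ∧ ∃ e ∈ R, ∃ b, (e, b) ∈ cl C := by
  simp [nb]

theorem mt_card (h : Mt cl E A) (hR : R ⊆ E) : R.card ≤ (nb cl A R).card := by
  obtain ⟨μ, h1, h2⟩ := h
  rw [← card_image_of_injOn (s := R) (f := μ) (fun x hx y hy => h1 (hR hx) (hR hy))]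
  apply card_le_card
  intro C hC
  rw [mem_image] at hC
  obtain ⟨e, he, rfl⟩ := hC
  obtain ⟨h3, h4⟩ := h2 e (hR he)
  exact mem_nb.2 ⟨h3, e, he, h4⟩

theorem mt_of_card [Inhabited ι] (h : ∀ R ⊆ E, R.card ≤ (nb cl A R).card) : Mt cl E A := by
  have key : ∀ R : Finset V, R.biUnion (fun e => A.filter (fun C => ∃ b, (e, b) ∈ cl C)) =
      nb cl A R := by
    intro R
    ext C
    simp only [mem_biUnion, mem_filter, mem_nb]
    constructor
    · rintro ⟨e, h1, h2, h3⟩; exact ⟨h2, e, h1, h3⟩
    · rintro ⟨h2, e, h1, h3⟩; exact ⟨e, h1, h2, h3⟩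
  obtain ⟨f, hf, hf'⟩ := hall_inj E (fun e => A.filter (fun C => ∃ b, (e, b) ∈ cl C)) (by
    intro R hR
    rw [key]
    exact h R hR)
  refine ⟨fun v => if h : v ∈ E then f ⟨v, h⟩ else default, ?_, ?_⟩
  · intro x hx y hy hxy
    rw [mem_coe] at hx hy
    simp only [hx, hy, dif_pos] at hxy
    exact congrArg Subtype.val (hf hxy)
  · intro e he
    simp only [he, dif_pos]
    exact mem_filter.1 (hf' ⟨e, he⟩)

theorem nb_erase {C : ι} : nb cl (A.erase C) R = (nb cl A R).erase C := by
  ext D
  simp only [mem_nb, mem_erase]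
  tauto

theorem nb_union {R' : Finset V} : nb cl A (R ∪ R') = nb cl A R ∪ nb cl A R' := by
  ext D
  simp only [mem_nb, mem_union]
  constructor
  · rintro ⟨h1, e, h2 | h2, h3⟩
    · exact Or.inl ⟨h1, e, h2, h3⟩
    · exact Or.inr ⟨h1, e, h2, h3⟩
  · rintro (⟨h1, e, h2, h3⟩ | ⟨h1, e, h2, h3⟩)
    · exact ⟨h1, e, Or.inl h2, h3⟩
    · exact ⟨h1, e, Or.inr h2, h3⟩

theorem nb_mono {R' : Finset V} (h : R ⊆ R') : nb cl A R ⊆ nb cl A R' := by
  intro D hD
  rw [mem_nb] at hD ⊢
  obtain ⟨h1, e, h2, h3⟩ := hD
  exact ⟨h1, e, h h2, h3⟩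

theorem sat_matched {μ : V → ι} {e : V} (h : ∃ b, (e, b) ∈ cl (μ e)) :
    (e, decide ((e, true) ∈ cl (μ e))) ∈ cl (μ e) := by
  obtain ⟨b, hb⟩ := h
  by_cases ht : (e, true) ∈ cl (μ e)
  · simp [ht]
  · cases b with
    | true => exact absurd hb ht
    | false => simpa [ht] using hb

theorem drop_set [Inhabited ι] (h : Mt cl E A) {D : Finset ι} (hDA : D ⊆ A)
    (hD : ∀ C ∈ D, ¬ Mt cl E (A.erase C)) :
    ∃ R ⊆ E, D ⊆ nb cl A R ∧ ∃ σ : V → Bool, ∀ C ∈ nb cl A R, ∃ e ∈ R, (e, σ e) ∈ cl C := by
  classical
  obtain ⟨R, hR, hmax⟩ := Finset.exists_max_image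
    (E.powerset.filter (fun R => (nb cl A R).card ≤ R.card)) Finset.card ⟨∅, by
      rw [mem_filter, mem_powerset]
      refine ⟨empty_subset _, ?_⟩
      have : nb cl A ∅ = ∅ := by ext; simp [mem_nb]
      rw [this]
      simp⟩
  rw [mem_filter, mem_powerset] at hR
  obtain ⟨hRE, hRc⟩ := hR
  refine ⟨R, hRE, ?_, ?_⟩
  · intro C hC
    have h1 : ∃ R' ⊆ E, (nb cl (A.erase C) R').card < R'.card := by
      by_contra hcon
      push Not at hcon
      exact hD C hC (mt_of_card hcon)
    obtain ⟨R', hR', hc⟩ := h1
    rw [nb_erase] at hc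
    have h2 := mt_card h hR'
    have hCN : C ∈ nb cl A R' := by
      by_contra hno
      rw [erase_eq_of_notMem hno] at hc
      omega
    rw [card_erase_of_mem hCN] at hc
    have h3 := mt_card h (inter_subset_left.trans hRE : R ∩ R' ⊆ E)
    have h4 := card_union_add_card_inter R R'
    have h5 := card_union_add_card_inter (nb cl A R) (nb cl A R')
    have h6 : (nb cl A (R ∩ R')).card ≤ (nb cl A R ∩ nb cl A R').card := by
      apply card_le_card
      intro D hD
      rw [mem_inter]
      exact ⟨nb_mono inter_subset_left hD, nb_mono inter_subset_right hD⟩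
    have h7 := hmax (R ∪ R') (by
      rw [mem_filter, mem_powerset, nb_union]
      exact ⟨union_subset hRE hR', by omega⟩)
    have h8 : R = R ∪ R' := eq_of_subset_of_card_le subset_union_left h7
    rw [h8]
    exact nb_mono subset_union_right hCN
  · obtain ⟨μ, h1, h2⟩ := h
    refine ⟨fun e => decide ((e, true) ∈ cl (μ e)), fun C hC => ?_⟩
    have h3 : R.image μ ⊆ nb cl A R := by
      intro C hC
      rw [mem_image] at hC
      obtain ⟨e, he, rfl⟩ := hC
      obtain ⟨h3, h4⟩ := h2 e (hRE he)
      exact mem_nb.2 ⟨h3, e, he, h4⟩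
    have h4 : (R.image μ).card = R.card :=
      card_image_of_injOn (fun x hx y hy => h1 (hRE hx) (hRE hy))
    have h5 := eq_of_subset_of_card_le h3 (by omega)
    rw [← h5, mem_image] at hC
    obtain ⟨e, he, rfl⟩ := hC
    exact ⟨e, he, sat_matched (h2 e (hRE he)).2⟩

theorem QT.drop [Inhabited ι] (hn : (p.map Prod.snd).Nodup) {Req Av : Finset ι} (hRA : Req ⊆ Av)
    (hM : Mt cl (exV p) Av) {x : V} {b : Bool}
    (hD : ∀ C ∈ Av, (x, b) ∈ cl C → ¬ Mt cl (exV p) (Av.erase C))
    (h : QT cl p (Req.filter (fun C => (x, b) ∉ cl C))) : QT cl p Req := by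
  obtain ⟨R, hR, hDN, σ, hσ⟩ := drop_set hM (D := Av.filter (fun C => (x, b) ∈ cl C))
    (filter_subset _ _) (by
      intro C hC
      rw [mem_filter] at hC
      exact hD C hC.1 hC.2)
  have h1 : QT cl p ((Req.filter (fun C => (x, b) ∉ cl C)) \ nb cl Av R ∪ nb cl Av R) := by
    refine QT.ext (σ := σ) hn hR ?_ hσ (QT.mono sdiff_subset h)
    intro C hC y hy c hc
    rw [mem_sdiff, mem_filter] at hC
    exact hC.2 (mem_nb.2 ⟨hRA hC.1.1, y, hy, c, hc⟩)
  refine QT.mono ?_ h1
  intro C hC
  rw [mem_union, mem_sdiff, mem_filter]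
  by_cases hCN : C ∈ nb cl Av R
  · exact Or.inr hCN
  · refine Or.inl ⟨⟨hC, fun hc => hCN (hDN ?_)⟩, hCN⟩
    rw [mem_filter]
    exact ⟨hRA hC, hc⟩

/-! ### Decision trees over the universal variables -/

/-- decision trees -/
inductive BT (V : Type*) : Type _
  | leaf : BT V
  | node (y : V) (l r : BT V) : BT V

/-- the branches -/
def BT.paths : BT V → List (List (V × Bool))
  | leaf => [[]]
  | node y l r => l.paths.map (fun β => (y, false) :: β) ++ r.paths.map (fun β => (y, true) :: β)

/-- the depth -/
def BT.depth : BT V → ℕ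
  | leaf => 0
  | node _ l r => max l.depth r.depth + 1

/-- all the labels are in `U` -/
def BT.lab (U : Finset V) : BT V → Prop
  | leaf => True
  | node y l r => y ∈ U ∧ l.lab U ∧ r.lab U

theorem BT.lab_mono {U U' : Finset V} (h : U ⊆ U') : ∀ {T : BT V}, T.lab U → T.lab U'
  | leaf, _ => trivial
  | node _ _ _, h1 => ⟨h h1.1, BT.lab_mono h h1.2.1, BT.lab_mono h h1.2.2⟩

/-- `y` comes before `e` in the prefix -/
def bef : List (Bool × V) → V → V → Prop
  | [], _, _ => False
  | a :: p, y, e => a.2 ≠ e ∧ (a.2 = y ∨ bef p y e)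

/-- the branches are in conflict before `e` -/
def Conf (p : List (Bool × V)) (e : V) (β β' : List (V × Bool)) : Prop :=
  ∃ y b, (y, b) ∈ β ∧ (y, !b) ∈ β' ∧ bef p y e

/-- a strategy, given by values and a matching for every branch -/
def Strat (cl : ι → Finset (V × Bool)) (p : List (Bool × V)) (Req Av : Finset ι) (T : BT V)
    (val : List (V × Bool) → V → Bool) (M : List (V × Bool) → V → ι) : Prop :=
  (∀ β ∈ T.paths, Set.InjOn (M β) (exV p) ∧ ∀ e ∈ exV p, M β e ∈ Av ∧
    (e, val β e) ∈ cl (M β e)) ∧
  (∀ β ∈ T.paths, ∀ C ∈ Req, (∃ l ∈ β, l ∈ cl C) ∨ ∃ e ∈ exV p, (e, val β e) ∈ cl C) ∧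
  (∀ β ∈ T.paths, ∀ β' ∈ T.paths, ∀ e ∈ exV p, ¬ Conf p e β β' → val β e = val β' e)

theorem strategy [Inhabited ι] : ∀ (p : List (Bool × V)) (_ : (p.map Prod.snd).Nodup) (κ : ℕ)
    (Req Av : Finset ι), Req ⊆ Av → Mt cl (exV p) Av → Av.card ≤ (exV p).card + κ →
    QT cl p Req → ∃ T : BT V, T.depth ≤ κ ∧ T.lab (unV p) ∧ ∃ val M, Strat cl p Req Av T val M := by
  intro p
  induction p with
  | nil =>
    intro _ κ Req Av _ _ _ h
    rw [QT] at h
    subst h
    refine ⟨BT.leaf, Nat.zero_le _, trivial, fun _ _ => true, fun _ _ => default, ?_, ?_, ?_⟩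
    · intro β _
      simp [exV]
    · intro β _ C hC
      simp at hC
    · intro β _ β' _ e he
      simp [exV] at he
  | cons a p ih =>
    intro hn κ Req Av hRA hM hκ h
    obtain ⟨q, x⟩ := a
    rw [List.map_cons, List.nodup_cons] at hn
    obtain ⟨hx, hn⟩ := hn
    have hxe : x ∉ exV p := fun h => hx (exV_mem_snd h)
    rw [QT] at h
    cases q with
    | true =>
      rw [if_pos rfl] at h
      rw [exV, if_pos rfl] at hM hκ
      rw [card_insert_of_notMem hxe] at hκ
      obtain ⟨b, hb⟩ := h
      have hM' : Mt cl (exV p) Av := by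
        obtain ⟨μ, h1, h2⟩ := hM
        exact ⟨μ, fun x hx y hy => h1 (mem_insert_of_mem hx) (mem_insert_of_mem hy),
          fun e he => h2 e (mem_insert_of_mem he)⟩
      have claim : ∃ b' C, C ∈ Av ∧ (x, b') ∈ cl C ∧ Mt cl (exV p) (Av.erase C) ∧
          QT cl p (Req.filter (fun C => (x, b') ∉ cl C)) := by
        by_cases hex : ∃ C ∈ Av, (x, b) ∈ cl C ∧ Mt cl (exV p) (Av.erase C)
        · obtain ⟨C, h1, h2, h3⟩ := hex
          exact ⟨b, C, h1, h2, h3, hb⟩
        · push Not at hex
          have h1 := QT.drop hn hRA hM' hex hb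
          obtain ⟨μ, h2, h3⟩ := hM
          obtain ⟨h4, b', h5⟩ := h3 x (mem_insert_self _ _)
          refine ⟨b', μ x, h4, h5, ⟨μ, ?_, ?_⟩, QT.mono (filter_subset _ _) h1⟩
          · exact fun x hx y hy => h2 (mem_insert_of_mem hx) (mem_insert_of_mem hy)
          · intro e he
            obtain ⟨h6, h7⟩ := h3 e (mem_insert_of_mem he)
            refine ⟨mem_erase.2 ⟨?_, h6⟩, h7⟩
            intro heq
            have := h2 (mem_insert_of_mem he) (mem_insert_self _ _) heq
            subst this
            exact hxe he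
      obtain ⟨b', C, hC, hCx, hMC, hQ⟩ := claim
      obtain ⟨T, hT1, hT2, val, M, hS1, hS2, hS3⟩ := ih hn κ
        (Req.filter (fun C => (x, b') ∉ cl C)) (Av.erase C) (by
          intro D hD
          rw [mem_filter] at hD
          rw [mem_erase]
          refine ⟨?_, hRA hD.1⟩
          rintro rfl
          exact hD.2 hCx) hMC (by
          rw [card_erase_of_mem hC]
          omega) hQ
      refine ⟨T, hT1, by rw [unV, if_pos rfl]; exact hT2,
        fun β e => if e = x then b' else val β e, fun β e => if e = x then C else M β e,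
        ?_, ?_, ?_⟩
      · intro β hβ
        rw [exV, if_pos rfl]
        obtain ⟨h1, h2⟩ := hS1 β hβ
        constructor
        · intro e he e' he' hee
          rw [mem_coe, mem_insert] at he he'
          simp only at hee
          by_cases hex : e = x
          · by_cases hex' : e' = x
            · rw [hex, hex']
            · rw [if_pos hex, if_neg hex'] at hee
              have h3 := (h2 e' (he'.resolve_left hex')).1
              rw [mem_erase] at h3
              exact absurd hee.symm h3.1
          · by_cases hex' : e' = x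
            · rw [if_neg hex, if_pos hex'] at hee
              have h3 := (h2 e (he.resolve_left hex)).1
              rw [mem_erase] at h3
              exact absurd hee h3.1
            · rw [if_neg hex, if_neg hex'] at hee
              exact h1 (he.resolve_left hex) (he'.resolve_left hex') hee
        · intro e he
          rw [mem_insert] at he
          by_cases hex : e = x
          · subst hex
            simp only [if_true]
            exact ⟨hC, hCx⟩
          · simp only [if_neg hex]
            obtain ⟨h3, h4⟩ := h2 e (he.resolve_left hex)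
            exact ⟨mem_of_mem_erase h3, h4⟩
      · intro β hβ D hD
        rw [exV, if_pos rfl]
        by_cases hDx : (x, b') ∈ cl D
        · exact Or.inr ⟨x, mem_insert_self _ _, by simpa using hDx⟩
        · rcases hS2 β hβ D (mem_filter.2 ⟨hD, hDx⟩) with h1 | ⟨e, he, h1⟩
          · exact Or.inl h1
          · refine Or.inr ⟨e, mem_insert_of_mem he, ?_⟩
            have hex : e ≠ x := by
              rintro rfl
              exact hxe he
            simpa [hex] using h1
      · intro β hβ β' hβ' e he hc
        rw [exV, if_pos rfl, mem_insert] at he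
        by_cases hex : e = x
        · simp [hex]
        · simp only [if_neg hex]
          refine hS3 β hβ β' hβ' e (he.resolve_left hex) (fun hc' => hc ?_)
          obtain ⟨y, c, h1, h2, h3⟩ := hc'
          exact ⟨y, c, h1, h2, Ne.symm hex, Or.inr h3⟩
    | false =>
      rw [if_neg (by simp)] at h
      rw [exV, if_neg (by simp)] at hM hκ
      by_cases hboth : ∀ b, ∃ C ∈ Av, (x, b) ∈ cl C ∧ Mt cl (exV p) (Av.erase C)
      · have hrec : ∀ b, 1 ≤ κ ∧ ∃ T : BT V, T.depth ≤ κ - 1 ∧ T.lab (unV p) ∧ ∃ val M,
            Strat cl p (Req.filter (fun C => (x, b) ∉ cl C)) Av T val M := by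
          intro b
          obtain ⟨C, hC, hCx, hMC⟩ := hboth b
          have h1 := mt_card hMC (Subset.refl _)
          have h2 : (nb cl (Av.erase C) (exV p)).card ≤ (Av.erase C).card :=
            card_le_card (filter_subset _ _)
          rw [card_erase_of_mem hC] at h2
          have h3 := card_pos.2 ⟨C, hC⟩
          refine ⟨by omega, ?_⟩
          obtain ⟨T, hT1, hT2, val, M, hS1, hS2, hS3⟩ := ih hn (κ - 1)
            (Req.filter (fun C => (x, b) ∉ cl C)) (Av.erase C) (by
              intro D hD
              rw [mem_filter] at hD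
              rw [mem_erase]
              refine ⟨?_, hRA hD.1⟩
              rintro rfl
              exact hD.2 hCx) hMC (by
              rw [card_erase_of_mem hC]
              omega) (h b)
          refine ⟨T, hT1, hT2, val, M, ?_, hS2, hS3⟩
          intro β hβ
          obtain ⟨h4, h5⟩ := hS1 β hβ
          refine ⟨h4, fun e he => ?_⟩
          obtain ⟨h6, h7⟩ := h5 e he
          exact ⟨mem_of_mem_erase h6, h7⟩
        obtain ⟨hκ1, T0, hT01, hT02, val0, M0, h01, h02, h03⟩ := hrec false
        obtain ⟨_, T1, hT11, hT12, val1, M1, h11, h12, h13⟩ := hrec true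
        have hsub : unV p ⊆ unV ((false, x) :: p) := by
          rw [unV, if_neg (by simp)]
          exact subset_insert _ _
        refine ⟨BT.node x T0 T1, ?_, ?_,
          fun β e => match β with
            | [] => true
            | l :: β' => if l.2 = true then val1 β' e else val0 β' e,
          fun β e => match β with
            | [] => default
            | l :: β' => if l.2 = true then M1 β' e else M0 β' e, ?_, ?_, ?_⟩
        · rw [BT.depth]
          have := max_le hT01 hT11
          omega
        · refine ⟨?_, BT.lab_mono hsub hT02, BT.lab_mono hsub hT12⟩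
          rw [unV, if_neg (by simp)]
          exact mem_insert_self _ _
        · intro β hβ
          rw [exV, if_neg (by simp)]
          rw [BT.paths, List.mem_append, List.mem_map, List.mem_map] at hβ
          rcases hβ with ⟨β', hβ', rfl⟩ | ⟨β', hβ', rfl⟩
          · simpa using h01 β' hβ'
          · simpa using h11 β' hβ'
        · intro β hβ C hC
          rw [exV, if_neg (by simp)]
          rw [BT.paths, List.mem_append, List.mem_map, List.mem_map] at hβ
          rcases hβ with ⟨β', hβ', rfl⟩ | ⟨β', hβ', rfl⟩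
          · by_cases hCx : (x, false) ∈ cl C
            · exact Or.inl ⟨_, List.mem_cons_self, hCx⟩
            · rcases h02 β' hβ' C (mem_filter.2 ⟨hC, hCx⟩) with ⟨l, h1, h2⟩ | h1
              · exact Or.inl ⟨l, List.mem_cons_of_mem _ h1, h2⟩
              · exact Or.inr (by simpa using h1)
          · by_cases hCx : (x, true) ∈ cl C
            · exact Or.inl ⟨_, List.mem_cons_self, hCx⟩
            · rcases h12 β' hβ' C (mem_filter.2 ⟨hC, hCx⟩) with ⟨l, h1, h2⟩ | h1
              · exact Or.inl ⟨l, List.mem_cons_of_mem _ h1, h2⟩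
              · exact Or.inr (by simpa using h1)
        · intro β hβ β' hβ' e he hc
          rw [exV, if_neg (by simp)] at he
          have hxne : x ≠ e := by
            rintro rfl
            exact hxe he
          rw [BT.paths, List.mem_append, List.mem_map, List.mem_map] at hβ hβ'
          have hstep : ∀ (c : Bool) (γ γ' : List (V × Bool)),
              Conf p e γ γ' → Conf ((false, x) :: p) e ((x, c) :: γ) ((x, c) :: γ') := by
            rintro c γ γ' ⟨y, d, h1, h2, h3⟩
            exact ⟨y, d, List.mem_cons_of_mem _ h1, List.mem_cons_of_mem _ h2, hxne, Or.inr h3⟩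
          rcases hβ with ⟨γ, hγ, rfl⟩ | ⟨γ, hγ, rfl⟩ <;>
            rcases hβ' with ⟨γ', hγ', rfl⟩ | ⟨γ', hγ', rfl⟩
          · simpa using h03 γ hγ γ' hγ' e he (fun h => hc (hstep _ _ _ h))
          · exact absurd ⟨x, false, List.mem_cons_self, List.mem_cons_self, hxne, Or.inl rfl⟩ hc
          · exact absurd ⟨x, true, List.mem_cons_self, List.mem_cons_self, hxne, Or.inl rfl⟩ hc
          · simpa using h13 γ hγ γ' hγ' e he (fun h => hc (hstep _ _ _ h))
      · push Not at hboth
        obtain ⟨b, hb⟩ := hboth
        have h1 := QT.drop hn hRA hM hb (h b)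
        obtain ⟨T, hT1, hT2, val, M, hS1, hS2, hS3⟩ := ih hn κ Req Av hRA hM hκ h1
        refine ⟨T, hT1, BT.lab_mono (by
          rw [unV, if_neg (by simp)]
          exact subset_insert _ _) hT2, val, M, ?_, ?_, ?_⟩
        · rw [exV, if_neg (by simp)]
          exact hS1
        · rw [exV, if_neg (by simp)]
          exact hS2
        · intro β hβ β' hβ' e he hc
          rw [exV, if_neg (by simp)] at he
          have hxne : x ≠ e := by
            rintro rfl
            exact hxe he
          refine hS3 β hβ β' hβ' e he (fun h => hc ?_)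
          obtain ⟨y, d, h1, h2, h3⟩ := h
          exact ⟨y, d, h1, h2, hxne, Or.inr h3⟩

/-! ### Soundness -/

theorem bef_split {y x : V} {q : Bool} {suf : List (Bool × V)} : ∀ {pre : List (Bool × V)},
    bef (pre ++ (q, x) :: suf) y x → y ∈ pre.map Prod.snd
  | [], h => by
    rw [List.nil_append, bef] at h
    exact absurd rfl h.1
  | a :: pre, h => by
    rw [List.cons_append, bef] at h
    rcases h.2 with h1 | h1
    · rw [List.map_cons, h1]
      exact List.mem_cons_self
    · rw [List.map_cons]
      exact List.mem_cons_of_mem _ (bef_split h1)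

theorem soundness (hn : (p.map Prod.snd).Nodup) (B : List (List (V × Bool)))
    (R : V → List (V × Bool) → Bool → Prop)
    (hcov : ∀ τ : V → Bool, ∃ β ∈ B, ∀ l ∈ β, τ l.1 = l.2)
    (hcons : ∀ e ∈ exV p, ∀ β ∈ B, ∀ β' ∈ B, ∀ b b', R e β b → R e β' b' → ¬ Conf p e β β' →
      b = b')
    (hcl : ∀ C ∈ G, ∀ β ∈ B, (∃ l ∈ β, l ∈ cl C ∧ l.1 ∈ p.map Prod.snd) ∨
      ∃ e ∈ exV p, ∃ b, R e β b ∧ (e, b) ∈ cl C) : QT cl p G := by
  have key : ∀ (suf pre : List (Bool × V)), p = pre ++ suf → ∀ (σ : V → Bool) (G' : Finset ι),
      (∀ C ∈ G', C ∈ G ∧ ∀ x ∈ pre.map Prod.snd, (x, σ x) ∉ cl C) →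
      (∀ e, (true, e) ∈ pre → ∀ β ∈ B, (∀ l ∈ β, l.1 ∈ pre.map Prod.snd → σ l.1 = l.2) →
        ∀ b, R e β b → σ e = b) → QT cl suf G' := by
    intro suf
    induction suf with
    | nil =>
      intro pre hp σ G' hG' hinv
      rw [List.append_nil] at hp
      subst hp
      rw [QT, Finset.eq_empty_iff_forall_notMem]
      intro C hC
      obtain ⟨hCG, hCu⟩ := hG' C hC
      obtain ⟨β, hβ, hβσ⟩ := hcov σ
      rcases hcl C hCG β hβ with ⟨l, hl, hlC, hlp⟩ | ⟨e, he, b, hR, hC'⟩
      · apply hCu l.1 hlp
        rw [hβσ l hl]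
        exact hlC
      · have h1 := hinv e (mem_exV.1 he) β hβ (fun l hl _ => hβσ l hl) b hR
        apply hCu e (exV_mem_snd he)
        rw [h1]
        exact hC'
    | cons a suf ih =>
      intro pre hp σ G' hG' hinv
      obtain ⟨q, x⟩ := a
      have hp' : p = (pre ++ [(q, x)]) ++ suf := by rw [hp]; simp
      have hxpre : x ∉ pre.map Prod.snd := by
        rw [hp, List.map_append, List.map_cons, List.nodup_append] at hn
        intro hx
        exact hn.2.2 x hx x List.mem_cons_self rfl
      have hupd : ∀ b, ∀ y ∈ pre.map Prod.snd, Function.update σ x b y = σ y := by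
        intro b y hy
        rw [Function.update_of_ne]
        rintro rfl
        exact hxpre hy
      have step : ∀ b, (∀ C ∈ G'.filter (fun C => (x, b) ∉ cl C), C ∈ G ∧
          ∀ y ∈ (pre ++ [(q, x)]).map Prod.snd, (y, Function.update σ x b y) ∉ cl C) := by
        intro b C hC
        rw [mem_filter] at hC
        refine ⟨(hG' C hC.1).1, fun y hy => ?_⟩
        rw [List.map_append, List.mem_append] at hy
        rcases hy with hy | hy
        · rw [hupd b y hy]
          exact (hG' C hC.1).2 y hy
        · simp only [List.map_cons, List.map_nil, List.mem_singleton] at hy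
          subst hy
          rw [Function.update_self]
          exact hC.2
      have old : ∀ b, ∀ e, (true, e) ∈ pre → ∀ β ∈ B,
          (∀ l ∈ β, l.1 ∈ (pre ++ [(q, x)]).map Prod.snd → Function.update σ x b l.1 = l.2) →
          ∀ b', R e β b' → Function.update σ x b e = b' := by
        intro b e he β hβ hl b' hR
        have hepre : e ∈ pre.map Prod.snd := List.mem_map.2 ⟨_, he, rfl⟩
        rw [hupd b e hepre]
        refine hinv e he β hβ (fun l hlβ hlp => ?_) b' hR
        have h1 := hl l hlβ (by
          rw [List.map_append]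
          exact List.mem_append_left _ hlp)
        rw [hupd b _ hlp] at h1
        exact h1
      rw [QT]
      cases q with
      | true =>
        rw [if_pos rfl]
        by_cases hex : ∃ b, ∃ β ∈ B, (∀ l ∈ β, l.1 ∈ pre.map Prod.snd → σ l.1 = l.2) ∧ R x β b
        · obtain ⟨b, β₀, hβ₀, hl₀, hR₀⟩ := hex
          refine ⟨b, ih _ hp' (Function.update σ x b) _ (step b) ?_⟩
          intro e he β hβ hl b' hR
          rw [List.mem_append] at he
          rcases he with he | he
          · exact old b e he β hβ hl b' hR
          · simp only [List.mem_singleton, Prod.mk.injEq, true_and] at he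
            subst he
            rw [Function.update_self]
            refine hcons e ?_ β₀ hβ₀ β hβ b b' hR₀ hR ?_
            · rw [mem_exV, hp]
              simp
            · rintro ⟨y, c, h1, h2, h3⟩
              rw [hp] at h3
              have h4 := bef_split h3
              have h5 := hl₀ _ h1 h4
              have h6 := hl _ h2 (by
                rw [List.map_append]
                exact List.mem_append_left _ h4)
              simp only at h5 h6
              rw [hupd b _ h4, h5] at h6
              cases c <;> simp at h6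
        · refine ⟨true, ih _ hp' (Function.update σ x true) _ (step true) ?_⟩
          intro e he β hβ hl b' hR
          rw [List.mem_append] at he
          rcases he with he | he
          · exact old true e he β hβ hl b' hR
          · simp only [List.mem_singleton, Prod.mk.injEq, true_and] at he
            subst he
            exfalso
            apply hex
            refine ⟨b', β, hβ, fun l hlβ hlp => ?_, hR⟩
            have h1 := hl l hlβ (by
              rw [List.map_append]
              exact List.mem_append_left _ hlp)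
            rw [hupd true _ hlp] at h1
            exact h1
      | false =>
        rw [if_neg (by simp)]
        intro b
        refine ih _ hp' (Function.update σ x b) _ (step b) ?_
        intro e he β hβ hl b' hR
        rw [List.mem_append] at he
        rcases he with he | he
        · exact old b e he β hβ hl b' hR
        · simp at he
  exact key p [] rfl (fun _ => true) G (fun C hC => ⟨hC, by simp⟩) (by simp)

theorem BT.cover : ∀ (T : BT V) (τ : V → Bool), ∃ β ∈ T.paths, ∀ l ∈ β, τ l.1 = l.2
  | leaf, _ => ⟨[], by simp [BT.paths], by simp⟩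
  | node y l r, τ => by
    cases hy : τ y with
    | false =>
      obtain ⟨β, hβ, h⟩ := BT.cover l τ
      refine ⟨(y, false) :: β, ?_, ?_⟩
      · rw [BT.paths, List.mem_append]
        exact Or.inl (List.mem_map.2 ⟨β, hβ, rfl⟩)
      · intro m hm
        rcases List.mem_cons.1 hm with rfl | hm
        · exact hy
        · exact h m hm
    | true =>
      obtain ⟨β, hβ, h⟩ := BT.cover r τ
      refine ⟨(y, true) :: β, ?_, ?_⟩
      · rw [BT.paths, List.mem_append]
        exact Or.inr (List.mem_map.2 ⟨β, hβ, rfl⟩)
      · intro m hm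
        rcases List.mem_cons.1 hm with rfl | hm
        · exact hy
        · exact h m hm

end Pool.Agent.R534.MF
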