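import Pool.Agent.R534.MF.Items

/-!
# Correctness of the truth test
-/

set_option linter.unusedSectionVars false
set_option linter.unusedSimpArgs false

namespace Pool.Agent.R534.MF

open Finset

/-! ### The final tree -/

/-- remove the leaves in `X` and `Y` -/
def PT.minus (X : List Cla) (Y : List ℕ) : PT → PT
  | nil => nil
  | cl C => if C ∈ X then nil else cl C
  | vr v => if v ∈ Y then nil else vr v
  | join a b => join (a.minus X Y) (b.minus X Y)

/-- the join of all the trees, every leaf being kept only in the last tree where it occurs -/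
def finP : List PT → PT
  | [] => PT.nil
  | t :: ts => PT.join (t.minus (ts.flatMap PT.cls) (ts.flatMap PT.vrs)) (finP ts)

theorem mem_minus_cls {X : List Cla} {Y : List ℕ} {C : Cla} : ∀ {t : PT},
    C ∈ (t.minus X Y).cls ↔ C ∈ t.cls ∧ C ∉ X
  | PT.nil => by simp [PT.minus, PT.cls]
  | PT.cl D => by
    unfold PT.minus
    split_ifs with h
    · simp only [PT.cls, List.not_mem_nil, List.mem_singleton, false_iff, not_and, not_not]
      rintro rfl
      exact h
    · simp only [PT.cls, List.mem_singleton]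
      constructor
      · rintro rfl
        exact ⟨rfl, h⟩
      · exact fun h1 => h1.1
  | PT.vr v => by
    unfold PT.minus
    split_ifs with h <;> simp [PT.cls]
  | PT.join a b => by
    simp only [PT.minus, PT.cls, List.mem_append, mem_minus_cls]
    tauto

theorem mem_minus_vrs {X : List Cla} {Y : List ℕ} {w : ℕ} : ∀ {t : PT},
    w ∈ (t.minus X Y).vrs ↔ w ∈ t.vrs ∧ w ∉ Y
  | PT.nil => by simp [PT.minus, PT.vrs]
  | PT.cl D => by
    unfold PT.minus
    split_ifs with h <;> simp [PT.vrs]
  | PT.vr v => by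
    unfold PT.minus
    split_ifs with h
    · simp only [PT.vrs, List.not_mem_nil, List.mem_singleton, false_iff, not_and, not_not]
      rintro rfl
      exact h
    · simp only [PT.vrs, List.mem_singleton]
      constructor
      · rintro rfl
        exact ⟨rfl, h⟩
      · exact fun h1 => h1.1
  | PT.join a b => by
    simp only [PT.minus, PT.vrs, List.mem_append, mem_minus_vrs]
    tauto

theorem minus_nodup {X : List Cla} {Y : List ℕ} : ∀ {t : PT}, t.cls.Nodup → t.vrs.Nodup →
    (t.minus X Y).cls.Nodup ∧ (t.minus X Y).vrs.Nodup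
  | PT.nil, _, _ => by simp [PT.minus, PT.cls, PT.vrs]
  | PT.cl D, _, _ => by
    unfold PT.minus
    split_ifs <;> simp [PT.cls, PT.vrs]
  | PT.vr v, _, _ => by
    unfold PT.minus
    split_ifs <;> simp [PT.cls, PT.vrs]
  | PT.join a b, h1, h2 => by
    rw [PT.cls, List.nodup_append] at h1
    rw [PT.vrs, List.nodup_append] at h2
    have ha := minus_nodup (X := X) (Y := Y) h1.1 h2.1
    have hb := minus_nodup (X := X) (Y := Y) h1.2.1 h2.2.1
    simp only [PT.minus, PT.cls, PT.vrs]
    rw [List.nodup_append, List.nodup_append]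
    refine ⟨⟨ha.1, hb.1, ?_⟩, ⟨ha.2, hb.2, ?_⟩⟩
    · intro x hx y hy
      exact h1.2.2 x (mem_minus_cls.1 hx).1 y (mem_minus_cls.1 hy).1
    · intro x hx y hy
      exact h2.2.2 x (mem_minus_vrs.1 hx).1 y (mem_minus_vrs.1 hy).1

theorem mem_finP_cls {C : Cla} : ∀ {ts : List PT}, C ∈ (finP ts).cls ↔ ∃ t ∈ ts, C ∈ t.cls
  | [] => by simp [finP, PT.cls]
  | t :: ts => by
    rw [finP, PT.cls, List.mem_append, mem_minus_cls, mem_finP_cls, List.mem_flatMap]
    constructor
    · rintro (⟨h1, _⟩ | ⟨s, h1, h2⟩)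
      · exact ⟨t, List.mem_cons_self, h1⟩
      · exact ⟨s, List.mem_cons_of_mem _ h1, h2⟩
    · rintro ⟨s, h1, h2⟩
      by_cases h3 : ∃ a ∈ ts, C ∈ a.cls
      · exact Or.inr h3
      · rcases List.mem_cons.1 h1 with rfl | h1
        · exact Or.inl ⟨h2, h3⟩
        · exact absurd ⟨s, h1, h2⟩ h3

theorem mem_finP_vrs {C : ℕ} : ∀ {ts : List PT}, C ∈ (finP ts).vrs ↔ ∃ t ∈ ts, C ∈ t.vrs
  | [] => by simp [finP, PT.vrs]
  | t :: ts => by
    rw [finP, PT.vrs, List.mem_append, mem_minus_vrs, mem_finP_vrs, List.mem_flatMap]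
    constructor
    · rintro (⟨h1, _⟩ | ⟨s, h1, h2⟩)
      · exact ⟨t, List.mem_cons_self, h1⟩
      · exact ⟨s, List.mem_cons_of_mem _ h1, h2⟩
    · rintro ⟨s, h1, h2⟩
      by_cases h3 : ∃ a ∈ ts, C ∈ a.vrs
      · exact Or.inr h3
      · rcases List.mem_cons.1 h1 with rfl | h1
        · exact Or.inl ⟨h2, h3⟩
        · exact absurd ⟨s, h1, h2⟩ h3

theorem finP_nodup : ∀ {ts : List PT}, (∀ t ∈ ts, t.cls.Nodup ∧ t.vrs.Nodup) →
    (finP ts).cls.Nodup ∧ (finP ts).vrs.Nodup
  | [], _ => by simp [finP, PT.cls, PT.vrs]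
  | t :: ts, h => by
    have h1 := h t List.mem_cons_self
    have h2 := minus_nodup (X := ts.flatMap PT.cls) (Y := ts.flatMap PT.vrs) h1.1 h1.2
    have h3 := finP_nodup (fun s hs => h s (List.mem_cons_of_mem _ hs))
    rw [finP, PT.cls, PT.vrs, List.nodup_append, List.nodup_append]
    refine ⟨⟨h2.1, h3.1, ?_⟩, ⟨h2.2, h3.2, ?_⟩⟩
    · rintro x hx y hy rfl
      rw [mem_minus_cls, List.mem_flatMap] at hx
      exact hx.2 (mem_finP_cls.1 hy)
    · rintro x hx y hy rfl
      rw [mem_minus_vrs, List.mem_flatMap] at hx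
      exact hx.2 (mem_finP_vrs.1 hy)

/-! ### Postfix notation of the final tree -/

theorem mem_clsI {C : Cla} {l : List Ins} : C ∈ clsI l ↔ lc C ∈ l := by
  unfold clsI
  rw [List.mem_flatMap]
  constructor
  · rintro ⟨i, hi, hC⟩
    rcases i with _ | _ | D | v
    · simp [insC] at hC
    · simp [insC] at hC
    · simp only [insC, Option.elim, Sum.elim_inl, List.mem_singleton] at hC
      rw [hC]
      exact hi
    · simp [insC] at hC
  · intro h
    exact ⟨_, h, by simp [lc, insC]⟩

theorem mem_vrsI {v : ℕ} {l : List Ins} : v ∈ vrsI l ↔ lv v ∈ l := by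
  unfold vrsI
  rw [List.mem_flatMap]
  constructor
  · rintro ⟨i, hi, hC⟩
    rcases i with _ | _ | D | w
    · simp [insV] at hC
    · simp [insV] at hC
    · simp [insV] at hC
    · simp only [insV, Option.elim, Sum.elim_inr, List.mem_singleton] at hC
      rw [hC]
      exact hi
  · intro h
    exact ⟨_, h, by simp [lv, insV]⟩

/-- the replacement of an instruction -/
def rpl (s : List Ins) (i : Ins) : Ins :=
  if (!decide (i = jn) && s.any (fun j => decide (j = i))) = true then nl else i

theorem post_minus {s : List Ins} {X : List Cla} {Y : List ℕ} (hX : ∀ C, C ∈ X ↔ lc C ∈ s)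
    (hY : ∀ v, v ∈ Y ↔ lv v ∈ s) : ∀ t : PT, (t.minus X Y).post = t.post.map (rpl s)
  | PT.nil => by
    simp only [PT.minus, PT.post, List.map_cons, List.map_nil, rpl]
    split_ifs <;> rfl
  | PT.cl C => by
    have h1 : ¬ (lc C = jn) := by simp [lc, jn]
    have h2 : (s.any (fun j => decide (j = lc C)) = true) ↔ C ∈ X := by
      rw [hX, List.any_eq_true]
      simp
    simp only [PT.minus, PT.post, List.map_cons, List.map_nil, rpl, h1, decide_false,
      Bool.not_false, Bool.true_and, h2]
    split_ifs <;> rfl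
  | PT.vr v => by
    have h1 : ¬ (lv v = jn) := by simp [lv, jn]
    have h2 : (s.any (fun j => decide (j = lv v)) = true) ↔ v ∈ Y := by
      rw [hY, List.any_eq_true]
      simp
    simp only [PT.minus, PT.post, List.map_cons, List.map_nil, rpl, h1, decide_false,
      Bool.not_false, Bool.true_and, h2]
    split_ifs <;> rfl
  | PT.join a b => by
    have h1 : rpl s jn = jn := by simp [rpl]
    simp only [PT.minus, PT.post, List.map_append, List.map_cons, List.map_nil,
      post_minus hX hY a, post_minus hX hY b, h1]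

theorem clsI_append (l l' : List Ins) : clsI (l ++ l') = clsI l ++ clsI l' := by
  simp [clsI]

theorem vrsI_append (l l' : List Ins) : vrsI (l ++ l') = vrsI l ++ vrsI l' := by
  simp [vrsI]

theorem fin_aux : ∀ ts : List PT,
    (ts.map PT.post).foldr (fun (t : List Ins) (s : List Ins × List Ins) => (t ++ s.1,
      t.map (fun i => if (!decide (i = jn) && s.1.any (fun j => decide (j = i))) = true then nl
        else i) ++ (s.2 ++ [jn]))) ([], [nl]) = ((ts.map PT.post).flatten, (finP ts).post)
  | [] => rfl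
  | t :: ts => by
    rw [List.map_cons, List.foldr_cons, fin_aux ts]
    have hc : ∀ ts : List PT, clsI (ts.map PT.post).flatten = ts.flatMap PT.cls := by
      intro ts
      induction ts with
      | nil => rfl
      | cons t ts ih =>
        rw [List.map_cons, List.flatten_cons, clsI_append, ih, PT.clsI_post, List.flatMap_cons]
    have hv : ∀ ts : List PT, vrsI (ts.map PT.post).flatten = ts.flatMap PT.vrs := by
      intro ts
      induction ts with
      | nil => rfl
      | cons t ts ih =>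
        rw [List.map_cons, List.flatten_cons, vrsI_append, ih, PT.vrsI_post, List.flatMap_cons]
    have h1 := post_minus (s := (ts.map PT.post).flatten) (X := ts.flatMap PT.cls)
      (Y := ts.flatMap PT.vrs) (fun C => by rw [← hc, mem_clsI]) (fun v => by rw [← hv, mem_vrsI]) t
    rw [finP, PT.post, h1]
    rfl

theorem fin_eq (ts : List PT) : fin (ts.map PT.post) = (finP ts).post := by
  unfold fin
  rw [fin_aux]

/-! ### Crossing numbers of the final tree -/

theorem chi_list {M : ℕ → Cla} {E : Finset ℕ} {c : ℕ} : ∀ {ts : List PT},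
    (∀ t ∈ ts, chi M E (fun C => C ∈ t.cls) (fun e => e ∈ t.vrs) ≤ c) →
    chi M E (fun C => ∃ t ∈ ts, C ∈ t.cls) (fun e => ∃ t ∈ ts, e ∈ t.vrs) ≤ ts.length * c
  | [], _ => by
    rw [chi_congr (P' := fun C => C ∈ PT.nil.cls) (Q' := fun e => e ∈ PT.nil.vrs)
      (by simp [PT.cls]) (by simp [PT.vrs]), chi_nil]
    exact Nat.zero_le _
  | t :: ts, h => by
    have h1 := h t List.mem_cons_self
    have h2 := chi_list (fun s hs => h s (List.mem_cons_of_mem _ hs))
    have h3 := chi_or (M := M) (E := E) (P := fun C => C ∈ t.cls) (Q := fun e => e ∈ t.vrs)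
      (P' := fun C => ∃ t ∈ ts, C ∈ t.cls) (Q' := fun e => ∃ t ∈ ts, e ∈ t.vrs)
    rw [chi_congr (P' := fun C => ∃ s ∈ t :: ts, C ∈ s.cls)
      (Q' := fun e => ∃ s ∈ t :: ts, e ∈ s.vrs) (by simp) (by simp)] at h3
    rw [List.length_cons, Nat.succ_mul]
    omega

theorem minus_chi {M : ℕ → Cla} {E : Finset ℕ} {c d : ℕ} {X : List Cla} {Y : List ℕ}
    (hXY : chi M E (fun C => C ∈ X) (fun e => e ∈ Y) ≤ d) : ∀ {t : PT},
    t.All (fun s => chi M E (fun C => C ∈ s.cls) (fun e => e ∈ s.vrs) ≤ c) →
    (t.minus X Y).All (fun s => chi M E (fun C => C ∈ s.cls) (fun e => e ∈ s.vrs) ≤ c + d) := by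
  have key : ∀ t : PT, chi M E (fun C => C ∈ t.cls) (fun e => e ∈ t.vrs) ≤ c →
      chi M E (fun C => C ∈ (t.minus X Y).cls) (fun e => e ∈ (t.minus X Y).vrs) ≤ c + d := by
    intro t ht
    have h1 := chi_sub (M := M) (E := E) (P := fun C => C ∈ t.cls) (Q := fun e => e ∈ t.vrs)
      (P' := fun C => C ∈ X) (Q' := fun e => e ∈ Y)
    rw [chi_congr (P' := fun C => C ∈ (t.minus X Y).cls) (Q' := fun e => e ∈ (t.minus X Y).vrs)
      (fun C => mem_minus_cls.symm) (fun e => mem_minus_vrs.symm)] at h1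
    omega
  intro t
  induction t with
  | nil => intro h; exact key PT.nil h
  | cl C =>
    intro h
    have := key (PT.cl C) h
    unfold PT.minus at this ⊢
    split_ifs at this ⊢ with h1
    · exact this
    · exact this
  | vr v =>
    intro h
    have := key (PT.vr v) h
    unfold PT.minus at this ⊢
    split_ifs at this ⊢ with h1
    · exact this
    · exact this
  | join a b iha ihb =>
    intro h
    exact ⟨key _ h.1, iha h.2.1, ihb h.2.2⟩

theorem finP_chi {M : ℕ → Cla} {E : Finset ℕ} {c n : ℕ} : ∀ {ts : List PT}, ts.length ≤ n →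
    (∀ t ∈ ts, t.All (fun s => chi M E (fun C => C ∈ s.cls) (fun e => e ∈ s.vrs) ≤ c)) →
    (finP ts).All (fun s => chi M E (fun C => C ∈ s.cls) (fun e => e ∈ s.vrs) ≤ c + n * c)
  | [], _, _ => by
    simp only [finP, PT.All]
    rw [chi_nil]
    exact Nat.zero_le _
  | t :: ts, hn, h => by
    rw [List.length_cons] at hn
    have h1 := h t List.mem_cons_self
    have h2 : ∀ s ∈ ts, s.All (fun s => chi M E (fun C => C ∈ s.cls) (fun e => e ∈ s.vrs) ≤ c) :=
      fun s hs => h s (List.mem_cons_of_mem _ hs)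
    have h3 := chi_list (M := M) (E := E) (c := c) (ts := ts) (fun s hs => (h2 s hs).self)
    have h5 : ts.length * c ≤ n * c := Nat.mul_le_mul_right c (by omega)
    have h4 : chi M E (fun C => C ∈ ts.flatMap PT.cls) (fun e => e ∈ ts.flatMap PT.vrs) ≤
        n * c := by
      rw [chi_congr (P' := fun C => ∃ t ∈ ts, C ∈ t.cls) (Q' := fun e => ∃ t ∈ ts, e ∈ t.vrs)
        (fun C => List.mem_flatMap) (fun e => List.mem_flatMap)]
      exact h3.trans h5
    rw [finP]
    refine ⟨?_, minus_chi h4 h1, finP_chi (by omega) h2⟩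
    have h6 := chi_list (M := M) (E := E) (c := c) (ts := t :: ts)
      (fun s hs => (h s hs).self)
    have h7 : (t :: ts).length * c ≤ n * c := Nat.mul_le_mul_right c (by simpa using hn)
    have h8 : chi M E (fun C => C ∈ (finP (t :: ts)).cls) (fun e => e ∈ (finP (t :: ts)).vrs) =
        chi M E (fun C => ∃ s ∈ t :: ts, C ∈ s.cls) (fun e => ∃ s ∈ t :: ts, e ∈ s.vrs) :=
      chi_congr (fun C => mem_finP_cls) (fun e => mem_finP_vrs)
    rw [finP] at h8
    beta_reduce
    rw [h8]
    omega

/-! ### Prefixes -/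

theorem exL_toFinset (p : List (Bool × ℕ)) : (exL p).toFinset = exV p := by
  ext v
  rw [mem_exV]
  unfold exL
  simp

theorem unL_toFinset (p : List (Bool × ℕ)) : (unL p).toFinset = unV p := by
  ext v
  rw [mem_unV]
  unfold unL
  simp

theorem exL_nodup {p : List (Bool × ℕ)} (hn : (p.map Prod.snd).Nodup) : (exL p).Nodup := by
  unfold exL
  exact hn.sublist (List.filter_sublist.map _)

theorem ndp_iff {α : Type} [DecidableEq α] (l : List α) : ndp l = true ↔ l.Nodup := by
  unfold ndp
  rw [List.all_eq_true, List.nodup_iff_count_eq_one]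
  constructor
  · intro h a ha
    have := h a ha
    rw [decide_eq_true_iff] at this
    rw [List.count_eq_length_filter, ← this]
    congr 1
  · intro h a ha
    rw [decide_eq_true_iff, ← h a ha, List.count_eq_length_filter]
    congr 1

theorem QT.restrict {cl : Cla → Finset (ℕ × Bool)} {E' : Finset ℕ} : ∀ {p : List (Bool × ℕ)}
    {G : Finset Cla}, (∀ C ∈ G, ∀ v, (true, v) ∈ p → v ∉ E' → ∀ b, (v, b) ∉ cl C) → QT cl p G →
    QT cl (p.filter (fun a => !a.1 || decide (a.2 ∈ E'))) G := by
  intro p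
  induction p with
  | nil => intro G _ h; exact h
  | cons a p ih =>
    intro G hG h
    obtain ⟨q, x⟩ := a
    rw [QT] at h
    cases q with
    | false =>
      rw [if_neg (by simp)] at h
      rw [List.filter_cons_of_pos (by simp), QT, if_neg (by simp)]
      intro b
      refine ih ?_ (h b)
      intro C hC v hv hv' b'
      exact hG C (mem_of_mem_filter _ hC) v (List.mem_cons_of_mem _ hv) hv' b'
    | true =>
      rw [if_pos rfl] at h
      obtain ⟨b, hb⟩ := h
      by_cases hx : x ∈ E'
      · rw [List.filter_cons_of_pos (by simp [hx]), QT, if_pos rfl]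
        refine ⟨b, ih ?_ hb⟩
        intro C hC v hv hv' b'
        exact hG C (mem_of_mem_filter _ hC) v (List.mem_cons_of_mem _ hv) hv' b'
      · rw [List.filter_cons_of_neg (by simp [hx])]
        have h1 : G.filter (fun C => (x, b) ∉ cl C) = G := by
          rw [Finset.filter_eq_self]
          intro C hC
          exact hG C hC x List.mem_cons_self hx b
        rw [h1] at hb
        exact ih (fun C hC v hv => hG C hC v (List.mem_cons_of_mem _ hv)) hb

theorem bef_filter {E' : Finset ℕ} {y e : ℕ} (he : e ∈ E') : ∀ {p : List (Bool × ℕ)},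
    bef (p.filter (fun a => !a.1 || decide (a.2 ∈ E'))) y e → bef p y e
  | [], h => h
  | a :: p, h => by
    by_cases ha : (!a.1 || decide (a.2 ∈ E')) = true
    · rw [List.filter_cons_of_pos (p := fun a : Bool × ℕ => !a.1 || decide (a.2 ∈ E')) ha, bef] at h
      rw [bef]
      exact ⟨h.1, h.2.imp_right (bef_filter he)⟩
    · rw [List.filter_cons_of_neg (p := fun a : Bool × ℕ => !a.1 || decide (a.2 ∈ E')) ha] at h
      rw [bef]
      refine ⟨?_, Or.inr (bef_filter he h)⟩
      rintro rfl
      simp [he] at ha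

/-! ### Soundness -/

theorem tst_sound {k c : ℕ} {p : List (Bool × ℕ)} {F : List Cla} {l : List Ins}
    (hn : (p.map Prod.snd).Nodup) (hF : F.Nodup) (hwf : ∀ C ∈ F, ∀ m ∈ C, m.1 ∈ p.map Prod.snd)
    (h : tst k c p F l = true) : QT cl0 p F.toFinset := by
  unfold tst at h
  rw [Bool.and_eq_true, Bool.and_eq_true, Bool.and_eq_true, Bool.and_eq_true, ndp_iff, ndp_iff,
    List.all_eq_true, List.any_eq_true] at h
  obtain ⟨⟨⟨h1, h2⟩, h3⟩, h4, B, hB, h5⟩ := h
  have h6 := satT_sound _ _ _ (hF.filter _) h4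
  rw [filter_notMem_cla, filter_notMem_nat] at h6
  obtain ⟨σ, hσ⟩ := h6
  obtain ⟨T, rfl⟩ := trees_sound hB
  obtain ⟨R, hR1, hR2, hR3⟩ := acc_sound h5 h1 h2
  refine soundness hn T.paths (fun e β b => R e β b ∨ (e ∉ vrsI l ∧ b = σ e)) T.cover ?_ ?_
  · rintro e _ β _ β' _ b b' (h7 | h7) (h8 | h8) hc
    · exact hR2 e β β' b b' h7 h8 hc
    · exact absurd (hR1 e β b h7) h8.1
    · exact absurd (hR1 e β' b' h8) h7.1
    · rw [h7.2, h8.2]
  · intro C hC β hβ
    rw [List.mem_toFinset] at hC
    by_cases hCl : C ∈ clsI l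
    · rcases hR3 C hCl β hβ with ⟨m, hm, hmC⟩ | ⟨e, b, hR, heC⟩
      · exact Or.inl ⟨m, hm, by simpa [cl0] using hmC, hwf C hC m hmC⟩
      · right
        have h7 := h3 e (hR1 e β b hR)
        rw [decide_eq_true_iff] at h7
        refine ⟨e, ?_, b, Or.inl hR, by simpa [cl0] using heC⟩
        rw [← exL_toFinset, List.mem_toFinset]
        exact h7
    · right
      obtain ⟨v, hv, hv'⟩ := hσ C (by
        rw [mem_sdiff, List.mem_toFinset, List.mem_toFinset]
        exact ⟨hC, hCl⟩)
      rw [mem_sdiff, exL_toFinset, List.mem_toFinset] at hv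
      exact ⟨v, hv.1, σ v, Or.inr ⟨hv.2, rfl⟩, hv'⟩

/-! ### Completeness -/

/-- the bound for the number of tokens -/
def cc (k : ℕ) : ℕ := 2 ^ k * (cst k k k + k * num k * cst k k k + k)

theorem truthT_complete {k : ℕ} {p : List (Bool × ℕ)} {F : List Cla}
    (hn : (p.map Prod.snd).Nodup) (hF : F.Nodup) (hd : DB cl0 (exV p) F.toFinset k)
    (h : QT cl0 p F.toFinset) : truthT k (cc k) p F = true := by
  classical
  have hW : (exL p).Nodup := exL_nodup hn
  rw [← exL_toFinset] at hd
  obtain ⟨F', E', ts, hL, lay⟩ := layers_spec k k F (exL p) le_rfl hF hW hd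
  unfold truthT
  rw [hL, fin_eq]
  set t := finP ts with ht
  have hcls : ∀ C, C ∈ t.cls ↔ C ∈ F' := fun C => mem_finP_cls.trans (lay.cov C)
  have hvrs : ∀ v, v ∈ t.vrs ↔ v ∈ E' := fun v => mem_finP_vrs.trans (lay.cov' v)
  have hnd := finP_nodup lay.nd
  rw [← ht] at hnd
  have hclsF : t.cls.toFinset = F' := by ext C; rw [List.mem_toFinset, hcls]
  have hvrsF : t.vrs.toFinset = E' := by ext C; rw [List.mem_toFinset, hvrs]
  have hE'W : E' ⊆ (exL p).toFinset := by
    rw [lay.eq]
    exact oc_subset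
  -- the strategy
  set p' := p.filter (fun a => !a.1 || decide (a.2 ∈ E')) with hp'
  have hn' : (p'.map Prod.snd).Nodup := hn.sublist (List.filter_sublist.map _)
  have hex : exV p' = E' := by
    ext v
    rw [mem_exV, hp', List.mem_filter]
    simp only [Bool.not_true, Bool.false_or, decide_eq_true_eq]
    rw [← mem_exV, ← exL_toFinset]
    exact ⟨fun h => h.2, fun h => ⟨hE'W h, h⟩⟩
  have hun : unV p' ⊆ (unL p).toFinset := by
    intro v hv
    rw [mem_unV, hp', List.mem_filter] at hv
    rw [unL_toFinset, mem_unV]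
    exact hv.1
  have hQ : QT cl0 p' F' := by
    rw [hp']
    refine QT.restrict ?_ (QT.mono lay.sub h)
    intro C hC v hv hvE b hb
    apply hvE
    rw [lay.eq, mem_oc]
    refine ⟨?_, C, hC, b, hb⟩
    rw [exL_toFinset, mem_exV]
    exact hv
  have hFE : F'.card ≤ E'.card + k := by
    have := hd F' lay.sub
    rwa [← lay.eq] at this
  have hmt := lay.mt
  rw [← hex] at hmt hFE
  obtain ⟨T, hT1, hT2, val, M, hS1, hS2, hS3⟩ := strategy p' hn' k F' F' (Subset.refl _) hmt hFE hQ
  rw [hex] at hS1 hS2 hS3 hFE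
  -- reasons
  have hreason : ∀ (β : List (ℕ × Bool)) (C : Cla), ∃ e : ℕ,
      (∃ e' ∈ E', (e', val β e') ∈ C) → e ∈ E' ∧ (e, val β e) ∈ C := by
    intro β C
    by_cases hex : ∃ e' ∈ E', (e', val β e') ∈ C
    · obtain ⟨e', h1, h2⟩ := hex
      exact ⟨e', fun _ => ⟨h1, h2⟩⟩
    · exact ⟨0, fun h1 => absurd h1 hex⟩
  choose r hr using hreason
  -- tokens
  set Z1 : List (ℕ × Bool) → Finset Tok := fun β =>
    E'.image (fun e => (β, (e, val β e), M β e)) with hZ1
  set Z2 : List (ℕ × Bool) → Finset Tok := fun β =>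
    ((F' \ E'.image (M β)).filter (fun C => ∃ e ∈ E', (e, val β e) ∈ C)).image
      (fun C => (β, (r β C, val β (r β C)), C)) with hZ2
  set Zt : Finset Tok := T.paths.toFinset.biUnion (fun β => Z1 β ∪ Z2 β) with hZt
  have hZmem : ∀ s ∈ Zt, s.1 ∈ T.paths ∧ s.2.2 ∈ F' ∧ s.2.1.1 ∈ E' ∧ s.2.1 ∈ s.2.2 ∧
      s.2.1.2 = val s.1 s.2.1.1 := by
    intro s hs
    rw [hZt, mem_biUnion] at hs
    obtain ⟨β, hβ, hs⟩ := hs
    rw [List.mem_toFinset] at hβ
    rw [mem_union, hZ1, hZ2, mem_image, mem_image] at hs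
    rcases hs with ⟨e, he, rfl⟩ | ⟨C, hC, rfl⟩
    · obtain ⟨h1, h2⟩ := (hS1 β hβ).2 e he
      refine ⟨hβ, h1, he, ?_, rfl⟩
      simpa [cl0] using h2
    · rw [mem_filter, mem_sdiff] at hC
      obtain ⟨h1, h2⟩ := hr β C hC.2
      exact ⟨hβ, hC.1.1, h1, h2, rfl⟩
  have hM : ∀ β ∈ T.paths, Mch (M β) E' F' := by
    intro β hβ
    refine ⟨(hS1 β hβ).1, fun e he => ((hS1 β hβ).2 e he).1, fun e he => ?_⟩
    have := ((hS1 β hβ).2 e he).2
    exact ⟨_, by simpa [cl0] using this⟩
  -- the number of crossing tokens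
  have hcross : t.All (fun t' => (bd Zt t').card ≤ cc k) := by
    have h1 : ∀ β ∈ T.paths, t.All (fun s => chi (M β) E' (fun C => C ∈ s.cls)
        (fun e => e ∈ s.vrs) ≤ cst k k k + k * num k * cst k k k) := by
      intro β hβ
      refine finP_chi lay.len ?_
      intro s hs
      refine PT.All.mono ?_ (lay.por s hs)
      intro s' hs'
      exact hs' (M β) E' F' (hM β hβ) (Subset.refl _) (fun e he => (hM β hβ).mem e he)
    have h2 : ∀ (l : List (List (ℕ × Bool))), (∀ β ∈ l, β ∈ T.paths) →
        t.All (fun s => ∀ β ∈ l, chi (M β) E' (fun C => C ∈ s.cls)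
          (fun e => e ∈ s.vrs) ≤ cst k k k + k * num k * cst k k k) := by
      intro l
      induction l with
      | nil =>
        intro _
        have : ∀ s : PT, s.All (fun s => ∀ β ∈ ([] : List (List (ℕ × Bool))),
            chi (M β) E' (fun C => C ∈ s.cls)
            (fun e => e ∈ s.vrs) ≤ cst k k k + k * num k * cst k k k) := by
          intro s
          induction s with
          | nil => simp [PT.All]
          | cl C => simp [PT.All]
          | vr v => simp [PT.All]
          | join a b ha hb => exact ⟨by simp, ha, hb⟩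
        exact this t
      | cons β l ih =>
        intro hl
        have h3 := h1 β (hl β List.mem_cons_self)
        have h4 := ih (fun γ hγ => hl γ (List.mem_cons_of_mem _ hγ))
        refine PT.All.mono ?_ (h3.and h4)
        intro s hs γ hγ
        rcases List.mem_cons.1 hγ with rfl | hγ
        · exact hs.1
        · exact hs.2 γ hγ
    refine PT.All.mono ?_ (h2 T.paths (fun _ h => h))
    intro s hs
    have h3 : bd Zt s ⊆ T.paths.toFinset.biUnion (fun β =>
        ((Z1 β).filter (fun x => Xor (x.2.2 ∈ s.cls) (x.2.1.1 ∈ s.vrs))) ∪ Z2 β) := by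
      intro x hx
      rw [mem_bd, hZt, mem_biUnion] at hx
      obtain ⟨⟨β, hβ, hx1⟩, hx2⟩ := hx
      rw [mem_biUnion]
      refine ⟨β, hβ, ?_⟩
      rw [mem_union] at hx1
      rw [mem_union, mem_filter]
      rcases hx1 with hx1 | hx1
      · exact Or.inl ⟨hx1, hx2⟩
      · exact Or.inr hx1
    refine (card_le_card h3).trans ((card_biUnion_le_card_mul _ _
      (cst k k k + k * num k * cst k k k + k) ?_).trans ?_)
    · intro β hβ
      rw [List.mem_toFinset] at hβ
      refine (card_union_le _ _).trans (Nat.add_le_add ?_ ?_)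
      · refine le_trans ?_ (hs β hβ)
        unfold chi
        have h4 : (Z1 β).filter (fun x => Xor (x.2.2 ∈ s.cls) (x.2.1.1 ∈ s.vrs)) ⊆
            (chiS (M β) E' (fun C => C ∈ s.cls) (fun e => e ∈ s.vrs)).image
              (fun e => (β, (e, val β e), M β e)) := by
          intro x hx
          rw [mem_filter, hZ1, mem_image] at hx
          obtain ⟨⟨e, he, rfl⟩, hx2⟩ := hx
          rw [mem_image]
          exact ⟨e, mem_chiS.2 ⟨he, hx2⟩, rfl⟩
        exact (card_le_card h4).trans card_image_le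
      · rw [hZ2]
        refine card_image_le.trans ((card_le_card (filter_subset _ _)).trans ?_)
        have h5 : E'.image (M β) ⊆ F' := by
          intro C hC
          rw [mem_image] at hC
          obtain ⟨e, he, rfl⟩ := hC
          exact (hM β hβ).mem e he
        rw [card_sdiff_of_subset h5, card_image_of_injOn (hM β hβ).inj]
        omega
    · unfold cc
      refine Nat.mul_le_mul_right _ ?_
      refine (List.toFinset_card_le _).trans ((paths_length T).trans ?_)
      exact Nat.pow_le_pow_right (by norm_num) hT1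
  -- acceptance
  have hacc : acc (cc k) p t.post T.paths = true := by
    refine acc_complete (Zt := Zt) ?_ ?_ ?_ ?_ hnd.1 hnd.2 hcross
    · intro s hs
      obtain ⟨h1, h2, h3, _, _⟩ := hZmem s hs
      exact ⟨h1, (hcls _).2 h2, (hvrs _).2 h3⟩
    · intro s hs
      exact (hZmem s hs).2.2.2.1
    · intro s hs s' hs' he hc
      obtain ⟨h1, _, h3, _, h5⟩ := hZmem s hs
      obtain ⟨h1', _, h3', _, h5'⟩ := hZmem s' hs'
      rw [h5, h5', ← he]
      refine hS3 s.1 h1 s'.1 h1' s.2.1.1 h3 (fun hc' => hc ?_)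
      obtain ⟨y, b, h6, h7, h8⟩ := hc'
      exact ⟨y, b, h6, h7, bef_filter h3 h8⟩
    · intro C hC β hβ
      rw [hcls] at hC
      by_cases h1 : C ∈ E'.image (M β)
      · right
        rw [mem_image] at h1
        obtain ⟨e, he, rfl⟩ := h1
        refine ⟨(β, (e, val β e), M β e), ?_, rfl, rfl⟩
        rw [hZt, mem_biUnion]
        refine ⟨β, List.mem_toFinset.2 hβ, mem_union_left _ ?_⟩
        exact mem_image.2 ⟨e, he, rfl⟩
      · rcases hS2 β hβ C hC with ⟨l, hl, hlC⟩ | ⟨e, he, heC⟩
        · exact Or.inl ⟨l, hl, by simpa [cl0] using hlC⟩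
        · right
          refine ⟨(β, (r β C, val β (r β C)), C), ?_, rfl, rfl⟩
          rw [hZt, mem_biUnion]
          refine ⟨β, List.mem_toFinset.2 hβ, mem_union_right _ ?_⟩
          refine mem_image.2 ⟨C, ?_, rfl⟩
          rw [mem_filter, mem_sdiff]
          exact ⟨⟨hC, h1⟩, e, he, by simpa [cl0] using heC⟩
  unfold tst
  rw [Bool.and_eq_true, Bool.and_eq_true, Bool.and_eq_true, Bool.and_eq_true, ndp_iff, ndp_iff,
    List.all_eq_true, List.any_eq_true, PT.clsI_post, PT.vrsI_post]
  refine ⟨⟨⟨hnd.1, hnd.2⟩, ?_⟩, ?_, T.paths, trees_paths hT1 (BT.lab_mono hun hT2), hacc⟩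
  · intro v hv
    rw [decide_eq_true_iff]
    exact List.mem_toFinset.1 (hE'W ((hvrs v).1 hv))
  · have hdb : DB cl0 ((exL p).toFinset \ E') (F.toFinset \ F') k := by
      intro R hR
      have hdj : Disjoint F' R := by
        rw [Finset.disjoint_left]
        intro x hx hx'
        exact (mem_sdiff.1 (hR hx')).2 hx
      have h1 := hd (F' ∪ R) (union_subset lay.sub (hR.trans sdiff_subset))
      rw [card_union_of_disjoint hdj, card_oc_union, ← lay.eq] at h1
      have h2 : E'.card ≤ F'.card := by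
        have h3 := mt_card lay.mt (Subset.refl _)
        exact h3.trans (card_le_card (filter_subset _ _))
      omega
    rw [satT_iff (hF.filter _)]
    · rw [filter_notMem_cla, filter_notMem_nat, hclsF, hvrsF]
      exact lay.sat
    · rw [filter_notMem_cla, filter_notMem_nat, hclsF, hvrsF]
      exact hdb

theorem truthT_iff {k : ℕ} {p : List (Bool × ℕ)} {F : List Cla} (hn : (p.map Prod.snd).Nodup)
    (hF : F.Nodup) (hwf : ∀ C ∈ F, ∀ m ∈ C, m.1 ∈ p.map Prod.snd)
    (hd : DB cl0 (exV p) F.toFinset k) :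
    truthT k (cc k) p F = true ↔ QT cl0 p F.toFinset :=
  ⟨tst_sound hn hF hwf, truthT_complete hn hF hd⟩

end Pool.Agent.R534.MF
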